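import Pool.Agent.Q196.BergerDefs

/-! Algebra of the left multiplications `J0, J1, J2` and of the right multiplication by `i`. -/

open MeasureTheory Metric
open scoped ContDiff

namespace Q196.Berger

theorem inner_eq (x y : E4) : inner ℝ x y = x 0 * y 0 + x 1 * y 1 + x 2 * y 2 + x 3 * y 3 := by
  simp [PiLp.inner_apply, Fin.sum_univ_four, mul_comm]

/-- Right multiplication by `i`. -/
def R (x : E4) : E4 := !₂[-x 1, x 0, x 3, -x 2]

section coords
variable (x : E4)
@[simp] theorem J0_0 : J0 x 0 = -x 1 := rfl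
@[simp] theorem J0_1 : J0 x 1 = x 0 := rfl
@[simp] theorem J0_2 : J0 x 2 = -x 3 := rfl
@[simp] theorem J0_3 : J0 x 3 = x 2 := rfl
@[simp] theorem J1_0 : J1 x 0 = -x 2 := rfl
@[simp] theorem J1_1 : J1 x 1 = x 3 := rfl
@[simp] theorem J1_2 : J1 x 2 = x 0 := rfl
@[simp] theorem J1_3 : J1 x 3 = -x 1 := rfl
@[simp] theorem J2_0 : J2 x 0 = -x 3 := rfl
@[simp] theorem J2_1 : J2 x 1 = -x 2 := rfl
@[simp] theorem J2_2 : J2 x 2 = x 1 := rfl
@[simp] theorem J2_3 : J2 x 3 = x 0 := rfl
@[simp] theorem R_0 : R x 0 = -x 1 := rfl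
@[simp] theorem R_1 : R x 1 = x 0 := rfl
@[simp] theorem R_2 : R x 2 = x 3 := rfl
@[simp] theorem R_3 : R x 3 = -x 2 := rfl
end coords

theorem ext4 {x y : E4} (h0 : x 0 = y 0) (h1 : x 1 = y 1) (h2 : x 2 = y 2) (h3 : x 3 = y 3) :
    x = y := by
  ext i; fin_cases i <;> assumption

theorem J0_add (x y : E4) : J0 (x + y) = J0 x + J0 y := by apply ext4 <;> simp <;> ring
theorem J1_add (x y : E4) : J1 (x + y) = J1 x + J1 y := by apply ext4 <;> simp <;> ring
theorem J2_add (x y : E4) : J2 (x + y) = J2 x + J2 y := by apply ext4 <;> simp <;> ring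
theorem R_add (x y : E4) : R (x + y) = R x + R y := by apply ext4 <;> simp <;> ring
theorem J0_smul (c : ℝ) (x : E4) : J0 (c • x) = c • J0 x := by apply ext4 <;> simp
theorem J1_smul (c : ℝ) (x : E4) : J1 (c • x) = c • J1 x := by apply ext4 <;> simp
theorem J2_smul (c : ℝ) (x : E4) : J2 (c • x) = c • J2 x := by apply ext4 <;> simp
theorem R_smul (c : ℝ) (x : E4) : R (c • x) = c • R x := by apply ext4 <;> simp
theorem J0_neg (x : E4) : J0 (-x) = -J0 x := by apply ext4 <;> simp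
theorem J1_neg (x : E4) : J1 (-x) = -J1 x := by apply ext4 <;> simp
theorem J2_neg (x : E4) : J2 (-x) = -J2 x := by apply ext4 <;> simp
theorem R_neg (x : E4) : R (-x) = -R x := by apply ext4 <;> simp
theorem J0_J0 (x : E4) : J0 (J0 x) = -x := by apply ext4 <;> simp
theorem J0_J1 (x : E4) : J0 (J1 x) = J2 x := by apply ext4 <;> simp
theorem J0_J2 (x : E4) : J0 (J2 x) = -J1 x := by apply ext4 <;> simp
theorem J1_J0 (x : E4) : J1 (J0 x) = -J2 x := by apply ext4 <;> simp
theorem J1_J1 (x : E4) : J1 (J1 x) = -x := by apply ext4 <;> simp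
theorem J1_J2 (x : E4) : J1 (J2 x) = J0 x := by apply ext4 <;> simp
theorem J2_J0 (x : E4) : J2 (J0 x) = J1 x := by apply ext4 <;> simp
theorem J2_J1 (x : E4) : J2 (J1 x) = -J0 x := by apply ext4 <;> simp
theorem J2_J2 (x : E4) : J2 (J2 x) = -x := by apply ext4 <;> simp
theorem R_J0 (x : E4) : R (J0 x) = J0 (R x) := by apply ext4 <;> simp
theorem R_J1 (x : E4) : R (J1 x) = J1 (R x) := by apply ext4 <;> simp
theorem R_J2 (x : E4) : R (J2 x) = J2 (R x) := by apply ext4 <;> simp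

/-- The left multiplications as continuous linear maps. -/
noncomputable def J0L : E4 →L[ℝ] E4 :=
  LinearMap.toContinuousLinearMap { toFun := J0, map_add' := J0_add, map_smul' := J0_smul }
noncomputable def J1L : E4 →L[ℝ] E4 :=
  LinearMap.toContinuousLinearMap { toFun := J1, map_add' := J1_add, map_smul' := J1_smul }
noncomputable def J2L : E4 →L[ℝ] E4 :=
  LinearMap.toContinuousLinearMap { toFun := J2, map_add' := J2_add, map_smul' := J2_smul }
noncomputable def RL : E4 →L[ℝ] E4 :=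
  LinearMap.toContinuousLinearMap { toFun := R, map_add' := R_add, map_smul' := R_smul }

@[simp] theorem J0L_apply (x : E4) : J0L x = J0 x := rfl
@[simp] theorem J1L_apply (x : E4) : J1L x = J1 x := rfl
@[simp] theorem J2L_apply (x : E4) : J2L x = J2 x := rfl
@[simp] theorem RL_apply (x : E4) : RL x = R x := rfl

theorem coe_J0L : (J0L : E4 → E4) = J0 := rfl
theorem coe_J1L : (J1L : E4 → E4) = J1 := rfl
theorem coe_J2L : (J2L : E4 → E4) = J2 := rfl
theorem coe_RL : (RL : E4 → E4) = R := rfl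

theorem hasFDerivAt_J0 (x : E4) : HasFDerivAt J0 J0L x := coe_J0L ▸ J0L.hasFDerivAt
theorem hasFDerivAt_J1 (x : E4) : HasFDerivAt J1 J1L x := coe_J1L ▸ J1L.hasFDerivAt
theorem hasFDerivAt_J2 (x : E4) : HasFDerivAt J2 J2L x := coe_J2L ▸ J2L.hasFDerivAt
theorem hasFDerivAt_R (x : E4) : HasFDerivAt R RL x := coe_RL ▸ RL.hasFDerivAt

theorem contDiff_J0 {n : WithTop ℕ∞} : ContDiff ℝ n J0 := coe_J0L ▸ J0L.contDiff
theorem contDiff_J1 {n : WithTop ℕ∞} : ContDiff ℝ n J1 := coe_J1L ▸ J1L.contDiff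
theorem contDiff_J2 {n : WithTop ℕ∞} : ContDiff ℝ n J2 := coe_J2L ▸ J2L.contDiff
theorem contDiff_R {n : WithTop ℕ∞} : ContDiff ℝ n R := coe_RL ▸ RL.contDiff

theorem J0_skew (x y : E4) : inner ℝ (J0 x) y = -inner ℝ x (J0 y) := by
  simp [inner_eq]; ring
theorem J1_skew (x y : E4) : inner ℝ (J1 x) y = -inner ℝ x (J1 y) := by
  simp [inner_eq]; ring
theorem J2_skew (x y : E4) : inner ℝ (J2 x) y = -inner ℝ x (J2 y) := by
  simp [inner_eq]; ring
theorem R_skew (x y : E4) : inner ℝ (R x) y = -inner ℝ x (R y) := by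
  simp [inner_eq]; ring
theorem J0_iso (x y : E4) : inner ℝ (J0 x) (J0 y) = (inner ℝ x y : ℝ) := by
  simp [inner_eq]; ring
theorem J1_iso (x y : E4) : inner ℝ (J1 x) (J1 y) = (inner ℝ x y : ℝ) := by
  simp [inner_eq]; ring
theorem J2_iso (x y : E4) : inner ℝ (J2 x) (J2 y) = (inner ℝ x y : ℝ) := by
  simp [inner_eq]; ring
theorem R_iso (x y : E4) : inner ℝ (R x) (R y) = (inner ℝ x y : ℝ) := by
  simp [inner_eq]; ring

theorem inner_J0_self (x : E4) : inner ℝ (J0 x) x = (0 : ℝ) := by simp [inner_eq]; ring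
theorem inner_J1_self (x : E4) : inner ℝ (J1 x) x = (0 : ℝ) := by simp [inner_eq]; ring
theorem inner_J2_self (x : E4) : inner ℝ (J2 x) x = (0 : ℝ) := by simp [inner_eq]; ring
theorem inner_R_self (x : E4) : inner ℝ (R x) x = (0 : ℝ) := by simp [inner_eq]; ring
theorem inner_J1_J0 (x : E4) : inner ℝ (J1 x) (J0 x) = (0 : ℝ) := by simp [inner_eq]; ring
theorem inner_J2_J0 (x : E4) : inner ℝ (J2 x) (J0 x) = (0 : ℝ) := by simp [inner_eq]; ring
theorem inner_J1_J2 (x : E4) : inner ℝ (J1 x) (J2 x) = (0 : ℝ) := by simp [inner_eq]; ring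

theorem inner_self_of_mem {x : E4} (hx : x ∈ S3) : inner ℝ x x = (1 : ℝ) := by
  have : ‖x‖ = 1 := by simpa using hx
  rw [real_inner_self_eq_norm_sq, this]; norm_num

/-- components of `R x` in the frame -/
def pc (x : E4) : ℝ := x 0 ^ 2 + x 1 ^ 2 - x 2 ^ 2 - x 3 ^ 2
def qc (x : E4) : ℝ := 2 * (x 1 * x 2 + x 0 * x 3)
def rc (x : E4) : ℝ := 2 * (x 1 * x 3 - x 0 * x 2)

theorem inner_R_J0 (x : E4) : inner ℝ (R x) (J0 x) = pc x := by simp [inner_eq, pc]; ring
theorem inner_R_J1 (x : E4) : inner ℝ (R x) (J1 x) = qc x := by simp [inner_eq, qc]; ring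
theorem inner_R_J2 (x : E4) : inner ℝ (R x) (J2 x) = rc x := by simp [inner_eq, rc]; ring

theorem R_expand {x : E4} (hx : x ∈ S3) :
    R x = pc x • J0 x + qc x • J1 x + rc x • J2 x := by
  have h := inner_self_of_mem hx
  rw [inner_eq] at h
  apply ext4 <;> simp [pc, qc, rc]
  · linear_combination (x 1) * h
  · linear_combination (-x 0) * h
  · linear_combination (-x 3) * h
  · linear_combination (x 2) * h

theorem comp_sq {x : E4} (hx : x ∈ S3) : pc x ^ 2 + qc x ^ 2 + rc x ^ 2 = 1 := by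
  have h := inner_self_of_mem hx
  rw [inner_eq] at h
  simp only [pc, qc, rc]
  linear_combination (x 0 * x 0 + x 1 * x 1 + x 2 * x 2 + x 3 * x 3 + 1) * h

/-- The `g_μ` norm of a tangent vector given in the frame. -/
theorem gB_comb {x : E4} (hx : x ∈ S3) (μ a b c : ℝ) :
    gB μ x (a • J0 x + b • J1 x + c • J2 x) (a • J0 x + b • J1 x + c • J2 x)
      = μ * a ^ 2 + b ^ 2 + c ^ 2 := by
  have h := inner_self_of_mem hx
  rw [inner_eq] at h
  have h1 : inner ℝ (a • J0 x + b • J1 x + c • J2 x) (J0 x) = a := by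
    simp only [inner_add_left, inner_smul_left, inner_J1_J0, inner_J2_J0, J0_iso,
      inner_self_of_mem hx]
    simp
  have h2 : inner ℝ (a • J0 x + b • J1 x + c • J2 x) (J1 x) = b := by
    simp only [inner_add_left, inner_smul_left, real_inner_comm (J1 x) (J0 x), inner_J1_J0,
      real_inner_comm (J1 x) (J2 x), inner_J1_J2, J1_iso, inner_self_of_mem hx]
    simp
  have h3 : inner ℝ (a • J0 x + b • J1 x + c • J2 x) (J2 x) = c := by
    simp only [inner_add_left, inner_smul_left, real_inner_comm (J2 x) (J0 x), inner_J2_J0,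
      inner_J1_J2, J2_iso, inner_self_of_mem hx]
    simp
  unfold gB
  rw [h1]
  have : inner ℝ (a • J0 x + b • J1 x + c • J2 x) (a • J0 x + b • J1 x + c • J2 x)
      = a ^ 2 + b ^ 2 + c ^ 2 := by
    conv_lhs => rw [inner_add_right, inner_add_right, inner_smul_right, inner_smul_right,
      inner_smul_right, h1, h2, h3]
    ring
  rw [this]; ring

end Q196.Berger
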