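import Pool.Agent.Q196.BergerAlg

/-! Existence and uniqueness of the Levi-Civita connection of the Berger metrics. -/

open MeasureTheory Metric
open scoped ContDiff

namespace Q196.Berger

theorem norm_eq_one {x : E4} (hx : x ∈ S3) : ‖x‖ = 1 := by simpa using hx

/-- Two functions which agree on the sphere have the same tangential derivatives. -/
theorem fderiv_eq_of_eqOn {F : Type*} [NormedAddCommGroup F] [NormedSpace ℝ F] {f g : E4 → F}
    {x u : E4} (hx : x ∈ S3) (hu : inner ℝ u x = 0) (hf : DifferentiableAt ℝ f x)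
    (hg : DifferentiableAt ℝ g x) (h : ∀ y ∈ S3, f y = g y) :
    fderiv ℝ f x u = fderiv ℝ g x u := by
  by_cases hu0 : u = 0
  · simp [hu0]
  have ha : ‖u‖ ≠ 0 := by simpa using hu0
  set a := ‖u‖ with ha_def
  let c : ℝ → E4 := fun t => Real.cos (t * a) • x + (Real.sin (t * a) / a) • u
  have hc0 : c 0 = x := by simp [c]
  have hcS : ∀ t, c t ∈ S3 := by
    intro t
    have h1 : ‖c t‖ ^ 2 = 1 := by
      rw [← real_inner_self_eq_norm_sq]
      simp only [c, inner_add_left, inner_add_right, inner_smul_left, inner_smul_right,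
        inner_self_of_mem hx, hu, real_inner_comm u x, real_inner_self_eq_norm_sq u, ← ha_def]
      have := Real.sin_sq_add_cos_sq (t * a)
      have hs : Real.sin (t * a) / a * a = Real.sin (t * a) := div_mul_cancel₀ _ ha
      simp only [conj_trivial]
      linear_combination this + (Real.sin (t * a) / a * a + Real.sin (t * a)) * hs
    have h2 : ‖c t‖ = 1 := by
      have := norm_nonneg (c t)
      nlinarith [h1]
    simpa using h2
  have hcd : HasDerivAt c u 0 := by
    have h1 : HasDerivAt (fun t : ℝ => Real.cos (t * a)) (-Real.sin (0 * a) * a) 0 := by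
      have := (Real.hasDerivAt_cos (0 * a)).comp (0 : ℝ) ((hasDerivAt_id (0 : ℝ)).mul_const a)
      simpa [Function.comp_def] using this
    have h2 : HasDerivAt (fun t : ℝ => Real.sin (t * a) / a) (Real.cos (0 * a) * a / a) 0 := by
      have := ((Real.hasDerivAt_sin (0 * a)).comp (0 : ℝ)
        ((hasDerivAt_id (0 : ℝ)).mul_const a)).div_const a
      simpa [Function.comp_def] using this
    have h3 := (h1.smul_const x).add (h2.smul_const u)
    have h4 : (-Real.sin (0 * a) * a) • x + (Real.cos (0 * a) * a / a) • u = u := by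
      simp [ha]
    rw [h4] at h3
    exact h3
  have hf' : HasDerivAt (f ∘ c) (fderiv ℝ f x u) 0 := by
    have := (hc0 ▸ hf.hasFDerivAt : HasFDerivAt f (fderiv ℝ f x) (c 0)).comp_hasDerivAt 0 hcd
    exact this
  have hg' : HasDerivAt (g ∘ c) (fderiv ℝ g x u) 0 := by
    have := (hc0 ▸ hg.hasFDerivAt : HasFDerivAt g (fderiv ℝ g x) (c 0)).comp_hasDerivAt 0 hcd
    exact this
  have hfg : f ∘ c = g ∘ c := by
    funext t; exact h _ (hcS t)
  rw [hfg] at hf'
  exact hf'.unique hg'

theorem IsField.differentiableAt {V : E4 → E4} (hV : IsField V) {x : E4} (hx : x ∈ S3) :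
    DifferentiableAt ℝ V x := (hV.smooth x hx).differentiableAt (by simp)

/-- derivative of the tangency relation -/
theorem IsField.inner_fderiv {V : E4 → E4} (hV : IsField V) {x : E4} (hx : x ∈ S3) {u : E4}
    (hu : inner ℝ u x = 0) : inner ℝ (fderiv ℝ V x u) x = - (inner ℝ (V x) u : ℝ) := by
  have hd := hV.differentiableAt hx
  have h1 : fderiv ℝ (fun y => (inner ℝ (V y) y : ℝ)) x u = fderiv ℝ (fun _ => (0 : ℝ)) x u :=
    fderiv_eq_of_eqOn hx hu (hd.inner ℝ differentiableAt_id) (differentiableAt_const _)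
      (fun y hy => hV.tangent y hy)
  have h2 := fderiv_inner_apply (𝕜 := ℝ) hd (differentiableAt_id (x := x)) u
  simp only [id] at h2
  rw [h2] at h1
  simp at h1
  linarith

/-- the algebraic part of the connection -/
noncomputable def phi (x w : E4) : E4 := J0 w + (inner ℝ w (J0 x) : ℝ) • x

/-- The Levi-Civita connection of `g_μ`. -/
noncomputable def Dstd (μ : ℝ) (V : E4 → E4) (x u : E4) : E4 :=
  (fderiv ℝ V x u - (inner ℝ (fderiv ℝ V x u) x : ℝ) • x)
    + (μ - 1) • ((inner ℝ u (J0 x) : ℝ) • phi x (V x) + (inner ℝ (V x) (J0 x) : ℝ) • phi x u)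

theorem phi_tangent {x : E4} (hx : x ∈ S3) (w : E4) : inner ℝ (phi x w) x = (0 : ℝ) := by
  simp only [phi, inner_add_left, inner_smul_left, inner_self_of_mem hx, J0_skew]
  simp

theorem phi_inner_H {x : E4} (hx : x ∈ S3) {w : E4} (hw : inner ℝ w x = 0) :
    inner ℝ (phi x w) (J0 x) = (0 : ℝ) := by
  simp only [phi, inner_add_left, inner_smul_left, J0_iso, real_inner_comm (J0 x) x,
    inner_J0_self, hw]
  simp

theorem phi_inner {x w z : E4} (hz : inner ℝ z x = 0) :
    inner ℝ (phi x w) z = (inner ℝ (J0 w) z : ℝ) := by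
  simp only [phi, inner_add_left, inner_smul_left, real_inner_comm z x, hz]
  simp

theorem contDiffAt_gB {μ : ℝ} {V W : E4 → E4} {x : E4} (hV : ContDiffAt ℝ ∞ V x)
    (hW : ContDiffAt ℝ ∞ W x) : ContDiffAt ℝ ∞ (fun y => gB μ y (V y) (W y)) x := by
  unfold gB
  have hJ : ContDiffAt ℝ ∞ J0 x := contDiff_J0.contDiffAt
  exact (hV.inner ℝ hW).add (contDiffAt_const.mul ((hV.inner ℝ hJ).mul (hW.inner ℝ hJ)))

theorem fderiv_gB {μ : ℝ} {V W : E4 → E4} {x : E4} (hV : DifferentiableAt ℝ V x)
    (hW : DifferentiableAt ℝ W x) (u : E4) :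
    fderiv ℝ (fun y => gB μ y (V y) (W y)) x u =
      (inner ℝ (fderiv ℝ V x u) (W x) + inner ℝ (V x) (fderiv ℝ W x u))
      + (μ - 1) * ((inner ℝ (fderiv ℝ V x u) (J0 x) + inner ℝ (V x) (J0 u)) *
          inner ℝ (W x) (J0 x)
        + inner ℝ (V x) (J0 x) *
          (inner ℝ (fderiv ℝ W x u) (J0 x) + inner ℝ (W x) (J0 u))) := by
  have hJ : DifferentiableAt ℝ J0 x := (hasFDerivAt_J0 x).differentiableAt
  have hJ' : fderiv ℝ J0 x u = J0 u := by rw [(hasFDerivAt_J0 x).fderiv]; rfl
  have d1 : DifferentiableAt ℝ (fun y => (inner ℝ (V y) (W y) : ℝ)) x := hV.inner ℝ hW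
  have d2 : DifferentiableAt ℝ (fun y => (inner ℝ (V y) (J0 y) : ℝ)) x := hV.inner ℝ hJ
  have d3 : DifferentiableAt ℝ (fun y => (inner ℝ (W y) (J0 y) : ℝ)) x := hW.inner ℝ hJ
  unfold gB
  rw [fderiv_fun_add d1 ((d2.fun_mul d3).const_mul _), ContinuousLinearMap.add_apply,
    fderiv_inner_apply (𝕜 := ℝ) hV hW, fderiv_const_mul (d2.fun_mul d3),
    ContinuousLinearMap.smul_apply, fderiv_fun_mul d2 d3, ContinuousLinearMap.add_apply,
    ContinuousLinearMap.smul_apply, ContinuousLinearMap.smul_apply,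
    fderiv_inner_apply (𝕜 := ℝ) hV hJ, fderiv_inner_apply (𝕜 := ℝ) hW hJ, hJ']
  simp only [smul_eq_mul]
  ring

theorem isLeviCivita_Dstd (μ : ℝ) : IsLeviCivita μ (Dstd μ) := by
  refine ⟨?_, ?_, ?_, ?_, ?_, ?_⟩
  · intro V hV x hx u hu
    simp only [Dstd, inner_add_left, inner_sub_left, inner_smul_left, inner_self_of_mem hx,
      phi_tangent hx]
    simp
  · intro V hV x hx u v hu hv a b
    simp only [Dstd, phi, map_add, map_smul, inner_add_left, inner_smul_left, J0_add, J0_smul]
    simp only [conj_trivial]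
    module
  · intro V W hV hW x hx u hu
    have h1 : fderiv ℝ (fun y => V y + W y) x u = fderiv ℝ V x u + fderiv ℝ W x u := by
      rw [fderiv_fun_add (hV.differentiableAt hx) (hW.differentiableAt hx)]; rfl
    simp only [Dstd, phi, h1, inner_add_left, J0_add]
    module
  · intro f V hf hV x hx u hu
    have h1 : fderiv ℝ (fun y => f y • V y) x u = f x • fderiv ℝ V x u + (fderiv ℝ f x u) • V x := by
      rw [fderiv_fun_smul ((hf x hx).differentiableAt (by simp)) (hV.differentiableAt hx)]
      simp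
    simp only [Dstd, phi, h1, inner_add_left, inner_smul_left, J0_smul, hV.tangent x hx]
    simp only [conj_trivial]
    module
  · intro V W hV hW x hx u hu
    rw [fderiv_gB (hV.differentiableAt hx) (hW.differentiableAt hx)]
    have tV := hV.tangent x hx
    have tW := hW.tangent x hx
    have e1 : inner ℝ (Dstd μ V x u) (J0 x) = (inner ℝ (fderiv ℝ V x u) (J0 x) : ℝ) := by
      simp only [Dstd, inner_add_left, inner_sub_left, inner_smul_left, phi_inner_H hx tV,
        phi_inner_H hx hu, real_inner_comm (J0 x) x, inner_J0_self]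
      simp
    have e2 : inner ℝ (Dstd μ W x u) (J0 x) = (inner ℝ (fderiv ℝ W x u) (J0 x) : ℝ) := by
      simp only [Dstd, inner_add_left, inner_sub_left, inner_smul_left, phi_inner_H hx tW,
        phi_inner_H hx hu, real_inner_comm (J0 x) x, inner_J0_self]
      simp
    have e3 : inner ℝ (Dstd μ V x u) (W x) = (inner ℝ (fderiv ℝ V x u) (W x) : ℝ)
        + (μ - 1) * (inner ℝ u (J0 x) * inner ℝ (J0 (V x)) (W x)
          + inner ℝ (V x) (J0 x) * inner ℝ (J0 u) (W x)) := by
      simp only [Dstd, inner_add_left, inner_sub_left, inner_smul_left, phi_inner tW,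
        real_inner_comm (W x) x, tW]
      simp
    have e4 : inner ℝ (Dstd μ W x u) (V x) = (inner ℝ (fderiv ℝ W x u) (V x) : ℝ)
        + (μ - 1) * (inner ℝ u (J0 x) * inner ℝ (J0 (W x)) (V x)
          + inner ℝ (W x) (J0 x) * inner ℝ (J0 u) (V x)) := by
      simp only [Dstd, inner_add_left, inner_sub_left, inner_smul_left, phi_inner tV,
        real_inner_comm (V x) x, tV]
      simp
    have e5 : (inner ℝ (J0 (W x)) (V x) : ℝ) = - inner ℝ (J0 (V x)) (W x) := by
      rw [J0_skew, real_inner_comm]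
    unfold gB
    rw [e1, e2, e3, real_inner_comm (Dstd μ W x u) (V x), e4, e5,
      real_inner_comm (fderiv ℝ W x u) (V x), real_inner_comm (J0 u) (V x),
      real_inner_comm (J0 u) (W x)]
    ring
  · intro V W hV hW x hx
    have tV := hV.tangent x hx
    have tW := hW.tangent x hx
    have h1 := hV.inner_fderiv hx tW
    have h2 := hW.inner_fderiv hx tV
    simp only [Dstd, h1, h2, real_inner_comm (V x) (W x)]
    module

/-- extension of a tangent vector to a field -/
noncomputable def extF (w : E4) : E4 → E4 := fun y => w - (inner ℝ w y : ℝ) • y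

theorem isField_extF (w : E4) : IsField (extF w) := by
  refine ⟨fun x _ => ?_, fun x hx => ?_⟩
  · unfold extF
    exact contDiffAt_const.sub ((contDiffAt_const.inner ℝ contDiffAt_id).smul contDiffAt_id)
  · simp only [extF, inner_sub_left, inner_smul_left, inner_self_of_mem hx]
    simp

theorem extF_self {x w : E4} (hw : inner ℝ w x = 0) : extF w x = w := by
  simp [extF, hw]

theorem gB_comm (μ : ℝ) (x u v : E4) : gB μ x u v = gB μ x v u := by
  unfold gB; rw [real_inner_comm]; ring

theorem gB_sub_left (μ : ℝ) (x u v w : E4) : gB μ x (u - v) w = gB μ x u w - gB μ x v w := by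
  unfold gB; rw [inner_sub_left, inner_sub_left]; ring

theorem gB_pos {μ : ℝ} (hμ : 0 < μ) {x z : E4} (hx : x ∈ S3) (hz : z ≠ 0) : 0 < gB μ x z z := by
  unfold gB
  have h1 : (inner ℝ z (J0 x) : ℝ) ^ 2 ≤ inner ℝ z z := by
    have := abs_real_inner_le_norm z (J0 x)
    have h2 : ‖J0 x‖ = 1 := by
      have h3 : ‖J0 x‖ ^ 2 = 1 := by
        rw [← real_inner_self_eq_norm_sq, J0_iso, inner_self_of_mem hx]
      nlinarith [norm_nonneg (J0 x)]
    rw [h2, mul_one] at this
    rw [real_inner_self_eq_norm_sq, ← sq_abs]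
    have := abs_nonneg (inner ℝ z (J0 x) : ℝ)
    nlinarith
  have h2 : (0 : ℝ) < inner ℝ z z := by
    rw [real_inner_self_eq_norm_sq]
    have : 0 < ‖z‖ := by simpa using hz
    positivity
  have h3 : (0 : ℝ) ≤ (inner ℝ z (J0 x) : ℝ) ^ 2 := sq_nonneg _
  nlinarith [mul_nonneg hμ.le h3]

/-- Uniqueness of the Levi-Civita connection. -/
theorem IsLeviCivita.unique {μ : ℝ} (hμ : 0 < μ) {D D' : (E4 → E4) → E4 → E4 → E4}
    (h : IsLeviCivita μ D) (h' : IsLeviCivita μ D') {V : E4 → E4} (hV : IsField V) {x : E4}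
    (hx : x ∈ S3) {u : E4} (hu : inner ℝ u x = 0) : D V x u = D' V x u := by
  -- the difference tensor
  let A : E4 → (E4 → E4) → E4 → ℝ := fun u V w => gB μ x (D V x u - D' V x u) w
  have hA1 : ∀ u : E4, inner ℝ u x = 0 → ∀ V W, IsField V → IsField W →
      A u V (W x) = - A u W (V x) := by
    intro u hu V W hV hW
    have e1 := h.metric V W hV hW x hx u hu
    have e2 := h'.metric V W hV hW x hx u hu
    simp only [A, gB_sub_left]
    rw [e1, gB_comm μ x (V x) (D W x u), gB_comm μ x (V x) (D' W x u)] at e2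
    linarith
  have hA2 : ∀ V W, IsField V → IsField W → ∀ w, A (V x) W w = A (W x) V w := by
    intro V W hV hW w
    have e1 := h.torsionFree V W hV hW x hx
    have e2 := h'.torsionFree V W hV hW x hx
    have e3 : D W x (V x) - D' W x (V x) = D V x (W x) - D' V x (W x) := by
      rw [← e1] at e2
      have := sub_eq_zero.mpr e2
      have h4 : D W x (V x) - D' W x (V x) - (D V x (W x) - D' V x (W x)) = 0 := by
        rw [← sub_eq_zero.mpr e2.symm]; abel
      exact sub_eq_zero.mp h4
    simp only [A, e3]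
  have hA0 : ∀ U V W, IsField U → IsField V → IsField W → A (U x) V (W x) = 0 := by
    intro U V W hU hV hW
    have t := fun (X : E4 → E4) (hX : IsField X) => hX.tangent x hx
    have e1 := hA2 U V hU hV (W x)
    have e2 := hA1 (V x) (t V hV) U W hU hW
    have e3 := hA2 V W hV hW (U x)
    have e4 := hA1 (W x) (t W hW) V U hV hU
    have e5 := hA2 W U hW hU (V x)
    have e6 := hA1 (U x) (t U hU) W V hW hV
    linarith
  by_contra hne
  have hz : D V x u - D' V x u ≠ 0 := sub_ne_zero.mpr hne
  have hpos := gB_pos hμ hx hz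
  have hzt : inner ℝ (D V x u - D' V x u) x = (0 : ℝ) := by
    rw [inner_sub_left, h.tangent V hV x hx u hu, h'.tangent V hV x hx u hu, sub_zero]
  have e := hA0 (extF u) V (extF (D V x u - D' V x u)) (isField_extF _) hV (isField_extF _)
  simp only [A, extF_self hu, extF_self hzt] at e
  linarith

end Q196.Berger
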