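import Mathlib

/-!
# Berger spheres, their Levi-Civita connection and the energy of unit vector fields

`S^3` is the unit sphere of `R^4 = EuclideanSpace ℝ (Fin 4)`; the point `x` stands for the
quaternion `x 0 + x 1 i + x 2 j + x 3 k`, and `J0`, `J1`, `J2` are the left multiplications by
`i`, `j`, `k`.
-/

open MeasureTheory Metric
open scoped ContDiff

namespace Q196.Berger

/-- Euclidean 4-space, identified with the quaternions. -/
abbrev E4 : Type := EuclideanSpace ℝ (Fin 4)

/-- The unit sphere `S^3` of `R^4`. -/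
abbrev S3 : Set E4 := sphere (0 : E4) 1

/-- Left multiplication by the quaternion `i`. -/
def J0 (x : E4) : E4 := !₂[-x 1, x 0, -x 3, x 2]

/-- Left multiplication by the quaternion `j`. -/
def J1 (x : E4) : E4 := !₂[-x 2, x 3, x 0, -x 1]

/-- Left multiplication by the quaternion `k`. -/
def J2 (x : E4) : E4 := !₂[-x 3, -x 2, x 1, x 0]

/-- The Berger metric `g_μ` at the point `x` of `S^3`, on vectors `u`, `v` tangent to the sphere
at `x`: `g_μ(u, v) = ⟨u, v⟩ + (μ - 1) ⟨u, H⟩ ⟨v, H⟩`, where `H = J0 x` is the Hopf field. Hence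
`g_μ(H, H) = μ`, `g_μ(H, w) = 0` for `w` orthogonal to `H`, and `g_μ` is the round metric on the
orthogonal complement of `H`. -/
noncomputable def gB (μ : ℝ) (x u v : E4) : ℝ :=
  inner ℝ u v + (μ - 1) * (inner ℝ u (J0 x) * inner ℝ v (J0 x))

/-- A smooth vector field on `S^3`, given as (the restriction to the sphere of) a map of `R^4` to
itself which is `C^∞` at the points of the sphere and tangent to the sphere there. -/
structure IsField (V : E4 → E4) : Prop where
  smooth : ∀ x ∈ S3, ContDiffAt ℝ ∞ V x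
  tangent : ∀ x ∈ S3, inner ℝ (V x) x = 0

/-- `D` is the Levi-Civita connection of the Berger metric `g_μ` on `S^3`; here `D V x u` stands
for the covariant derivative of the vector field `V` in the direction of the tangent vector `u`
at the point `x`. The clauses: values are tangent; linear in the direction; additive and
Leibniz rule in the field; compatible with `g_μ`; torsion-free, the Lie bracket of two tangent
fields `V`, `W` being `DW(V) - DV(W)`. -/
structure IsLeviCivita (μ : ℝ) (D : (E4 → E4) → E4 → E4 → E4) : Prop where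
  tangent : ∀ V, IsField V → ∀ x ∈ S3, ∀ u : E4, inner ℝ u x = 0 → inner ℝ (D V x u) x = 0
  linear : ∀ V, IsField V → ∀ x ∈ S3, ∀ u v : E4, inner ℝ u x = 0 → inner ℝ v x = 0 →
    ∀ a b : ℝ, D V x (a • u + b • v) = a • D V x u + b • D V x v
  add : ∀ V W, IsField V → IsField W → ∀ x ∈ S3, ∀ u : E4, inner ℝ u x = 0 →
    D (fun y => V y + W y) x u = D V x u + D W x u
  leibniz : ∀ (f : E4 → ℝ) (V : E4 → E4), (∀ x ∈ S3, ContDiffAt ℝ ∞ f x) → IsField V →
    ∀ x ∈ S3, ∀ u : E4, inner ℝ u x = 0 →
      D (fun y => f y • V y) x u = (fderiv ℝ f x u) • V x + f x • D V x u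
  metric : ∀ V W, IsField V → IsField W → ∀ x ∈ S3, ∀ u : E4, inner ℝ u x = 0 →
    fderiv ℝ (fun y => gB μ y (V y) (W y)) x u
      = gB μ x (D V x u) (W x) + gB μ x (V x) (D W x u)
  torsionFree : ∀ V W, IsField V → IsField W → ∀ x ∈ S3,
    D W x (V x) - D V x (W x) = fderiv ℝ W x (V x) - fderiv ℝ V x (W x)

/-- `V` is a smooth vector field on `S^3` with `g_μ(V, V) = 1`. -/
def IsUnitField (μ : ℝ) (V : E4 → E4) : Prop :=
  IsField V ∧ ∀ x ∈ S3, gB μ x (V x) (V x) = 1

/-- The `g_μ`-orthonormal frame `H_μ = H / √μ`, `E_1`, `E_2` at the point `x`. -/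
noncomputable def frame (μ : ℝ) (x : E4) : Fin 3 → E4 :=
  ![(√μ)⁻¹ • J0 x, J1 x, J2 x]

/-- `‖∇V‖²` at the point `x`, the norm being that of `g_μ`. -/
noncomputable def normSqD (μ : ℝ) (D : (E4 → E4) → E4 → E4 → E4) (V : E4 → E4) (x : E4) : ℝ :=
  ∑ i, gB μ x (D V x (frame μ x i)) (D V x (frame μ x i))

/-- The Riemannian measure of `g_μ`: `√μ` times the surface measure of the round sphere. -/
noncomputable def measB (μ : ℝ) : Measure S3 :=
  ENNReal.ofReal (√μ) • (volume : Measure E4).toSphere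

/-- The volume of `(S^3, g_μ)`. -/
noncomputable def volB (μ : ℝ) : ℝ := (measB μ).real Set.univ

/-- The energy `E(V) = (3/2) vol(S^3, g_μ) + (1/2) ∫ ‖∇V‖² dv_μ`. -/
noncomputable def energy (μ : ℝ) (D : (E4 → E4) → E4 → E4 → E4) (V : E4 → E4) : ℝ :=
  3 / 2 * volB μ + 1 / 2 * ∫ x : S3, normSqD μ D V x ∂(measB μ)

end Q196.Berger
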