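import Pool.Agent.Q196.BergerCalc

/-! The energy densities of the fields `X = a₁E₁ + a₂E₂` and of the competitor. -/

open MeasureTheory Metric
open scoped ContDiff

namespace Q196.Berger

/-- the field `a₁E₁ + a₂E₂` -/
noncomputable def fieldX (a₁ a₂ : ℝ) (y : E4) : E4 := a₁ • J1 y + a₂ • J2 y

/-- the competitor -/
noncomputable def comp (s : ℝ) (y : E4) : E4 :=
  R y + ((s⁻¹ - 1) * inner ℝ (R y) (J0 y)) • J0 y

theorem isField_fieldX (a₁ a₂ : ℝ) : IsField (fieldX a₁ a₂) := by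
  refine ⟨fun x _ => ?_, fun x hx => ?_⟩
  · unfold fieldX
    exact (contDiff_J1.contDiffAt.const_smul _).add (contDiff_J2.contDiffAt.const_smul _)
  · simp only [fieldX, inner_add_left, inner_smul_left, inner_J1_self, inner_J2_self]
    simp

theorem isField_comp (s : ℝ) : IsField (comp s) := by
  refine ⟨fun x _ => ?_, fun x hx => ?_⟩
  · unfold comp
    have hR : ContDiffAt ℝ ∞ R x := contDiff_R.contDiffAt
    have hJ : ContDiffAt ℝ ∞ J0 x := contDiff_J0.contDiffAt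
    exact hR.add ((contDiffAt_const.mul (hR.inner ℝ hJ)).smul hJ)
  · simp only [comp, inner_add_left, inner_smul_left, inner_R_self, inner_J0_self]
    simp

theorem fieldX_unit (μ : ℝ) {a₁ a₂ : ℝ} (h : a₁ ^ 2 + a₂ ^ 2 = 1) :
    IsUnitField μ (fieldX a₁ a₂) := by
  refine ⟨isField_fieldX _ _, fun x hx => ?_⟩
  have := gB_comb hx μ 0 a₁ a₂
  simp only [zero_smul, zero_add] at this
  unfold fieldX
  rw [this]; linear_combination h

theorem comp_eq {x : E4} (hx : x ∈ S3) {s : ℝ} (hs : s ≠ 0) :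
    comp s x = (pc x / s) • J0 x + qc x • J1 x + rc x • J2 x := by
  have h := R_expand hx
  simp only [comp, inner_R_J0]
  conv_lhs => rw [h]
  match_scalars <;> field_simp <;> ring

theorem comp_unit {s : ℝ} (hs : s ≠ 0) : IsUnitField (s ^ 2) (comp s) := by
  refine ⟨isField_comp _, fun x hx => ?_⟩
  rw [comp_eq hx hs, gB_comb hx]
  have := comp_sq hx
  field_simp
  linear_combination this

theorem fderiv_fieldX (a₁ a₂ : ℝ) (x u : E4) :
    fderiv ℝ (fieldX a₁ a₂) x u = a₁ • J1 u + a₂ • J2 u := by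
  have h : HasFDerivAt (fieldX a₁ a₂) (a₁ • J1L + a₂ • J2L) x :=
    ((hasFDerivAt_J1 x).const_smul a₁).add ((hasFDerivAt_J2 x).const_smul a₂)
  rw [h.fderiv]; simp

theorem fderiv_comp (s : ℝ) (x u : E4) :
    fderiv ℝ (comp s) x u = R u + ((s⁻¹ - 1) * (inner ℝ (R u) (J0 x) + inner ℝ (R x) (J0 u))) • J0 x
      + ((s⁻¹ - 1) * inner ℝ (R x) (J0 x)) • J0 u := by
  have hR := hasFDerivAt_R x
  have hJ := hasFDerivAt_J0 x
  have h1 : DifferentiableAt ℝ (fun y => (inner ℝ (R y) (J0 y) : ℝ)) x :=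
    hR.differentiableAt.inner ℝ hJ.differentiableAt
  have h2 : fderiv ℝ (fun y => (inner ℝ (R y) (J0 y) : ℝ)) x u
      = inner ℝ (R x) (J0 u) + inner ℝ (R u) (J0 x) := by
    rw [fderiv_inner_apply (𝕜 := ℝ) hR.differentiableAt hJ.differentiableAt, hR.fderiv,
      hJ.fderiv]
    rfl
  have h3 : HasFDerivAt (comp s)
      (RL + (((s⁻¹ - 1) * inner ℝ (R x) (J0 x)) • J0L +
        ((s⁻¹ - 1) • fderiv ℝ (fun y => (inner ℝ (R y) (J0 y) : ℝ)) x).smulRight (J0 x))) x :=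
    hR.add ((h1.hasFDerivAt.const_mul (s⁻¹ - 1)).smul hJ)
  rw [h3.fderiv]
  simp only [ContinuousLinearMap.add_apply, ContinuousLinearMap.smul_apply,
    ContinuousLinearMap.smulRight_apply, h2, RL_apply, J0L_apply, smul_eq_mul]
  module

/-- inner products with the frame -/
theorem inner_comb_x {x : E4} (hx : x ∈ S3) (d a b c : ℝ) :
    inner ℝ (d • x + a • J0 x + b • J1 x + c • J2 x) x = d := by
  simp only [inner_add_left, inner_smul_left, inner_J0_self, inner_J1_self, inner_J2_self,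
    inner_self_of_mem hx]
  simp

theorem inner_comb_J0 {x : E4} (hx : x ∈ S3) (d a b c : ℝ) :
    inner ℝ (d • x + a • J0 x + b • J1 x + c • J2 x) (J0 x) = a := by
  simp only [inner_add_left, inner_smul_left, real_inner_comm (J0 x) x, inner_J0_self,
    inner_J1_J0, inner_J2_J0, J0_iso, inner_self_of_mem hx]
  simp

/-- `Dstd` in terms of frame components -/
theorem Dstd_eq {μ : ℝ} {V : E4 → E4} {x u : E4} (hx : x ∈ S3) {d a b c h1 h2 h3 u1 u2 u3 : ℝ}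
    (hD : fderiv ℝ V x u = d • x + a • J0 x + b • J1 x + c • J2 x)
    (hV : V x = h1 • J0 x + h2 • J1 x + h3 • J2 x)
    (hu : u = u1 • J0 x + u2 • J1 x + u3 • J2 x) :
    Dstd μ V x u = a • J0 x + (b - (μ - 1) * (u1 * h3 + h1 * u3)) • J1 x
      + (c + (μ - 1) * (u1 * h2 + h1 * u2)) • J2 x := by
  have e1 : inner ℝ (fderiv ℝ V x u) x = d := by rw [hD]; exact inner_comb_x hx _ _ _ _
  have e2 : inner ℝ u (J0 x) = u1 := by
    rw [hu]; simpa using inner_comb_J0 hx 0 u1 u2 u3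
  have e3 : inner ℝ (V x) (J0 x) = h1 := by
    rw [hV]; simpa using inner_comb_J0 hx 0 h1 h2 h3
  simp only [Dstd, phi, e1, e2, e3]
  rw [hD, hV, hu]
  simp only [J0_add, J0_smul, J0_J0, J0_J1, J0_J2]
  module

theorem Dstd_fieldX_E1 {μ a₁ a₂ : ℝ} {x : E4} (hx : x ∈ S3) :
    Dstd μ (fieldX a₁ a₂) x (J1 x) = (-a₂) • J0 x + (0 : ℝ) • J1 x + (0 : ℝ) • J2 x := by
  rw [Dstd_eq hx (d := -a₁) (a := -a₂) (b := 0) (c := 0) (h1 := 0) (h2 := a₁) (h3 := a₂)
    (u1 := 0) (u2 := 1) (u3 := 0)]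
  · module
  · rw [fderiv_fieldX, J1_J1, J2_J1]; module
  · simp [fieldX]
  · simp

theorem Dstd_fieldX_E2 {μ a₁ a₂ : ℝ} {x : E4} (hx : x ∈ S3) :
    Dstd μ (fieldX a₁ a₂) x (J2 x) = a₁ • J0 x + (0 : ℝ) • J1 x + (0 : ℝ) • J2 x := by
  rw [Dstd_eq hx (d := -a₂) (a := a₁) (b := 0) (c := 0) (h1 := 0) (h2 := a₁) (h3 := a₂)
    (u1 := 0) (u2 := 0) (u3 := 1)]
  · module
  · rw [fderiv_fieldX, J1_J2, J2_J2]; module
  · simp [fieldX]
  · simp

theorem Dstd_fieldX_H {μ a₁ a₂ s : ℝ} {x : E4} (hx : x ∈ S3) (hs : s ≠ 0) :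
    Dstd μ (fieldX a₁ a₂) x (s⁻¹ • J0 x) =
      (0 : ℝ) • J0 x + (-(μ - 2) * a₂ / s) • J1 x + ((μ - 2) * a₁ / s) • J2 x := by
  rw [Dstd_eq hx (d := 0) (a := 0) (b := a₂ / s) (c := - a₁ / s) (h1 := 0) (h2 := a₁) (h3 := a₂)
    (u1 := s⁻¹) (u2 := 0) (u3 := 0)]
  · match_scalars <;> field_simp <;> ring
  · rw [fderiv_fieldX, J1_smul, J2_smul, J1_J0, J2_J0]
    match_scalars <;> field_simp
  · simp [fieldX]
  · simp

theorem frame_0 (μ : ℝ) (x : E4) : frame μ x 0 = (√μ)⁻¹ • J0 x := rfl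
theorem frame_1 (μ : ℝ) (x : E4) : frame μ x 1 = J1 x := rfl
theorem frame_2 (μ : ℝ) (x : E4) : frame μ x 2 = J2 x := rfl

theorem density_fieldX {s a₁ a₂ : ℝ} {x : E4} (hx : x ∈ S3) (hs : 0 < s)
    (h : a₁ ^ 2 + a₂ ^ 2 = 1) :
    normSqD (s ^ 2) (Dstd (s ^ 2)) (fieldX a₁ a₂) x = 2 * s ^ 2 - 4 + 4 / s ^ 2 := by
  have hs' : √(s ^ 2) = s := Real.sqrt_sq hs.le
  simp only [normSqD, Fin.sum_univ_three, frame_0, frame_1, frame_2, hs']
  rw [Dstd_fieldX_H hx hs.ne', Dstd_fieldX_E1 hx, Dstd_fieldX_E2 hx, gB_comb hx, gB_comb hx,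
    gB_comb hx]
  have := hs.ne'
  field_simp
  linear_combination ((s ^ 2 - 2) ^ 2 + s ^ 4) * h

theorem Dstd_comp_E1 {s : ℝ} {x : E4} (hx : x ∈ S3) (hs : s ≠ 0) :
    Dstd (s ^ 2) (comp s) x (J1 x) =
      ((2 - s) * rc x / s) • J0 x + (0 : ℝ) • J1 x + (-(2 - s) * pc x) • J2 x := by
  rw [Dstd_eq hx (d := - qc x) (a := (2 - s) * rc x / s) (b := 0) (c := -pc x + (s⁻¹ - 1) * pc x)
    (h1 := pc x / s) (h2 := qc x) (h3 := rc x) (u1 := 0) (u2 := 1) (u3 := 0)]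
  · match_scalars <;> field_simp <;> ring
  · rw [fderiv_comp, R_J1, J0_J1, inner_R_J2, inner_R_J0]
    have e : J1 (R x) = (-qc x) • x + rc x • J0 x + (-pc x) • J2 x := by
      rw [R_expand hx]
      simp only [J1_add, J1_smul, J1_J0, J1_J1, J1_J2]
      module
    have e2 : inner ℝ (J1 (R x)) (J0 x) = rc x := by
      rw [e]
      have := inner_comb_J0 hx (-qc x) (rc x) 0 (-pc x)
      simpa using this
    rw [e2, e]
    match_scalars <;> field_simp <;> ring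
  · exact comp_eq hx hs
  · simp

theorem Dstd_comp_E2 {s : ℝ} {x : E4} (hx : x ∈ S3) (hs : s ≠ 0) :
    Dstd (s ^ 2) (comp s) x (J2 x) =
      (-(2 - s) * qc x / s) • J0 x + ((2 - s) * pc x) • J1 x + (0 : ℝ) • J2 x := by
  rw [Dstd_eq hx (d := - rc x) (a := -(2 - s) * qc x / s) (b := pc x - (s⁻¹ - 1) * pc x) (c := 0)
    (h1 := pc x / s) (h2 := qc x) (h3 := rc x) (u1 := 0) (u2 := 0) (u3 := 1)]
  · match_scalars <;> field_simp <;> ring
  · rw [fderiv_comp, R_J2, J0_J2, inner_neg_right, inner_R_J1, inner_R_J0]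
    have e : J2 (R x) = (-rc x) • x + (-qc x) • J0 x + (pc x) • J1 x := by
      rw [R_expand hx]
      simp only [J2_add, J2_smul, J2_J0, J2_J1, J2_J2]
      module
    have e2 : inner ℝ (J2 (R x)) (J0 x) = -qc x := by
      rw [e]
      have := inner_comb_J0 hx (-rc x) (-qc x) (pc x) 0
      simpa using this
    rw [e2, e]
    match_scalars <;> field_simp <;> ring
  · exact comp_eq hx hs
  · simp

theorem Dstd_comp_H {s : ℝ} {x : E4} (hx : x ∈ S3) (hs : s ≠ 0) :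
    Dstd (s ^ 2) (comp s) x (s⁻¹ • J0 x) =
      (0 : ℝ) • J0 x + (-s * rc x) • J1 x + (s * qc x) • J2 x := by
  rw [Dstd_eq hx (d := - pc x / s - (s⁻¹ - 1) * pc x / s) (a := 0) (b := - rc x / s)
    (c := qc x / s)
    (h1 := pc x / s) (h2 := qc x) (h3 := rc x) (u1 := s⁻¹) (u2 := 0) (u3 := 0)]
  · match_scalars <;> field_simp <;> ring
  · rw [fderiv_comp, R_smul, J0_smul, R_J0, J0_J0, inner_R_J0]
    have e : J0 (R x) = (-pc x) • x + (-rc x) • J1 x + (qc x) • J2 x := by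
      rw [R_expand hx]
      simp only [J0_add, J0_smul, J0_J0, J0_J1, J0_J2]
      module
    have e2 : inner ℝ (J0 (R x)) (J0 x) = (0 : ℝ) := by
      rw [J0_iso, inner_R_self]
    have e3 : inner ℝ (R x) (s⁻¹ • -x) = (0 : ℝ) := by
      rw [inner_smul_right, inner_neg_right, inner_R_self]; simp
    rw [inner_smul_left, e2, e3, e]
    match_scalars <;> field_simp <;> ring
  · exact comp_eq hx hs
  · simp

theorem density_comp {s : ℝ} {x : E4} (hx : x ∈ S3) (hs : 0 < s) :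
    normSqD (s ^ 2) (Dstd (s ^ 2)) (comp s) x
      = (2 - s) ^ 2 * (1 + pc x ^ 2) + s ^ 2 * (1 - pc x ^ 2) := by
  have hs' : √(s ^ 2) = s := Real.sqrt_sq hs.le
  simp only [normSqD, Fin.sum_univ_three, frame_0, frame_1, frame_2, hs']
  rw [Dstd_comp_H hx hs.ne', Dstd_comp_E1 hx hs.ne', Dstd_comp_E2 hx hs.ne', gB_comb hx,
    gB_comb hx, gB_comb hx]
  have := hs.ne'
  have h := comp_sq hx
  field_simp
  linear_combination (s ^ 2 + (2 - s) ^ 2) * h

end Q196.Berger
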