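import Pool.Agent.Q196.BergerDens

/-! Integration over the sphere. -/

open MeasureTheory Metric Set
open scoped ContDiff Pointwise

namespace Q196.Berger

/-- restriction of a linear isometry to the unit sphere -/
noncomputable def sphMap (U : E4 ≃ₗᵢ[ℝ] E4) (x : S3) : S3 := ⟨U x, by simp⟩

lemma continuous_sphMap (U : E4 ≃ₗᵢ[ℝ] E4) : Continuous (sphMap U) :=
  (U.continuous.comp continuous_subtype_val).subtype_mk _

lemma toSphere_preimage (U : E4 ≃ₗᵢ[ℝ] E4) {s : Set S3} (hs : MeasurableSet s) :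
    (volume : Measure E4).toSphere (sphMap U ⁻¹' s) = (volume : Measure E4).toSphere s := by
  rw [Measure.toSphere_apply' _ hs,
    Measure.toSphere_apply' _ ((continuous_sphMap U).measurable hs)]
  congr 1
  have h : (Ioo (0 : ℝ) 1 • ((↑) '' (sphMap U ⁻¹' s)) : Set E4) =
      U ⁻¹' (Ioo (0 : ℝ) 1 • ((↑) '' s)) := by
    ext x
    simp only [mem_smul, mem_image, mem_preimage, Subtype.exists, exists_and_right,
      exists_eq_right]
    constructor
    · rintro ⟨r, hr, y, ⟨hy, hys⟩, rfl⟩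
      exact ⟨r, hr, U y, ⟨by simpa using hy, hys⟩, by simp⟩
    · rintro ⟨r, hr, y, ⟨hy, hys⟩, hxy⟩
      refine ⟨r, hr, U.symm y, ⟨by simpa using hy, ?_⟩, ?_⟩
      · have : sphMap U ⟨U.symm y, by simpa using hy⟩ = ⟨y, hy⟩ := by
          simp [sphMap]
        rw [this]; exact hys
      · apply U.injective
        rw [← hxy]; simp
  rw [h]
  exact (U.measurePreserving).measure_preimage_emb U.toHomeomorph.measurableEmbedding _

lemma toSphere_map (U : E4 ≃ₗᵢ[ℝ] E4) :
    ((volume : Measure E4).toSphere).map (sphMap U) = (volume : Measure E4).toSphere := by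
  ext s hs
  rw [Measure.map_apply (continuous_sphMap U).measurable hs, toSphere_preimage U hs]

/-- left multiplication by the unit quaternion `(1+i+j+k)/2` -/
noncomputable def Q (x : E4) : E4 := (1 / 2 : ℝ) • (x + J0 x + J1 x + J2 x)

theorem Q_inner (x y : E4) : inner ℝ (Q x) (Q y) = (inner ℝ x y : ℝ) := by
  simp [inner_eq, Q]; ring

theorem Q_add (x y : E4) : Q (x + y) = Q x + Q y := by
  simp only [Q, J0_add, J1_add, J2_add]; module

theorem Q_smul (c : ℝ) (x : E4) : Q (c • x) = c • Q x := by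
  simp only [Q, J0_smul, J1_smul, J2_smul]; module

noncomputable def QL : E4 →ₗᵢ[ℝ] E4 :=
  LinearMap.isometryOfInner { toFun := Q, map_add' := Q_add, map_smul' := Q_smul }
    (fun x y => Q_inner x y)

noncomputable def QE : E4 ≃ₗᵢ[ℝ] E4 := QL.toLinearIsometryEquiv rfl

@[simp] theorem QE_apply (x : E4) : QE x = Q x := rfl

theorem pc_Q (x : E4) : pc (Q x) = rc x := by
  simp [pc, rc, Q]; ring
theorem rc_Q (x : E4) : rc (Q x) = qc x := by
  simp [rc, qc, Q]; ring

theorem continuous_coord (i : Fin 4) : Continuous (fun x : S3 => (x : E4) i) := by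
  have : Continuous (fun x : E4 => x i) := by fun_prop
  exact this.comp continuous_subtype_val

theorem continuous_pc : Continuous (fun x : S3 => pc (x : E4)) := by
  unfold pc
  have := continuous_coord
  fun_prop
theorem continuous_qc : Continuous (fun x : S3 => qc (x : E4)) := by
  unfold qc
  have := continuous_coord
  fun_prop
theorem continuous_rc : Continuous (fun x : S3 => rc (x : E4)) := by
  unfold rc
  have := continuous_coord
  fun_prop

noncomputable abbrev σ : Measure S3 := (volume : Measure E4).toSphere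

theorem integrable_of_continuous {f : S3 → ℝ} (hf : Continuous f) (c : ENNReal) (hc : c ≠ ⊤) :
    Integrable f (c • σ) := by
  have : Integrable f σ := hf.integrable_of_hasCompactSupport (HasCompactSupport.of_compactSpace f)
  exact this.smul_measure hc

theorem integrable_sq {f : S3 → ℝ} (hf : Continuous f) : Integrable (fun x => f x ^ 2) σ :=
  (hf.pow 2).integrable_of_hasCompactSupport (HasCompactSupport.of_compactSpace _)

theorem toSphere_map' (U : E4 ≃ₗᵢ[ℝ] E4) : σ.map (sphMap U) = σ := toSphere_map U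

theorem integral_pc_sq : ∫ x : S3, pc x ^ 2 ∂σ = (1 / 3) * σ.real univ := by
  have e1 : ∫ x : S3, pc x ^ 2 ∂σ = ∫ x : S3, rc x ^ 2 ∂σ := by
    conv_lhs => rw [← toSphere_map' QE]
    have hc : Continuous (fun x : S3 => pc x ^ 2) := continuous_pc.pow 2
    rw [integral_map (continuous_sphMap QE).measurable.aemeasurable hc.aestronglyMeasurable]
    refine integral_congr_ae (Filter.Eventually.of_forall fun x => ?_)
    change pc (Q x) ^ 2 = rc x ^ 2
    rw [pc_Q]
  have e2 : ∫ x : S3, rc x ^ 2 ∂σ = ∫ x : S3, qc x ^ 2 ∂σ := by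
    conv_lhs => rw [← toSphere_map' QE]
    have hc : Continuous (fun x : S3 => rc x ^ 2) := continuous_rc.pow 2
    rw [integral_map (continuous_sphMap QE).measurable.aemeasurable hc.aestronglyMeasurable]
    refine integral_congr_ae (Filter.Eventually.of_forall fun x => ?_)
    change rc (Q x) ^ 2 = qc x ^ 2
    rw [rc_Q]
  have i1 : Integrable (fun x : S3 => pc x ^ 2) σ := integrable_sq continuous_pc
  have i2 : Integrable (fun x : S3 => qc x ^ 2) σ := integrable_sq continuous_qc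
  have i3 : Integrable (fun x : S3 => rc x ^ 2) σ := integrable_sq continuous_rc
  have e3 : ∫ x : S3, pc x ^ 2 ∂σ + ∫ x : S3, qc x ^ 2 ∂σ + ∫ x : S3, rc x ^ 2 ∂σ
      = σ.real univ := by
    have i12 : Integrable (fun x : S3 => pc x ^ 2 + qc x ^ 2) σ := i1.add i2
    rw [← integral_add i1 i2, ← integral_add i12 i3]
    have : ∀ x : S3, pc x ^ 2 + qc x ^ 2 + rc x ^ 2 = 1 := fun x => comp_sq x.2
    simp only [Pi.add_apply, this]
    simp
  linarith

theorem volB_eq {s : ℝ} (hs : 0 < s) : volB (s ^ 2) = s * σ.real univ := by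
  unfold volB measB
  rw [Real.sqrt_sq hs.le]
  simp [Measure.real, hs.le]

theorem volB_pos {μ : ℝ} (hμ : 0 < μ) : 0 < volB μ := by
  obtain ⟨s, hs, rfl⟩ : ∃ s : ℝ, 0 < s ∧ μ = s ^ 2 :=
    ⟨√μ, Real.sqrt_pos.mpr hμ, (Real.sq_sqrt hμ.le).symm⟩
  rw [volB_eq hs]
  have h1 : σ univ ≠ 0 := by
    rw [Ne, Measure.measure_univ_eq_zero]
    exact Measure.toSphere_ne_zero _
  have h2 : σ univ ≠ ⊤ := measure_ne_top _ _
  have : 0 < σ.real univ := ENNReal.toReal_pos h1 h2
  positivity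

theorem integral_measB {s : ℝ} (hs : 0 < s) (f : S3 → ℝ) :
    ∫ x : S3, f x ∂(measB (s ^ 2)) = s * ∫ x : S3, f x ∂σ := by
  unfold measB
  rw [Real.sqrt_sq hs.le, integral_smul_measure, ENNReal.toReal_ofReal hs.le, smul_eq_mul]

/-- Transfer of the density to an arbitrary Levi-Civita connection. -/
theorem normSqD_eq {μ : ℝ} (hμ : 0 < μ) {D : (E4 → E4) → E4 → E4 → E4} (hD : IsLeviCivita μ D)
    {V : E4 → E4} (hV : IsField V) {x : E4} (hx : x ∈ S3) :
    normSqD μ D V x = normSqD μ (Dstd μ) V x := by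
  have h1 : inner ℝ ((√μ)⁻¹ • J0 x) x = (0 : ℝ) := by
    rw [inner_smul_left, inner_J0_self]; simp
  simp only [normSqD, Fin.sum_univ_three, frame_0, frame_1, frame_2,
    hD.unique hμ (isLeviCivita_Dstd μ) hV hx h1,
    hD.unique hμ (isLeviCivita_Dstd μ) hV hx (inner_J1_self x),
    hD.unique hμ (isLeviCivita_Dstd μ) hV hx (inner_J2_self x)]

theorem energy_fieldX {s a₁ a₂ : ℝ} (hs : 0 < s) (h : a₁ ^ 2 + a₂ ^ 2 = 1)
    {D : (E4 → E4) → E4 → E4 → E4} (hD : IsLeviCivita (s ^ 2) D) :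
    energy (s ^ 2) D (fieldX a₁ a₂) =
      (3 / 2 + s ^ 2 + 2 * ((1 - s ^ 2) / s ^ 2)) * volB (s ^ 2) := by
  have hμ : 0 < s ^ 2 := by positivity
  have h1 : ∀ x : S3, normSqD (s ^ 2) D (fieldX a₁ a₂) x = 2 * s ^ 2 - 4 + 4 / s ^ 2 := fun x => by
    rw [normSqD_eq hμ hD (isField_fieldX _ _) x.2, density_fieldX x.2 hs h]
  unfold energy
  simp only [h1]
  rw [integral_measB hs, volB_eq hs]
  simp only [integral_const, smul_eq_mul]
  have := hs.ne'
  field_simp
  ring

theorem energy_comp {s : ℝ} (hs : 0 < s)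
    {D : (E4 → E4) → E4 → E4 → E4} (hD : IsLeviCivita (s ^ 2) D) :
    energy (s ^ 2) D (comp s) =
      (3 / 2 + (2 / 3) * (2 - s) ^ 2 + (1 / 3) * s ^ 2) * volB (s ^ 2) := by
  have hμ : 0 < s ^ 2 := by positivity
  have h1 : ∀ x : S3, normSqD (s ^ 2) D (comp s) x
      = (2 - s) ^ 2 + s ^ 2 + ((2 - s) ^ 2 - s ^ 2) * pc x ^ 2 := fun x => by
    rw [normSqD_eq hμ hD (isField_comp _) x.2, density_comp x.2 hs]; ring
  unfold energy
  simp only [h1]
  rw [integral_measB hs, volB_eq hs]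
  have i1 : Integrable (fun x : S3 => pc x ^ 2) σ := integrable_sq continuous_pc
  rw [integral_add (integrable_const _) (i1.const_mul _), integral_const_mul, integral_pc_sq]
  simp only [integral_const, smul_eq_mul]
  ring

theorem integrable_comp {s : ℝ} (hs : 0 < s)
    {D : (E4 → E4) → E4 → E4 → E4} (hD : IsLeviCivita (s ^ 2) D) :
    Integrable (fun x : S3 => normSqD (s ^ 2) D (comp s) x) (measB (s ^ 2)) := by
  have hμ : 0 < s ^ 2 := by positivity
  have h1 : (fun x : S3 => normSqD (s ^ 2) D (comp s) x)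
      = fun x : S3 => (2 - s) ^ 2 + s ^ 2 + ((2 - s) ^ 2 - s ^ 2) * pc x ^ 2 := by
    funext x
    rw [normSqD_eq hμ hD (isField_comp _) x.2, density_comp x.2 hs]; ring
  rw [h1]
  refine integrable_of_continuous ?_ _ (by simp)
  have := continuous_pc
  fun_prop

theorem main (μ : ℝ) (h : ((3 + √57) / 8) ^ 2 < μ) :
    1 < μ ∧ ∀ D, IsLeviCivita μ D →
      (∃ V, IsUnitField μ V ∧ Integrable (fun x : S3 => normSqD μ D V x) (measB μ) ∧
        energy μ D V < (3 / 2 + μ + 2 * ((1 - μ) / μ)) * volB μ) ∧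
      ∀ a₁ a₂ : ℝ, a₁ ^ 2 + a₂ ^ 2 = 1 →
        IsUnitField μ (fun x => a₁ • J1 x + a₂ • J2 x) ∧
        energy μ D (fun x => a₁ • J1 x + a₂ • J2 x)
          = (3 / 2 + μ + 2 * ((1 - μ) / μ)) * volB μ := by
  have h57 : 7 < √57 := by
    rw [show (7 : ℝ) = √49 by rw [show (49 : ℝ) = 7 ^ 2 by norm_num]; simp]
    exact Real.sqrt_lt_sqrt (by norm_num) (by norm_num)
  have hμ1 : 1 < μ := by nlinarith
  have hμ0 : 0 < μ := by linarith
  obtain ⟨s, hs, rfl⟩ : ∃ s : ℝ, 0 < s ∧ μ = s ^ 2 :=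
    ⟨√μ, Real.sqrt_pos.mpr hμ0, (Real.sq_sqrt hμ0.le).symm⟩
  have hs2 : (3 + √57) / 8 < s := lt_of_pow_lt_pow_left₀ 2 hs.le h
  refine ⟨hμ1, fun D hD => ⟨⟨comp s, comp_unit hs.ne', integrable_comp hs hD, ?_⟩, ?_⟩⟩
  · rw [energy_comp hs hD]
    refine mul_lt_mul_of_pos_right ?_ (volB_pos hμ0)
    have e : (3 / 2 + s ^ 2 + 2 * ((1 - s ^ 2) / s ^ 2)) -
        (3 / 2 + (2 / 3) * (2 - s) ^ 2 + (1 / 3) * s ^ 2)
        = (2 / 3) * (s - 1) * (4 * s ^ 2 - 3 * s - 3) / s ^ 2 := by
      have := hs.ne'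
      field_simp
      ring
    have hq : 0 < 4 * s ^ 2 - 3 * s - 3 := by
      have := Real.sq_sqrt (show (0 : ℝ) ≤ 57 by norm_num)
      nlinarith
    have h1 : 0 < (2 / 3) * (s - 1) * (4 * s ^ 2 - 3 * s - 3) / s ^ 2 := by
      have : 0 < s - 1 := by linarith
      positivity
    linarith
  · intro a₁ a₂ ha
    exact ⟨fieldX_unit _ ha, energy_fieldX hs ha hD⟩

end Q196.Berger
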