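import Pool.Agent.H839R2.Geo.Stmt

/-!
# Smooth actions of Lie groups: orbit types, orbit dimensions, invariant metrics, curvature

Riemannian metrics on manifolds in the sense of Mathlib, their coefficients in charts
(`chartCoeff`), and the coordinate formulas `koszul`, `riem`, `ricci` for the Levi-Civita
connection and its curvature are taken from `Pool.Agent.H839R2.Geo.Stmt`.
-/

open scoped Manifold ContDiff Topology
open Module Pool.Agent.H839R2.Stmt

namespace Q196.GMan

section Action

variable {EG : Type*} [NormedAddCommGroup EG] [NormedSpace ℝ EG]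
  {HG : Type*} [TopologicalSpace HG] (IG : ModelWithCorners ℝ EG HG)
  (G : Type*) [TopologicalSpace G] [ChartedSpace HG G] [Group G]
  {E : Type*} [NormedAddCommGroup E] [NormedSpace ℝ E]
  {H : Type*} [TopologicalSpace H] (I : ModelWithCorners ℝ E H)
  (M : Type*) [TopologicalSpace M] [ChartedSpace H M] [MulAction G M]

/-- The action of `G` on `M` is smooth. -/
def SmoothAction : Prop :=
  ContMDiff (IG.prod I) I ∞ (fun p : G × M => p.1 • p.2)

variable {M}

/-- The isotropy group of `x` is principal: it is contained, up to conjugation, in the isotropy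
group of every point of `M` (so it represents the smallest isotropy type, which for an action of a
compact Lie group on a connected manifold is the principal one). -/
def IsPrincipal (x : M) : Prop :=
  ∀ y : M, ∃ a : G, ∀ h : G, h ∈ MulAction.stabilizer G x →
    a * h * a⁻¹ ∈ MulAction.stabilizer G y

/-- The dimension of the orbit of `x`: the rank at the identity of the orbit map `a ↦ a • x`. -/
noncomputable def orbitDim (x : M) : ℕ :=
  finrank ℝ (LinearMap.range (mfderiv IG I (fun a : G => a • x) (1 : G)).toLinearMap)

/-- The orbit of `x` is singular: its dimension is smaller than that of the principal orbits. -/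
def IsSingular (x : M) : Prop :=
  ∀ y : M, IsPrincipal G y → orbitDim IG G I x < orbitDim IG G I y

variable (M)

/-- The set of the non-principal orbits. -/
def nonPrincipalOrbits : Set (Set M) :=
  {o | ∃ x : M, ¬ IsPrincipal G x ∧ o = MulAction.orbit G x}

/-- The set of the singular orbits. -/
def singularOrbits : Set (Set M) :=
  {o | ∃ x : M, IsSingular IG G I x ∧ o = MulAction.orbit G x}

/-- The cohomogeneity of the action is `k`: principal orbits exist and all have codimension `k`
in `M`. -/
def HasCohomogeneity (k : ℕ) : Prop :=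
  (∃ x : M, IsPrincipal G x) ∧
    ∀ x : M, IsPrincipal G x → orbitDim IG G I x + k = finrank ℝ E

variable {I M}

/-- `G` acts by isometries of the Riemannian metric `g`. -/
def IsInvariant [IsManifold I ∞ M] (g : RMetric I M) : Prop :=
  ∀ (a : G) (x : M) (v w : TangentSpace I x),
    g.inner (a • x) (mfderiv I I (fun y : M => a • y) x v) (mfderiv I I (fun y : M => a • y) x w)
      = g.inner x v w

end Action

section Curvature

variable {E : Type*} [NormedAddCommGroup E] [NormedSpace ℝ E] [FiniteDimensional ℝ E]

/-- The metric with the coefficients `g z a b`, given for `z` near the point `y`, has positive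
Ricci curvature at `y`: `Γ` is its Levi-Civita connection near `y`, and `Ric(b, b) > 0` for all
`b ≠ 0`. -/
def RicciPosAt (g : E → E → E → ℝ) (y : E) : Prop :=
  ∃ Γ : E → E → E → E, (∀ a b, DifferentiableAt ℝ (fun z => Γ z a b) y) ∧
    (∀ᶠ z in 𝓝 y, ∀ a b c, g z (Γ z a b) c = koszul g z a b c) ∧
    ∀ b, b ≠ 0 → 0 < ricci Γ y b b

/-- The metric with the coefficients `g z a b`, given for `z` near the point `y`, has sectional
curvature `≥ κ` at `y`: `Γ` is its Levi-Civita connection near `y`, and
`g(R(a, b) b, a) ≥ κ (g(a, a) g(b, b) - g(a, b)²)` for all `a`, `b`. -/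
def SecGEAt (g : E → E → E → ℝ) (κ : ℝ) (y : E) : Prop :=
  ∃ Γ : E → E → E → E, (∀ a b, DifferentiableAt ℝ (fun z => Γ z a b) y) ∧
    (∀ᶠ z in 𝓝 y, ∀ a b c, g z (Γ z a b) c = koszul g z a b c) ∧
    ∀ a b, κ * (g y a a * g y b b - g y a b ^ 2) ≤ g y (riem Γ y a b b) a

variable {H : Type*} [TopologicalSpace H] {I : ModelWithCorners ℝ E H}
  {M : Type*} [TopologicalSpace M] [ChartedSpace H M] [IsManifold I ∞ M]

/-- The Riemannian metric `g` has positive Ricci curvature. -/
def HasPosRicci (g : RMetric I M) : Prop :=
  ∀ x : M, RicciPosAt (chartCoeff g x) (extChartAt I x x)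

/-- The Riemannian metric `g` has sectional curvature `≥ κ`. -/
def HasSecGE (g : RMetric I M) (κ : ℝ) : Prop :=
  ∀ x : M, SecGEAt (chartCoeff g x) κ (extChartAt I x x)

end Curvature

end Q196.GMan
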