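import Pool.Agent.Q196.LichDefs

/-! Algebra of the curvature term of the Lichnerowicz Laplacian. -/

open Module

namespace Q196.Lich

variable {E : Type*} [AddCommGroup E] [Module ℝ E] {k n : ℕ}

/-- replace the argument in the slot `j` by its image under `A` -/
noncomputable def slot (A : E →ₗ[ℝ] E) (j : Fin k) (T : MultilinearMap ℝ (fun _ : Fin k => E) ℝ) :
    MultilinearMap ℝ (fun _ : Fin k => E) ℝ :=
  T.compLinearMap (Function.update (fun _ => LinearMap.id) j A)

lemma slot_apply (A : E →ₗ[ℝ] E) (j : Fin k) (T : MultilinearMap ℝ (fun _ : Fin k => E) ℝ)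
    (v : Fin k → E) : slot A j T v = T (Function.update v j (A (v j))) := by
  unfold slot
  rw [MultilinearMap.compLinearMap_apply]
  congr 1
  funext i
  by_cases h : i = j
  · subst h; simp
  · simp [h]

/-- the derivation action of `A` -/
noncomputable def actM (A : E →ₗ[ℝ] E) (T : MultilinearMap ℝ (fun _ : Fin k => E) ℝ) :
    MultilinearMap ℝ (fun _ : Fin k => E) ℝ :=
  - ∑ j, slot A j T

lemma actM_apply (A : E →ₗ[ℝ] E) (T : MultilinearMap ℝ (fun _ : Fin k => E) ℝ)
    (v : Fin k → E) : actM A T v = - ∑ j, T (Function.update v j (A (v j))) := by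
  unfold actM
  rw [neg_apply, sum_apply]
  simp only [slot_apply]

/-- scalar product of multilinear maps -/
noncomputable def ip (e : Fin n → E) (S T : MultilinearMap ℝ (fun _ : Fin k => E) ℝ) : ℝ :=
  tensorInner e S T

lemma ip_def (e : Fin n → E) (S T : MultilinearMap ℝ (fun _ : Fin k => E) ℝ) :
    ip e S T = ∑ c : Fin k → Fin n, S (fun i => e (c i)) * T (fun i => e (c i)) := rfl

lemma ip_comm (e : Fin n → E) (S T : MultilinearMap ℝ (fun _ : Fin k => E) ℝ) :
    ip e S T = ip e T S := by
  simp only [ip_def]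
  exact Finset.sum_congr rfl fun c _ => mul_comm _ _

lemma ip_add_left (e : Fin n → E) (S S' T : MultilinearMap ℝ (fun _ : Fin k => E) ℝ) :
    ip e (S + S') T = ip e S T + ip e S' T := by
  simp only [ip_def, add_apply, add_mul, Finset.sum_add_distrib]

lemma ip_neg_left (e : Fin n → E) (S T : MultilinearMap ℝ (fun _ : Fin k => E) ℝ) :
    ip e (-S) T = - ip e S T := by
  simp only [ip_def, neg_apply, neg_mul, Finset.sum_neg_distrib]

lemma ip_smul_left (e : Fin n → E) (r : ℝ) (S T : MultilinearMap ℝ (fun _ : Fin k => E) ℝ) :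
    ip e (r • S) T = r * ip e S T := by
  simp only [ip_def, smul_apply, smul_eq_mul, mul_assoc, Finset.mul_sum]

lemma ip_add_right (e : Fin n → E) (S T T' : MultilinearMap ℝ (fun _ : Fin k => E) ℝ) :
    ip e S (T + T') = ip e S T + ip e S T' := by
  rw [ip_comm, ip_add_left, ip_comm e T, ip_comm e T']

lemma ip_neg_right (e : Fin n → E) (S T : MultilinearMap ℝ (fun _ : Fin k => E) ℝ) :
    ip e S (-T) = - ip e S T := by
  rw [ip_comm, ip_neg_left, ip_comm]

lemma ip_sum_left {ι : Type*} (s : Finset ι) (e : Fin n → E)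
    (S : ι → MultilinearMap ℝ (fun _ : Fin k => E) ℝ)
    (T : MultilinearMap ℝ (fun _ : Fin k => E) ℝ) :
    ip e (∑ i ∈ s, S i) T = ∑ i ∈ s, ip e (S i) T := by
  classical
  induction s using Finset.induction_on with
  | empty => simp [ip_def]
  | insert a s ha ih => rw [Finset.sum_insert ha, Finset.sum_insert ha, ip_add_left, ih]

lemma ip_self_nonneg (e : Fin n → E) (T : MultilinearMap ℝ (fun _ : Fin k => E) ℝ) :
    0 ≤ ip e T T := by
  rw [ip_def]
  exact Finset.sum_nonneg fun c _ => mul_self_nonneg _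

lemma ip_self_add_le (e : Fin n → E) (S T : MultilinearMap ℝ (fun _ : Fin k => E) ℝ) :
    ip e (S + T) (S + T) ≤ 2 * (ip e S S + ip e T T) := by
  have h := ip_self_nonneg e (S + -T)
  rw [ip_add_left, ip_add_right, ip_add_right, ip_neg_left, ip_neg_left, ip_neg_right,
    ip_neg_right, ip_comm e T S] at h
  rw [ip_add_left, ip_add_right, ip_add_right, ip_comm e T S]
  linarith

/-- `e` is an orthonormal basis for the bilinear form `g`. -/
structure ONB (g : E →ₗ[ℝ] E →ₗ[ℝ] ℝ) (e : Fin n → E) : Prop where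
  orth : ∀ i j, g (e i) (e j) = if i = j then 1 else 0
  expand : ∀ v, ∑ a, g v (e a) • e a = v

lemma update_comp (e : Fin n → E) (c : Fin k → Fin n) (j : Fin k) (a : Fin n) :
    Function.update (fun i => e (c i)) j (e a) = fun i => e (Function.update c j a i) := by
  funext i
  by_cases h : i = j
  · subst h; simp
  · simp [h]

lemma apply_expand {g : E →ₗ[ℝ] E →ₗ[ℝ] ℝ} {e : Fin n → E} (he : ONB g e)
    (S : MultilinearMap ℝ (fun _ : Fin k => E) ℝ) (v : Fin k → E) (j : Fin k) (x : E) :
    S (Function.update v j x) = ∑ a, g x (e a) * S (Function.update v j (e a)) := by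
  conv_lhs => rw [← he.expand x]
  rw [MultilinearMap.map_update_sum]
  refine Finset.sum_congr rfl fun a _ => ?_
  rw [MultilinearMap.map_update_smul, smul_eq_mul]

/-- the slot operators of adjoint endomorphisms are adjoint -/
lemma ip_slot {g : E →ₗ[ℝ] E →ₗ[ℝ] ℝ} {e : Fin n → E} (he : ONB g e)
    {A A' : E →ₗ[ℝ] E} (hA : ∀ x y, g (A x) y = g (A' y) x) (j : Fin k)
    (S T : MultilinearMap ℝ (fun _ : Fin k => E) ℝ) :
    ip e (slot A j S) T = ip e S (slot A' j T) := by
  have h1 : ip e (slot A j S) T = ∑ p : (Fin k → Fin n) × Fin n,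
      g (A (e (p.1 j))) (e p.2) * S (fun i => e (Function.update p.1 j p.2 i)) *
        T (fun i => e (p.1 i)) := by
    rw [ip_def, Fintype.sum_prod_type]
    refine Finset.sum_congr rfl fun c _ => ?_
    rw [slot_apply, apply_expand he, Finset.sum_mul]
    refine Finset.sum_congr rfl fun a _ => ?_
    rw [update_comp]
  have h2 : ip e S (slot A' j T) = ∑ p : (Fin k → Fin n) × Fin n,
      g (A' (e (p.1 j))) (e p.2) * S (fun i => e (p.1 i)) *
        T (fun i => e (Function.update p.1 j p.2 i)) := by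
    rw [ip_def, Fintype.sum_prod_type]
    refine Finset.sum_congr rfl fun c _ => ?_
    rw [slot_apply, apply_expand he, Finset.mul_sum]
    refine Finset.sum_congr rfl fun a _ => ?_
    rw [update_comp]; ring
  rw [h1, h2]
  let φ : (Fin k → Fin n) × Fin n → (Fin k → Fin n) × Fin n :=
    fun p => (Function.update p.1 j p.2, p.1 j)
  have hφ : Function.Involutive φ := by
    intro p
    simp [φ]
  refine Fintype.sum_bijective φ hφ.bijective _ _ fun p => ?_
  simp only [φ, Function.update_self, Function.update_idem, Function.update_eq_self]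
  rw [hA]

lemma ip_actM {g : E →ₗ[ℝ] E →ₗ[ℝ] ℝ} (hg : ∀ x y, g x y = g y x) {e : Fin n → E}
    (he : ONB g e) {A : E →ₗ[ℝ] E} (hA : ∀ x y, g (A x) y = - g x (A y))
    (S T : MultilinearMap ℝ (fun _ : Fin k => E) ℝ) :
    ip e (actM A S) T = - ip e S (actM A T) := by
  unfold actM
  rw [ip_neg_left, ip_neg_right, neg_neg, ip_sum_left, ip_comm e S, ip_sum_left,
    ← Finset.sum_neg_distrib]
  refine Finset.sum_congr rfl fun j _ => ?_
  have h : ∀ x y, g (A x) y = g ((-A) y) x := by
    intro x y
    rw [hA, LinearMap.neg_apply, map_neg, LinearMap.neg_apply, hg x]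
  rw [ip_slot he h, ip_comm e S]
  have h2 : slot (-A) j T = - slot A j T := by
    ext v
    rw [neg_apply, slot_apply, slot_apply, LinearMap.neg_apply]
    have := MultilinearMap.map_update_smul T v j (-1 : ℝ) (A (v j))
    simpa using this
  rw [h2, ip_neg_left, neg_neg]

/-- The curvature term for a curvature tensor given by skew endomorphisms. -/
theorem tensorInner_ricL {ι : Type*} [Fintype ι] {g : E →ₗ[ℝ] E →ₗ[ℝ] ℝ}
    (hg : ∀ x y, g x y = g y x) {e : Fin n → E} (he : ONB g e) (Ξ : ι → E →ₗ[ℝ] E)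
    (hΞ : ∀ α x y, g (Ξ α x) y = - g x (Ξ α y)) (c : ι → ℝ) {Rm : E → E → E → E}
    (hR : ∀ x y z, Rm x y z = - ∑ α, (c α * g (Ξ α x) y) • Ξ α z)
    (T : MultilinearMap ℝ (fun _ : Fin k => E) ℝ) :
    tensorInner e (ricL Rm e T) T = ∑ α, c α * ip e (actM (Ξ α) T) (actM (Ξ α) T) := by
  have h1 : ∀ (x y : E) (w : Fin k → E),
      curvAct Rm x y T w = - ∑ α, c α * g (Ξ α x) y * actM (Ξ α) T w := by
    intro x y w
    unfold curvAct
    simp only [hR, actM_apply, mul_neg, Finset.sum_neg_distrib, neg_neg]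
    rw [← Finset.sum_neg_distrib]
    simp only [Finset.mul_sum]
    rw [Finset.sum_comm]
    refine Finset.sum_congr rfl fun j _ => ?_
    have h2 : T (Function.update w j (-∑ α, (c α * g (Ξ α x) y) • Ξ α (w j))) =
        - T (Function.update w j (∑ α, (c α * g (Ξ α x) y) • Ξ α (w j))) := by
      have := MultilinearMap.map_update_smul T w j (-1 : ℝ)
        (∑ α, (c α * g (Ξ α x) y) • Ξ α (w j))
      simpa using this
    rw [h2, neg_neg, MultilinearMap.map_update_sum]
    refine Finset.sum_congr rfl fun α _ => ?_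
    rw [MultilinearMap.map_update_smul, smul_eq_mul]
  have h3 : ∀ v : Fin k → E, ricL Rm e T v = - ∑ α, c α * actM (Ξ α) (actM (Ξ α) T) v := by
    intro v
    unfold ricL
    have h4 : ∀ i : Fin k, ∑ a, curvAct Rm (e a) (v i) T (Function.update v i (e a)) =
        ∑ α, c α * actM (Ξ α) T (Function.update v i (Ξ α (v i))) := by
      intro i
      simp only [h1]
      rw [Finset.sum_neg_distrib, Finset.sum_comm, ← Finset.sum_neg_distrib]
      refine Finset.sum_congr rfl fun α _ => ?_
      rw [apply_expand he (actM (Ξ α) T) v i (Ξ α (v i)), Finset.mul_sum,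
        ← Finset.sum_neg_distrib]
      refine Finset.sum_congr rfl fun a _ => ?_
      rw [hΞ α (e a) (v i), hg (e a)]
      ring
    simp only [h4]
    rw [Finset.sum_comm, ← Finset.sum_neg_distrib]
    refine Finset.sum_congr rfl fun α _ => ?_
    rw [actM_apply (Ξ α) (actM (Ξ α) T) v, mul_neg, neg_neg, Finset.mul_sum]
  have h5 : tensorInner e (ricL Rm e T) T =
      - ∑ α, c α * ip e (actM (Ξ α) (actM (Ξ α) T)) T := by
    unfold tensorInner
    simp only [h3, ip_def, neg_mul, Finset.sum_neg_distrib, Finset.sum_mul]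
    rw [Finset.sum_comm]
    simp only [Finset.mul_sum, mul_assoc]
  rw [h5, ← Finset.sum_neg_distrib]
  refine Finset.sum_congr rfl fun α _ => ?_
  rw [ip_actM hg he (hΞ α)]
  ring

end Q196.Lich
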