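import Pool.Agent.Q196.LichAlg

/-! Bounds for the curvature term. -/

open Module

namespace Q196.Lich

variable {E : Type*} [AddCommGroup E] [Module ℝ E] {k n : ℕ}

lemma slot_slot (A B : E →ₗ[ℝ] E) (j : Fin k) (T : MultilinearMap ℝ (fun _ : Fin k => E) ℝ) :
    slot A j (slot B j T) = slot (B ∘ₗ A) j T := by
  ext v
  rw [slot_apply, slot_apply, slot_apply]
  simp

lemma slot_comm (A B : E →ₗ[ℝ] E) {i j : Fin k} (h : i ≠ j)
    (T : MultilinearMap ℝ (fun _ : Fin k => E) ℝ) :
    slot A i (slot B j T) = slot B j (slot A i T) := by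
  ext v
  rw [slot_apply, slot_apply, slot_apply, slot_apply, Function.update_of_ne h.symm,
    Function.update_of_ne h, Function.update_comm h]

lemma slot_add (A B : E →ₗ[ℝ] E) (j : Fin k) (T : MultilinearMap ℝ (fun _ : Fin k => E) ℝ) :
    slot (A + B) j T = slot A j T + slot B j T := by
  ext v
  rw [add_apply, slot_apply, slot_apply, slot_apply, LinearMap.add_apply,
    MultilinearMap.map_update_add]

lemma slot_smul (r : ℝ) (A : E →ₗ[ℝ] E) (j : Fin k)
    (T : MultilinearMap ℝ (fun _ : Fin k => E) ℝ) :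
    slot (r • A) j T = r • slot A j T := by
  ext v
  rw [smul_apply, slot_apply, slot_apply, LinearMap.smul_apply,
    MultilinearMap.map_update_smul]

lemma slot_neg (A : E →ₗ[ℝ] E) (j : Fin k) (T : MultilinearMap ℝ (fun _ : Fin k => E) ℝ) :
    slot (-A) j T = - slot A j T := by
  ext v
  rw [neg_apply, slot_apply, slot_apply, LinearMap.neg_apply]
  have := MultilinearMap.map_update_smul T v j (-1 : ℝ) (A (v j))
  simpa using this

lemma slot_sum {ι : Type*} (s : Finset ι) (A : ι → E →ₗ[ℝ] E) (j : Fin k)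
    (T : MultilinearMap ℝ (fun _ : Fin k => E) ℝ) :
    slot (∑ α ∈ s, A α) j T = ∑ α ∈ s, slot (A α) j T := by
  classical
  induction s using Finset.induction_on with
  | empty =>
    ext v
    rw [Finset.sum_empty, Finset.sum_empty, slot_apply, LinearMap.zero_apply]
    have := MultilinearMap.map_update_smul T v j (0 : ℝ) 0
    simpa using this
  | insert a s ha ih => rw [Finset.sum_insert ha, Finset.sum_insert ha, slot_add, ih]

lemma slot_id (j : Fin k) (T : MultilinearMap ℝ (fun _ : Fin k => E) ℝ) :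
    slot LinearMap.id j T = T := by
  ext v
  rw [slot_apply]
  simp

lemma actM_add (A B : E →ₗ[ℝ] E) (T : MultilinearMap ℝ (fun _ : Fin k => E) ℝ) :
    actM (A + B) T = actM A T + actM B T := by
  unfold actM
  simp only [slot_add, Finset.sum_add_distrib, neg_add]

section
variable {g : E →ₗ[ℝ] E →ₗ[ℝ] ℝ} {e : Fin n → E}

lemma ip_slot_skew (hg : ∀ x y, g x y = g y x) (he : ONB g e) {A : E →ₗ[ℝ] E}
    (hA : ∀ x y, g (A x) y = - g x (A y)) (j : Fin k)
    (S T : MultilinearMap ℝ (fun _ : Fin k => E) ℝ) :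
    ip e (slot A j S) T = - ip e S (slot A j T) := by
  have h : ∀ x y, g (A x) y = g ((-A) y) x := by
    intro x y
    rw [hA, LinearMap.neg_apply, map_neg, LinearMap.neg_apply, hg x]
  rw [ip_slot he h, slot_neg, ip_neg_right]

/-- Cauchy-Schwarz for sums -/
lemma ip_sum_self_le (e : Fin n → E) (S : Fin k → MultilinearMap ℝ (fun _ : Fin k => E) ℝ) :
    ip e (∑ j, S j) (∑ j, S j) ≤ k * ∑ j, ip e (S j) (S j) := by
  have h : ∀ c : Fin k → Fin n, (∑ j, S j) (fun i => e (c i)) * (∑ j, S j) (fun i => e (c i)) ≤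
      k * ∑ j, S j (fun i => e (c i)) * S j (fun i => e (c i)) := by
    intro c
    rw [sum_apply]
    have := sq_sum_le_card_mul_sum_sq (s := (Finset.univ : Finset (Fin k)))
      (f := fun j => S j (fun i => e (c i)))
    simp only [Finset.card_univ, Fintype.card_fin] at this
    simpa [sq] using this
  calc ip e (∑ j, S j) (∑ j, S j)
      = ∑ c : Fin k → Fin n, (∑ j, S j) (fun i => e (c i)) * (∑ j, S j) (fun i => e (c i)) := rfl
    _ ≤ ∑ c : Fin k → Fin n, k * ∑ j, S j (fun i => e (c i)) * S j (fun i => e (c i)) :=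
        Finset.sum_le_sum fun c _ => h c
    _ = k * ∑ j, ip e (S j) (S j) := by
        rw [← Finset.mul_sum, Finset.sum_comm]
        rfl

/-- the elementary rotations -/
noncomputable def rot (g : E →ₗ[ℝ] E →ₗ[ℝ] ℝ) (e : Fin n → E) (p : Fin n × Fin n) :
    E →ₗ[ℝ] E :=
  (g (e p.1)).smulRight (e p.2) - (g (e p.2)).smulRight (e p.1)

lemma rot_apply (p : Fin n × Fin n) (x : E) :
    rot g e p x = g (e p.1) x • e p.2 - g (e p.2) x • e p.1 := rfl

lemma rot_skew (hg : ∀ x y, g x y = g y x) (p : Fin n × Fin n) (x y : E) :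
    g (rot g e p x) y = - g x (rot g e p y) := by
  simp only [rot_apply, map_sub, map_smul, LinearMap.sub_apply, LinearMap.smul_apply, smul_eq_mul]
  rw [hg x (e p.1), hg x (e p.2)]
  ring

lemma expand' (hg : ∀ x y, g x y = g y x) (he : ONB g e) (v : E) :
    ∑ a, g (e a) v • e a = v := by
  have := he.expand v
  simpa [hg] using this

lemma parseval (hg : ∀ x y, g x y = g y x) (he : ONB g e) (x y : E) :
    ∑ a, g (e a) x * g (e a) y = g x y := by
  conv_rhs => rw [← expand' hg he x]
  rw [map_sum, LinearMap.sum_apply]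
  refine Finset.sum_congr rfl fun a _ => ?_
  rw [map_smul, LinearMap.smul_apply, smul_eq_mul]

/-- the curvature tensor of constant curvature one -/
lemma sum_rot (hg : ∀ x y, g x y = g y x) (he : ONB g e) (x y z : E) :
    ∑ p : Fin n × Fin n, g (rot g e p x) y • rot g e p z = (2 : ℝ) • (g x z • y - g y z • x) := by
  have h1 : ∀ p : Fin n × Fin n, g (rot g e p x) y • rot g e p z =
      (g (e p.1) x * g (e p.1) z) • (g (e p.2) y • e p.2)
      - (g (e p.2) y * g (e p.2) z) • (g (e p.1) x • e p.1)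
      - (g (e p.1) y * g (e p.1) z) • (g (e p.2) x • e p.2)
      + (g (e p.2) x * g (e p.2) z) • (g (e p.1) y • e p.1) := by
    intro p
    simp only [rot_apply, map_sub, map_smul, LinearMap.sub_apply, LinearMap.smul_apply,
      smul_eq_mul]
    module
  simp only [h1, Finset.sum_add_distrib, Finset.sum_sub_distrib, Fintype.sum_prod_type]
  have e1 : ∀ u v w : E, ∑ a, ∑ b, (g (e a) u * g (e a) v) • (g (e b) w • e b) = g u v • w := by
    intro u v w
    simp only [← Finset.smul_sum, expand' hg he]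
    rw [← Finset.sum_smul, parseval hg he]
  have e2 : ∀ u v w : E, ∑ a, ∑ b, (g (e b) u * g (e b) v) • (g (e a) w • e a) = g u v • w := by
    intro u v w
    rw [Finset.sum_comm]
    exact e1 u v w
  rw [e1, e1, e2, e2]
  module

lemma sum_rot_sq (he : ONB g e) (hg : ∀ x y, g x y = g y x) :
    ∑ p : Fin n × Fin n, (rot g e p ∘ₗ rot g e p) = (-(2 * ((n : ℝ) - 1))) • LinearMap.id := by
  ext x
  rw [LinearMap.sum_apply, LinearMap.smul_apply, LinearMap.id_apply]
  have h1 : ∀ p : Fin n × Fin n, (rot g e p ∘ₗ rot g e p) x =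
      (if p.1 = p.2 then (1 : ℝ) else 0) • (g (e p.1) x • e p.2)
      - g (e p.1) x • e p.1 - g (e p.2) x • e p.2
      + (if p.1 = p.2 then (1 : ℝ) else 0) • (g (e p.2) x • e p.1) := by
    intro p
    rw [LinearMap.comp_apply]
    simp only [rot_apply, map_sub, map_smul, he.orth, if_true, smul_eq_mul]
    by_cases h : p.1 = p.2
    · simp only [h, if_true]
      module
    · have h' : ¬ p.2 = p.1 := fun h2 => h h2.symm
      simp only [h, h', if_false]
      module
  simp only [h1, Finset.sum_add_distrib, Finset.sum_sub_distrib, Fintype.sum_prod_type]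
  have e1 : ∑ a : Fin n, ∑ b : Fin n, (if a = b then (1 : ℝ) else 0) • (g (e a) x • e b) = x := by
    simp [expand' hg he]
  have e2 : ∑ a : Fin n, ∑ b : Fin n, (if a = b then (1 : ℝ) else 0) • (g (e b) x • e a) = x := by
    simp [expand' hg he]
  have e3 : ∑ a : Fin n, ∑ _b : Fin n, g (e a) x • e a = (n : ℝ) • x := by
    simp only [Finset.sum_const, Finset.card_univ, Fintype.card_fin, ← Finset.smul_sum,
      expand' hg he]
    norm_cast
  have e4 : ∑ _a : Fin n, ∑ b : Fin n, g (e b) x • e b = (n : ℝ) • x := by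
    simp only [Finset.sum_const, Finset.card_univ, Fintype.card_fin, expand' hg he]
    norm_cast
  rw [e1, e2, e3, e4]
  module

lemma sum_ip_slot_rot (hg : ∀ x y, g x y = g y x) (he : ONB g e) (j : Fin k)
    (T : MultilinearMap ℝ (fun _ : Fin k => E) ℝ) :
    ∑ p : Fin n × Fin n, ip e (slot (rot g e p) j T) (slot (rot g e p) j T) =
      2 * ((n : ℝ) - 1) * ip e T T := by
  have h1 : ∀ p : Fin n × Fin n, ip e (slot (rot g e p) j T) (slot (rot g e p) j T) =
      - ip e (slot (rot g e p ∘ₗ rot g e p) j T) T := by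
    intro p
    rw [ip_slot_skew hg he (rot_skew hg p), slot_slot, ip_comm]
  simp only [h1]
  rw [Finset.sum_neg_distrib, ← ip_sum_left, ← slot_sum, sum_rot_sq he hg, slot_smul, slot_id,
    ip_smul_left]
  ring

/-- the upper bound for the Casimir operator -/
theorem sum_ip_actM_rot_le (hg : ∀ x y, g x y = g y x) (he : ONB g e)
    (T : MultilinearMap ℝ (fun _ : Fin k => E) ℝ) :
    ∑ p : Fin n × Fin n, ip e (actM (rot g e p) T) (actM (rot g e p) T) ≤
      2 * (k : ℝ) ^ 2 * ((n : ℝ) - 1) * ip e T T := by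
  have h1 : ∀ p : Fin n × Fin n, ip e (actM (rot g e p) T) (actM (rot g e p) T) ≤
      k * ∑ j, ip e (slot (rot g e p) j T) (slot (rot g e p) j T) := by
    intro p
    unfold actM
    rw [ip_neg_left, ip_neg_right, neg_neg]
    exact ip_sum_self_le e _
  calc _ ≤ ∑ p : Fin n × Fin n, k * ∑ j, ip e (slot (rot g e p) j T) (slot (rot g e p) j T) :=
        Finset.sum_le_sum fun p _ => h1 p
    _ = k * ∑ j : Fin k, ∑ p : Fin n × Fin n,
          ip e (slot (rot g e p) j T) (slot (rot g e p) j T) := by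
        rw [← Finset.mul_sum, Finset.sum_comm]
    _ = _ := by
        simp only [sum_ip_slot_rot hg he]
        rw [Finset.sum_const, Finset.card_univ, Fintype.card_fin, nsmul_eq_mul]
        ring

/-- for an orthogonal complex structure `J` the derivation action on `(0, 3)`-tensors does not
decrease the norm -/
theorem ip_le_actM_J (hg : ∀ x y, g x y = g y x) (he : ONB g e) {J : E →ₗ[ℝ] E}
    (hJ : ∀ x y, g (J x) y = - g x (J y)) (hJ2 : ∀ x, J (J x) = -x)
    (T : MultilinearMap ℝ (fun _ : Fin 3 => E) ℝ) :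
    ip e T T ≤ ip e (actM J T) (actM J T) := by
  have hJJ : J ∘ₗ J = - LinearMap.id := by
    ext x; simp [hJ2]
  -- slots are isometries
  have iso : ∀ (j : Fin 3) (X Y : MultilinearMap ℝ (fun _ : Fin 3 => E) ℝ),
      ip e (slot J j X) (slot J j Y) = ip e X Y := by
    intro j X Y
    rw [ip_slot_skew hg he hJ, slot_slot, hJJ, slot_neg, slot_id, ip_neg_right, neg_neg]
  have skw : ∀ (j : Fin 3) (X Y : MultilinearMap ℝ (fun _ : Fin 3 => E) ℝ),
      ip e X (slot J j Y) = - ip e (slot J j X) Y := by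
    intro j X Y
    rw [ip_slot_skew hg he hJ, neg_neg]
  set s0 := slot J (0 : Fin 3) T
  set s1 := slot J (1 : Fin 3) T
  set s2 := slot J (2 : Fin 3) T
  have c01 : slot J (1 : Fin 3) s0 = slot J (0 : Fin 3) s1 := slot_comm J J (by decide) T
  have c02 : slot J (2 : Fin 3) s0 = slot J (0 : Fin 3) s2 := slot_comm J J (by decide) T
  have c12 : slot J (2 : Fin 3) s1 = slot J (1 : Fin 3) s2 := slot_comm J J (by decide) T
  have hS := ip_self_nonneg e (T + -slot J (0 : Fin 3) s1 + -slot J (1 : Fin 3) s2 +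
    -slot J (0 : Fin 3) s2)
  have a1 : ip e T (slot J (0 : Fin 3) s1) = - ip e s0 s1 := skw 0 T s1
  have a2 : ip e T (slot J (1 : Fin 3) s2) = - ip e s1 s2 := skw 1 T s2
  have a3 : ip e T (slot J (0 : Fin 3) s2) = - ip e s0 s2 := skw 0 T s2
  have b1 : ip e (slot J (0 : Fin 3) s1) (slot J (0 : Fin 3) s1) = ip e T T := by
    rw [iso]; exact iso 1 T T
  have b2 : ip e (slot J (1 : Fin 3) s2) (slot J (1 : Fin 3) s2) = ip e T T := by
    rw [iso]; exact iso 2 T T
  have b3 : ip e (slot J (0 : Fin 3) s2) (slot J (0 : Fin 3) s2) = ip e T T := by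
    rw [iso]; exact iso 2 T T
  have d1 : ip e (slot J (0 : Fin 3) s1) (slot J (1 : Fin 3) s2) = ip e s0 s2 := by
    rw [← c01, iso]
  have d2 : ip e (slot J (0 : Fin 3) s1) (slot J (0 : Fin 3) s2) = ip e s1 s2 := by
    rw [iso]
  have d3 : ip e (slot J (1 : Fin 3) s2) (slot J (0 : Fin 3) s2) = ip e s0 s1 := by
    rw [← c12, ← c02, iso, ip_comm]
  have hexp : ip e (T + -slot J (0 : Fin 3) s1 + -slot J (1 : Fin 3) s2 +
      -slot J (0 : Fin 3) s2) (T + -slot J (0 : Fin 3) s1 + -slot J (1 : Fin 3) s2 +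
      -slot J (0 : Fin 3) s2) = 4 * (ip e T T + ip e s0 s1 + ip e s1 s2 + ip e s0 s2) := by
    simp only [ip_add_left, ip_add_right, ip_neg_left, ip_neg_right]
    rw [ip_comm e (slot J (0 : Fin 3) s1) T, ip_comm e (slot J (1 : Fin 3) s2) T,
      ip_comm e (slot J (0 : Fin 3) s2) T,
      ip_comm e (slot J (1 : Fin 3) s2) (slot J (0 : Fin 3) s1),
      ip_comm e (slot J (0 : Fin 3) s2) (slot J (0 : Fin 3) s1),
      ip_comm e (slot J (0 : Fin 3) s2) (slot J (1 : Fin 3) s2),
      a1, a2, a3, b1, b2, b3, d1, d2, d3]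
    ring
  rw [hexp] at hS
  have hact : ip e (actM J T) (actM J T) =
      3 * ip e T T + 2 * (ip e s0 s1 + ip e s1 s2 + ip e s0 s2) := by
    unfold actM
    rw [ip_neg_left, ip_neg_right, neg_neg, Fin.sum_univ_three]
    simp only [ip_add_left, ip_add_right]
    have n0 : ip e s0 s0 = ip e T T := iso 0 T T
    have n1 : ip e s1 s1 = ip e T T := iso 1 T T
    have n2 : ip e s2 s2 = ip e T T := iso 2 T T
    change ip e s0 s0 + ip e s1 s0 + ip e s2 s0 + (ip e s0 s1 + ip e s1 s1 + ip e s2 s1) +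
      (ip e s0 s2 + ip e s1 s2 + ip e s2 s2) = _
    rw [ip_comm e s1 s0, ip_comm e s2 s0, ip_comm e s2 s1, n0, n1, n2]
    ring
  rw [hact]
  linarith

end

end Q196.Lich
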