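import Pool.Agent.Q196.LichAlg2

/-! The model curvature tensors. -/

open Module

namespace Q196.Lich

variable {E : Type*} [AddCommGroup E] [Module ℝ E] {k n : ℕ}

/-- an orthonormal family of the right length is an orthonormal basis -/
lemma onb_of_orth [FiniteDimensional ℝ E] {g : E →ₗ[ℝ] E →ₗ[ℝ] ℝ} {e : Fin (finrank ℝ E) → E}
    (h : ∀ i j, g (e i) (e j) = if i = j then 1 else 0) : ONB g e := by
  have hli : LinearIndependent ℝ e := by
    rw [Fintype.linearIndependent_iff]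
    intro c hc i
    have h1 : g (∑ j, c j • e j) (e i) = 0 := by rw [hc]; simp
    rw [map_sum, LinearMap.sum_apply] at h1
    simp only [map_smul, LinearMap.smul_apply, h, smul_eq_mul, mul_ite, mul_one, mul_zero,
      Finset.sum_ite_eq', Finset.mem_univ, if_true] at h1
    exact h1
  have hsp : ⊤ ≤ Submodule.span ℝ (Set.range e) := by
    rw [hli.span_eq_top_of_card_eq_finrank' (by simp)]
  refine ⟨h, fun v => ?_⟩
  have hv : v ∈ Submodule.span ℝ (Set.range e) := hsp trivial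
  obtain ⟨c, rfl⟩ := (Submodule.mem_span_range_iff_exists_fun ℝ).mp hv
  refine Finset.sum_congr rfl fun a _ => ?_
  congr 1
  rw [map_sum, LinearMap.sum_apply]
  simp only [map_smul, LinearMap.smul_apply, h, smul_eq_mul, mul_ite, mul_one, mul_zero,
    Finset.sum_ite_eq', Finset.mem_univ, if_true]

section Model

variable {g : E →ₗ[ℝ] E →ₗ[ℝ] ℝ} {e : Fin n → E}

/-- The quadratic form of the model curvature tensor. -/
theorem model_form (hg : ∀ x y, g x y = g y x) (he : ONB g e) {J₁ J₂ : E →ₗ[ℝ] E}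
    (h₁ : ∀ x y, g (J₁ x) y = - g x (J₁ y)) (h₂ : ∀ x y, g (J₂ x) y = - g x (J₂ y))
    {κ p q : ℝ} {Rm : E → E → E → E}
    (hR : ∀ x y z, Rm x y z = κ • (g y z • x - g x z • y) - (p * g (J₁ x) y) • J₁ z
      - (q * g (J₂ x) y) • J₂ z) (T : MultilinearMap ℝ (fun _ : Fin k => E) ℝ) :
    tensorInner e (ricL Rm e T) T =
      κ / 2 * ∑ a : Fin n × Fin n, ip e (actM (rot g e a) T) (actM (rot g e a) T) +
      p * ip e (actM J₁ T) (actM J₁ T) + q * ip e (actM J₂ T) (actM J₂ T) := by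
  let Ξ : (Fin n × Fin n) ⊕ (Fin 2) → E →ₗ[ℝ] E := Sum.elim (rot g e) ![J₁, J₂]
  let c : (Fin n × Fin n) ⊕ (Fin 2) → ℝ := Sum.elim (fun _ => κ / 2) ![p, q]
  have hΞ : ∀ α x y, g (Ξ α x) y = - g x (Ξ α y) := by
    intro α
    rcases α with a | b
    · exact rot_skew hg a
    · fin_cases b
      · exact h₁
      · exact h₂
  have hR' : ∀ x y z, Rm x y z = - ∑ α, (c α * g (Ξ α x) y) • Ξ α z := by
    intro x y z
    rw [Fintype.sum_sum_type, Fin.sum_univ_two, hR]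
    have e1 : ∑ a : Fin n × Fin n, (c (Sum.inl a) * g (Ξ (Sum.inl a) x) y) • Ξ (Sum.inl a) z =
        (κ / 2) • ∑ a : Fin n × Fin n, g (rot g e a x) y • rot g e a z := by
      rw [Finset.smul_sum]
      refine Finset.sum_congr rfl fun a _ => ?_
      rw [smul_smul]
      rfl
    rw [e1, sum_rot hg he]
    change _ = -(_ + ((p * g (J₁ x) y) • J₁ z + (q * g (J₂ x) y) • J₂ z))
    module
  rw [tensorInner_ricL hg he Ξ hΞ c hR', Fintype.sum_sum_type, Fin.sum_univ_two, Finset.mul_sum,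
    add_assoc]
  rfl

/-- Nonnegativity on `(0, 3)`-tensors in dimension four. -/
theorem model_nonneg {e : Fin n → E} (hn : n = 4) (hg : ∀ x y, g x y = g y x) (he : ONB g e)
    {J₁ J₂ : E →ₗ[ℝ] E}
    (h₁ : ∀ x y, g (J₁ x) y = - g x (J₁ y)) (h₂ : ∀ x y, g (J₂ x) y = - g x (J₂ y))
    (hJ : ∀ x, (J₁ + J₂) ((J₁ + J₂) x) = -x)
    {κ p q m δ : ℝ} {Rm : E → E → E → E}
    (hR : ∀ x y z, Rm x y z = κ • (g y z • x - g x z • y) - (p * g (J₁ x) y) • J₁ z
      - (q * g (J₂ x) y) • J₂ z) (hp : m ≤ p) (hq : m ≤ q) (hκ : -δ ≤ κ) (hδ : 0 ≤ δ)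
    (hm : 54 * δ ≤ m) (T : MultilinearMap ℝ (fun _ : Fin 3 => E) ℝ) :
    0 ≤ tensorInner e (ricL Rm e T) T := by
  rw [model_form hg he h₁ h₂ hR]
  have hup := sum_ip_actM_rot_le hg he T
  have hlow : 0 ≤ ∑ a : Fin n × Fin n, ip e (actM (rot g e a) T) (actM (rot g e a) T) :=
    Finset.sum_nonneg fun a _ => ip_self_nonneg e _
  have hJs : ∀ x y, g ((J₁ + J₂) x) y = - g x ((J₁ + J₂) y) := by
    intro x y
    rw [LinearMap.add_apply, LinearMap.add_apply, map_add, LinearMap.add_apply, map_add, h₁, h₂]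
    ring
  have hJT := ip_le_actM_J hg he hJs hJ T
  rw [actM_add] at hJT
  have h2 := ip_self_add_le e (actM J₁ T) (actM J₂ T)
  have hT := ip_self_nonneg e T
  have hX := ip_self_nonneg e (actM J₁ T)
  have hY := ip_self_nonneg e (actM J₂ T)
  have hn' : ((n : ℝ) - 1) = 3 := by rw [hn]; norm_num
  rw [hn'] at hup
  push_cast at hup
  set Z := ∑ a : Fin n × Fin n, ip e (actM (rot g e a) T) (actM (rot g e a) T)
  set X := ip e (actM J₁ T) (actM J₁ T)
  set Y := ip e (actM J₂ T) (actM J₂ T)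
  set N := ip e T T
  have hm0 : 0 ≤ m := by linarith
  have e1 : - (27 * δ) * N ≤ κ / 2 * Z := by
    have : -δ * Z ≤ κ * Z := mul_le_mul_of_nonneg_right hκ hlow
    have h3 : δ * Z ≤ δ * (2 * 3 ^ 2 * 3 * N) := mul_le_mul_of_nonneg_left hup hδ
    nlinarith
  have e2 : m * X ≤ p * X := mul_le_mul_of_nonneg_right hp hX
  have e3 : m * Y ≤ q * Y := mul_le_mul_of_nonneg_right hq hY
  have e4 : m * N ≤ m * (2 * (X + Y)) := mul_le_mul_of_nonneg_left (hJT.trans h2) hm0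
  have e5 : 54 * δ * N ≤ m * N := mul_le_mul_of_nonneg_right hm hT
  nlinarith

lemma ip_self_pos {e : Fin n → E} {S : MultilinearMap ℝ (fun _ : Fin k => E) ℝ}
    (c : Fin k → Fin n) (h : S (fun i => e (c i)) ≠ 0) : 0 < ip e S S := by
  rw [ip_def]
  exact Finset.sum_pos' (fun c _ => mul_self_nonneg _) ⟨c, Finset.mem_univ _, mul_self_pos.mpr h⟩

/-- a bilinear form as a `(0, 2)`-tensor -/
noncomputable def bil (h : E →ₗ[ℝ] E →ₗ[ℝ] ℝ) : MultilinearMap ℝ (fun _ : Fin 2 => E) ℝ where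
  toFun v := h (v 0) (v 1)
  map_update_add' := by
    intro _ v i x y
    fin_cases i
    · simp
    · simp
  map_update_smul' := by
    intro _ v i c x
    fin_cases i
    · simp
    · simp

lemma bil_apply (h : E →ₗ[ℝ] E →ₗ[ℝ] ℝ) (v : Fin 2 → E) : bil h v = h (v 0) (v 1) := rfl

lemma bil_symm {h : E →ₗ[ℝ] E →ₗ[ℝ] ℝ} (hs : ∀ x y, h x y = h y x) : IsSymmTensor (bil h) := by
  intro σ v
  rw [bil_apply, bil_apply]
  have h01 : σ = 1 ∨ σ = Equiv.swap 0 1 := by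
    revert σ; decide
  rcases h01 with rfl | rfl
  · rfl
  · simp [hs (v 1) (v 0)]

lemma actM_bil (A : E →ₗ[ℝ] E) (h : E →ₗ[ℝ] E →ₗ[ℝ] ℝ) (v : Fin 2 → E) :
    actM A (bil h) v = - (h (A (v 0)) (v 1) + h (v 0) (A (v 1))) := by
  rw [actM_apply, Fin.sum_univ_two, bil_apply, bil_apply]
  simp

/-- A negative value on symmetric `(0, 2)`-tensors. -/
theorem model_neg (hg : ∀ x y, g x y = g y x) (he : ONB g e)
    {J₁ J₂ : E →ₗ[ℝ] E}
    (h₁ : ∀ x y, g (J₁ x) y = - g x (J₁ y)) (h₂ : ∀ x y, g (J₂ x) y = - g x (J₂ y))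
    {κ p q : ℝ} {Rm : E → E → E → E}
    (hR : ∀ x y z, Rm x y z = κ • (g y z • x - g x z • y) - (p * g (J₁ x) y) • J₁ z
      - (q * g (J₂ x) y) • J₂ z) (hκ : κ < 0) {h : E →ₗ[ℝ] E →ₗ[ℝ] ℝ}
    (hJ1 : ∀ x y, h (J₁ x) y + h x (J₁ y) = 0) (hJ2 : ∀ x y, h (J₂ x) y + h x (J₂ y) = 0)
    {a b : Fin n} (hab : a ≠ b) (hne : h (e a) (e a) ≠ h (e b) (e b)) :
    tensorInner e (ricL Rm e (bil h)) (bil h) < 0 := by
  rw [model_form hg he h₁ h₂ hR]
  have z1 : actM J₁ (bil h) = 0 := by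
    ext v
    rw [actM_bil, hJ1]; simp
  have z2 : actM J₂ (bil h) = 0 := by
    ext v
    rw [actM_bil, hJ2]; simp
  have z0 : ip e (0 : MultilinearMap ℝ (fun _ : Fin 2 => E) ℝ) 0 = 0 := by simp [ip_def]
  rw [z1, z2, z0]
  have hpos : 0 < ∑ c : Fin n × Fin n, ip e (actM (rot g e c) (bil h)) (actM (rot g e c) (bil h)) := by
    refine Finset.sum_pos' (fun c _ => ip_self_nonneg e _) ⟨(a, b), Finset.mem_univ _, ?_⟩
    apply ip_self_pos ![a, b]
    rw [actM_bil]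
    change - (h (rot g e (a, b) (e a)) (e b) + h (e a) (rot g e (a, b) (e b))) ≠ 0
    have hba : ¬ b = a := fun h => hab h.symm
    simp only [rot_apply, he.orth, if_true, hab, hba, if_false, one_smul, zero_smul, sub_zero,
      zero_sub, map_neg]
    intro h0
    apply hne
    linarith
  nlinarith

end Model

end Q196.Lich
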