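import Pool.Agent.H839R2.Geo.Stmt

/-!
# The curvature term of the Lichnerowicz Laplacian on symmetric tensors

Riemannian metrics on manifolds in the sense of Mathlib, their coefficients in charts
(`chartCoeff`), and the coordinate formulas `koszul`, `riem` for the Levi-Civita connection and its
curvature `R(a, b) c = ∇_a ∇_b c - ∇_b ∇_a c` are taken from `Pool.Agent.H839R2.Geo.Stmt`.
-/

open scoped Manifold ContDiff Topology
open Module Pool.Agent.H839R2.Stmt

namespace Q196.Lich

section Algebra

variable {E : Type*} [AddCommGroup E] [Module ℝ E] {k n : ℕ}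

/-- The `(0, k)`-tensor `T` is symmetric. -/
def IsSymmTensor (T : MultilinearMap ℝ (fun _ : Fin k => E) ℝ) : Prop :=
  ∀ (σ : Equiv.Perm (Fin k)) (v : Fin k → E), T (fun i => v (σ i)) = T v

/-- The curvature endomorphism `R(X, Y)` acting as a derivation on the `(0, k)`-tensor `T`:
`(R(X, Y) T)(v_1, …, v_k) = - ∑_j T(v_1, …, R(X, Y) v_j, …, v_k)`. -/
def curvAct (Rm : E → E → E → E) (X Y : E) (T : (Fin k → E) → ℝ) (v : Fin k → E) : ℝ :=
  - ∑ j, T (Function.update v j (Rm X Y (v j)))

/-- The curvature term of the Lichnerowicz Laplacian, in the orthonormal basis `e`: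
`Ric_L(T)(v_1, …, v_k) = ∑_i ∑_a (R(e_a, v_i) T)(v_1, …, v_{i-1}, e_a, v_{i+1}, …, v_k)`. -/
def ricL (Rm : E → E → E → E) (e : Fin n → E) (T : (Fin k → E) → ℝ) (v : Fin k → E) : ℝ :=
  ∑ i, ∑ a, curvAct Rm (e a) (v i) T (Function.update v i (e a))

/-- The scalar product of two `(0, k)`-tensors, in the orthonormal basis `e`. -/
def tensorInner (e : Fin n → E) (S T : (Fin k → E) → ℝ) : ℝ :=
  ∑ c : Fin k → Fin n, S (fun i => e (c i)) * T (fun i => e (c i))

end Algebra

section Coord

variable {E : Type*} [NormedAddCommGroup E] [NormedSpace ℝ E] [FiniteDimensional ℝ E]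

/-- Condition `(L_k)` at the point `y` for the metric with the coefficients `g z a b`, given for
`z` near `y`: `Γ` is its Levi-Civita connection near `y`, and `⟨Ric_L(T), T⟩ ≥ 0` for every
orthonormal basis `e` for `g y` and every symmetric `(0, k)`-tensor `T` on the tangent space. -/
def LCondAt (k : ℕ) (g : E → E → E → ℝ) (y : E) : Prop :=
  ∃ Γ : E → E → E → E, (∀ a b, DifferentiableAt ℝ (fun z => Γ z a b) y) ∧
    (∀ᶠ z in 𝓝 y, ∀ a b c, g z (Γ z a b) c = koszul g z a b c) ∧
    ∀ e : Fin (finrank ℝ E) → E, (∀ i j, g y (e i) (e j) = if i = j then 1 else 0) →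
      ∀ T : MultilinearMap ℝ (fun _ : Fin k => E) ℝ, IsSymmTensor T →
        0 ≤ tensorInner e (ricL (riem Γ y) e T) T

variable {H : Type*} [TopologicalSpace H] {I : ModelWithCorners ℝ E H}
  {M : Type*} [TopologicalSpace M] [ChartedSpace H M] [IsManifold I ∞ M]

/-- Condition `(L_k)`: `g(Ric_L(T), T) ≥ 0` for every point and every symmetric `(0, k)`-tensor
`T` at this point. -/
def LCond (k : ℕ) (g : RMetric I M) : Prop :=
  ∀ x : M, LCondAt k (chartCoeff g x) (extChartAt I x x)

end Coord

end Q196.Lich
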