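import Pool.Agent.Q196.RoundSphere

/-! Curvature of a warped product of two round spheres in stereographic coordinates. -/

open scoped Manifold ContDiff Topology RealInnerProductSpace
open Module Metric Pool.Agent.H839R2.Stmt

namespace Q196.Lich

open Q196.Round

variable {A B : Type*} [NormedAddCommGroup A] [InnerProductSpace ℝ A]
  [NormedAddCommGroup B] [InnerProductSpace ℝ B]

/-- the conformal factor -/
noncomputable def lam (w : A) : ℝ := 16 / (‖w‖ ^ 2 + 4) ^ 2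

lemma lam_pos (w : A) : 0 < lam w := by unfold lam; positivity

lemma lam_zero : lam (0 : A) = 1 := by unfold lam; norm_num

lemma hasFDerivAt_lam1 (y : A) :
    HasFDerivAt (lam : A → ℝ) ((-64 / (‖y‖ ^ 2 + 4) ^ 3) • innerSL ℝ y) y := by
  have h := hasFDerivAt_lam (1 : ℝ) y
  have h2 : (fun z : A => 1 * (16 / (‖z‖ ^ 2 + 4) ^ 2)) = lam := by
    funext z; unfold lam; ring
  rw [h2] at h
  simpa using h

/-- the metric coefficients -/
noncomputable def gw (Ψ : A → ℝ) (z u v : A × B) : ℝ :=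
  lam z.1 * ⟪u.1, v.1⟫ + Ψ z.1 ^ 2 * lam z.2 * ⟪u.2, v.2⟫

/-- the Christoffel symbols; `D` is the gradient of `Ψ` -/
noncomputable def Gw (Ψ : A → ℝ) (D : A → A) (z a b : A × B) : A × B :=
  (Gam z.1 a.1 b.1 - (Ψ z.1 * lam z.2 / lam z.1 * ⟪a.2, b.2⟫) • D z.1,
    Gam z.2 a.2 b.2 + (⟪D z.1, a.1⟫ / Ψ z.1) • b.2 + (⟪D z.1, b.1⟫ / Ψ z.1) • a.2)

lemma fderiv_gw {Ψ : A → ℝ} {D : A → A} (y : A × B)
    (hD : HasFDerivAt Ψ (innerSL ℝ (D y.1)) y.1) (u v w : A × B) :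
    fderiv ℝ (fun z => gw Ψ z u v) y w =
      (-64 / (‖y.1‖ ^ 2 + 4) ^ 3) * ⟪y.1, w.1⟫ * ⟪u.1, v.1⟫ +
      (2 * Ψ y.1 * ⟪D y.1, w.1⟫ * lam y.2 +
        Ψ y.1 ^ 2 * ((-64 / (‖y.2‖ ^ 2 + 4) ^ 3) * ⟪y.2, w.2⟫)) * ⟪u.2, v.2⟫ := by
  have hf : HasFDerivAt (fun z : A × B => z.1) (ContinuousLinearMap.fst ℝ A B) y :=
    hasFDerivAt_fst
  have hs : HasFDerivAt (fun z : A × B => z.2) (ContinuousLinearMap.snd ℝ A B) y :=
    hasFDerivAt_snd
  have h1 : HasFDerivAt (fun z : A × B => lam z.1) _ y := (hasFDerivAt_lam1 y.1).comp y hf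
  have h2 : HasFDerivAt (fun z : A × B => lam z.2) _ y := (hasFDerivAt_lam1 y.2).comp y hs
  have h3 : HasFDerivAt (fun z : A × B => Ψ z.1) _ y := hD.comp y hf
  have h32 : HasFDerivAt (fun z : A × B => Ψ z.1 ^ 2)
      ((Ψ y.1) • ((innerSL ℝ (D y.1)).comp (ContinuousLinearMap.fst ℝ A B)) +
        (Ψ y.1) • ((innerSL ℝ (D y.1)).comp (ContinuousLinearMap.fst ℝ A B))) y := by
    have := h3.fun_mul h3
    refine this.congr_of_eventuallyEq (Filter.Eventually.of_forall fun z => ?_)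
    simp only [sq]
  have h4 := (h1.mul_const (⟪u.1, v.1⟫ : ℝ)).add ((h32.fun_mul h2).mul_const
    (⟪u.2, v.2⟫ : ℝ))
  have h5 : fderiv ℝ (fun z => gw Ψ z u v) y = _ := h4.fderiv
  rw [h5]
  simp only [add_apply, smul_apply, ContinuousLinearMap.comp_apply, innerSL_apply_apply,
    ContinuousLinearMap.coe_fst', ContinuousLinearMap.coe_snd', smul_eq_mul, nsmul_eq_mul]
  push_cast
  ring

lemma koszul_gw {Ψ : A → ℝ} {D : A → A} (y : A × B)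
    (hD : HasFDerivAt Ψ (innerSL ℝ (D y.1)) y.1) (hΨ : Ψ y.1 ≠ 0) (a b c : A × B) :
    gw Ψ y (Gw Ψ D y a b) c = koszul (gw Ψ) y a b c := by
  unfold koszul
  have e : ∀ u v w : A × B, fderiv ℝ (fun z => gw Ψ z u v) y w = _ := fderiv_gw y hD
  rw [e, e, e]
  have p1 : (0 : ℝ) < ‖y.1‖ ^ 2 + 4 := by positivity
  have p2 : (0 : ℝ) < ‖y.2‖ ^ 2 + 4 := by positivity
  unfold gw Gw Gam lam
  simp only [inner_add_left, inner_sub_left, inner_smul_left, RCLike.conj_to_real]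
  field_simp
  ring

/-- derivative of the Christoffel symbols at the centre -/
lemma fderiv_Gw {Ψ : A → ℝ} {D : A → A} {μ : ℝ}
    (hD : HasFDerivAt Ψ (innerSL ℝ (D 0)) 0) (hΨ : Ψ 0 ≠ 0)
    (hD2 : HasFDerivAt D (μ • ContinuousLinearMap.id ℝ A) 0) (a b v : A × B) :
    DifferentiableAt ℝ (fun z => Gw Ψ D z a b) 0 ∧
    fderiv ℝ (fun z => Gw Ψ D z a b) 0 v =
      ((-(1 / 2 : ℝ)) • (⟪v.1, a.1⟫ • b.1 + ⟪v.1, b.1⟫ • a.1 - ⟪a.1, b.1⟫ • v.1)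
        - ((⟪D 0, v.1⟫ * ⟪a.2, b.2⟫) • D 0 + (Ψ 0 * ⟪a.2, b.2⟫ * μ) • v.1),
      (-(1 / 2 : ℝ)) • (⟪v.2, a.2⟫ • b.2 + ⟪v.2, b.2⟫ • a.2 - ⟪a.2, b.2⟫ • v.2)
        + ((μ * ⟪v.1, a.1⟫ * Ψ 0 - ⟪D 0, a.1⟫ * ⟪D 0, v.1⟫) / Ψ 0 ^ 2) • b.2
        + ((μ * ⟪v.1, b.1⟫ * Ψ 0 - ⟪D 0, b.1⟫ * ⟪D 0, v.1⟫) / Ψ 0 ^ 2) • a.2) := by
  have hf : HasFDerivAt (fun z : A × B => z.1) (ContinuousLinearMap.fst ℝ A B) 0 :=
    hasFDerivAt_fst
  have hs : HasFDerivAt (fun z : A × B => z.2) (ContinuousLinearMap.snd ℝ A B) 0 :=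
    hasFDerivAt_snd
  have h1 : HasFDerivAt (fun z : A × B => Gam z.1 a.1 b.1) _ 0 :=
    HasFDerivAt.comp (g := fun w : A => Gam w a.1 b.1) (0 : A × B)
      (hasFDerivAt_Gam a.1 b.1 0).1.hasFDerivAt hf
  have h2 : HasFDerivAt (fun z : A × B => Gam z.2 a.2 b.2) _ 0 :=
    HasFDerivAt.comp (g := fun w : B => Gam w a.2 b.2) (0 : A × B)
      (hasFDerivAt_Gam a.2 b.2 0).1.hasFDerivAt hs
  have hl1 : HasFDerivAt (fun z : A × B => lam z.1) _ 0 :=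
    HasFDerivAt.comp (g := (lam : A → ℝ)) (0 : A × B) (hasFDerivAt_lam1 (0 : A)) hf
  have hl2 : HasFDerivAt (fun z : A × B => lam z.2) _ 0 :=
    HasFDerivAt.comp (g := (lam : B → ℝ)) (0 : A × B) (hasFDerivAt_lam1 (0 : B)) hs
  have hΨ1 : HasFDerivAt (fun z : A × B => Ψ z.1) ((innerSL ℝ (D 0)).comp
      (ContinuousLinearMap.fst ℝ A B)) 0 :=
    HasFDerivAt.comp (g := Ψ) (0 : A × B) hD hf
  have hDD : HasFDerivAt (fun z : A × B => D z.1)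
      ((μ • ContinuousLinearMap.id ℝ A).comp (ContinuousLinearMap.fst ℝ A B)) 0 :=
    HasFDerivAt.comp (g := D) (0 : A × B) hD2 hf
  have hne : lam (0 : A) ≠ 0 := (lam_pos 0).ne'
  have hq : HasFDerivAt (fun z : A × B => (lam z.1)⁻¹) _ 0 :=
    (hasDerivAt_inv hne).comp_hasFDerivAt (0 : A × B) hl1
  have hΨi : HasFDerivAt (fun z : A × B => (Ψ z.1)⁻¹) _ 0 :=
    (hasDerivAt_inv hΨ).comp_hasFDerivAt (0 : A × B) hΨ1
  have hc : HasFDerivAt (fun z : A × B => Ψ z.1 * lam z.2 * (lam z.1)⁻¹ * ⟪a.2, b.2⟫) _ 0 :=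
    ((hΨ1.fun_mul hl2).fun_mul hq).mul_const (⟪a.2, b.2⟫ : ℝ)
  have hin : ∀ u : A, HasFDerivAt (fun z : A × B => (⟪D z.1, u⟫ : ℝ))
      ((innerSL ℝ u).comp ((μ • ContinuousLinearMap.id ℝ A).comp
        (ContinuousLinearMap.fst ℝ A B))) 0 := by
    intro u
    have h := (innerSL ℝ u).hasFDerivAt.comp (0 : A × B) hDD
    refine h.congr_of_eventuallyEq (Filter.Eventually.of_forall fun z => ?_)
    simp only [Function.comp_apply, innerSL_apply_apply]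
    exact real_inner_comm _ _
  have hfst := h1.sub (hc.smul hDD)
  have hsnd := (h2.add (((hin a.1).fun_mul hΨi).smul_const b.2)).add
    (((hin b.1).fun_mul hΨi).smul_const a.2)
  have hall := hfst.prodMk hsnd
  have hfun : (fun z => Gw Ψ D z a b) = fun z : A × B =>
      (Gam z.1 a.1 b.1 - (Ψ z.1 * lam z.2 * (lam z.1)⁻¹ * ⟪a.2, b.2⟫) • D z.1,
        Gam z.2 a.2 b.2 + (⟪D z.1, a.1⟫ * (Ψ z.1)⁻¹) • b.2 + (⟪D z.1, b.1⟫ * (Ψ z.1)⁻¹) • a.2) := by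
    funext z; rfl
  rw [hfun]
  have hall' := hall.fderiv
  refine ⟨hall.differentiableAt, ?_⟩
  have h9 : fderiv ℝ (fun z : A × B =>
      (Gam z.1 a.1 b.1 - (Ψ z.1 * lam z.2 * (lam z.1)⁻¹ * ⟪a.2, b.2⟫) • D z.1,
        Gam z.2 a.2 b.2 + (⟪D z.1, a.1⟫ * (Ψ z.1)⁻¹) • b.2 + (⟪D z.1, b.1⟫ * (Ψ z.1)⁻¹) • a.2)) 0 = _ :=
    hall'
  rw [h9]
  have g1 := (hasFDerivAt_Gam a.1 b.1 v.1).2
  have g2 := (hasFDerivAt_Gam a.2 b.2 v.2).2
  refine Prod.ext ?_ ?_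
  · simp only [ContinuousLinearMap.prod_apply, sub_apply, add_apply, smul_apply,
      ContinuousLinearMap.comp_apply, ContinuousLinearMap.smulRight_apply, innerSL_apply_apply,
      ContinuousLinearMap.coe_fst', ContinuousLinearMap.coe_snd', ContinuousLinearMap.id_apply,
      Prod.fst_zero, Prod.snd_zero, g1, lam_zero, inner_zero_left, norm_zero, smul_eq_mul,
      map_zero]
    simp only [mul_zero, mul_one, zero_add, add_zero, one_mul, inv_one, div_one, smul_smul,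
      add_smul, zero_mul]
    module
  · simp only [ContinuousLinearMap.prod_apply, sub_apply, add_apply, smul_apply,
      ContinuousLinearMap.comp_apply, ContinuousLinearMap.smulRight_apply, innerSL_apply_apply,
      ContinuousLinearMap.coe_fst', ContinuousLinearMap.coe_snd', ContinuousLinearMap.id_apply,
      Prod.fst_zero, Prod.snd_zero, g2, smul_eq_mul, inner_smul_right]
    rw [real_inner_comm v.1 a.1, real_inner_comm v.1 b.1]
    congr 1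
    · congr 1
      congr 1
      field_simp
      ring
    · congr 1
      field_simp
      ring

/-- the curvature tensor at the centre -/
lemma riem_Gw {Ψ : A → ℝ} {D : A → A} {μ : ℝ}
    (hD : HasFDerivAt Ψ (innerSL ℝ (D 0)) 0) (hΨ : Ψ 0 ≠ 0)
    (hD2 : HasFDerivAt D (μ • ContinuousLinearMap.id ℝ A) 0) (a b c : A × B) :
    riem (Gw (B := B) Ψ D) 0 a b c =
      (⟪b.1, c.1⟫ • a.1 - ⟪a.1, c.1⟫ • b.1 -
          (μ * Ψ 0) • (⟪b.2, c.2⟫ • a.1 - ⟪a.2, c.2⟫ • b.1),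
        (-(μ / Ψ 0)) • (⟪b.1, c.1⟫ • a.2 - ⟪a.1, c.1⟫ • b.2) +
          (1 - ⟪D 0, D 0⟫) • (⟪b.2, c.2⟫ • a.2 - ⟪a.2, c.2⟫ • b.2)) := by
  unfold riem
  rw [(fderiv_Gw hD hΨ hD2 b c a).2, (fderiv_Gw hD hΨ hD2 a c b).2]
  have h0 : ∀ u v : A × B, Gw Ψ D 0 u v =
      (-((Ψ 0 * ⟪u.2, v.2⟫) • D 0), (⟪D 0, u.1⟫ / Ψ 0) • v.2 + (⟪D 0, v.1⟫ / Ψ 0) • u.2) := by
    intro u v
    unfold Gw
    have hG : ∀ x y : A, Gam (0 : A) x y = 0 := by intro x y; simp [Gam]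
    have hG' : ∀ x y : B, Gam (0 : B) x y = 0 := by intro x y; simp [Gam]
    simp only [Prod.fst_zero, Prod.snd_zero, hG, hG', lam_zero, mul_one, div_one, zero_sub,
      zero_add]
  rw [h0, h0, h0, h0]
  have s1 : ∀ x y : A × B, ⟪y.1, x.1⟫ = ⟪x.1, y.1⟫ := fun x y => real_inner_comm _ _
  refine Prod.ext ?_ ?_
  · simp only [Prod.fst_add, Prod.fst_sub, inner_add_right, inner_smul_right]
    rw [real_inner_comm b.1 a.1, real_inner_comm b.2 a.2]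
    match_scalars <;> field_simp <;> ring
  · simp only [Prod.snd_add, Prod.snd_sub, inner_neg_right, inner_smul_right]
    rw [real_inner_comm b.1 a.1, real_inner_comm b.2 a.2]
    match_scalars <;> field_simp <;> ring

end Q196.Lich
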