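import Pool.Agent.Q196.LichFlat
import Pool.Agent.Q196.LichAlg3

/-! The warped product of two round spheres. -/

open scoped Manifold ContDiff Topology RealInnerProductSpace
open Module Metric Pool.Agent.H839R2.Stmt
open Pool.Agent.H839R2.Geo (E2 E3 S2 sph embMetric embInner pull chart_sphere sph_conformal
  mfderiv_comp_chart embInner_apply pull_apply contDiff_sph fderiv_sph sph_zero)

namespace Q196.Lich

/-- the ambient space -/
abbrev V6 := E3 × E3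
/-- the model space -/
abbrev F4 := E2 × E2
/-- the manifold -/
abbrev N4 := S2 × S2
/-- the model with corners -/
noncomputable abbrev I4 := (𝓡 2).prod (𝓡 2)

/-- the embedding -/
noncomputable def emb4 (p : N4) : V6 := ((p.1 : E3), (p.2 : E3))

lemma contMDiff_emb4 : ContMDiff I4 𝓘(ℝ, V6) ∞ emb4 :=
  ((contMDiff_coe_sphere (m := ∞) (E := E3) (n := 2)).comp contMDiff_fst).prodMk_space
    ((contMDiff_coe_sphere (m := ∞) (E := E3) (n := 2)).comp contMDiff_snd)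

lemma emb4_injective (p : N4) : Function.Injective (mfderiv I4 𝓘(ℝ, V6) emb4 p) := by
  have hd : MDifferentiableAt I4 𝓘(ℝ, V6) emb4 p := contMDiff_emb4.mdifferentiableAt (by simp)
  have h1 : MDifferentiableAt (𝓡 2) 𝓘(ℝ, E3) (fun x : S2 => (x : E3)) p.1 :=
    (contMDiff_coe_sphere (m := ∞)).mdifferentiableAt (by simp)
  have h2 : MDifferentiableAt (𝓡 2) 𝓘(ℝ, E3) (fun x : S2 => (x : E3)) p.2 :=
    (contMDiff_coe_sphere (m := ∞)).mdifferentiableAt (by simp)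
  rw [injective_iff_map_eq_zero]
  intro v hv
  have k1 : mfderiv (𝓡 2) 𝓘(ℝ, E3) (fun x : S2 => (x : E3)) p.1 (v.1 : E2) = 0 := by
    have a1 := mfderiv_comp p (g := fun q : V6 => q.1) (I' := 𝓘(ℝ, V6)) (I'' := 𝓘(ℝ, E3))
      (ContinuousLinearMap.fst ℝ E3 E3).mdifferentiableAt hd
    have a2 := mfderiv_comp p (f := (Prod.fst : N4 → S2)) (g := fun x : S2 => (x : E3))
      (I := I4) (I' := 𝓡 2) (I'' := 𝓘(ℝ, E3)) h1 mdifferentiableAt_fst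
    have a3 : ((fun q : V6 => q.1) ∘ emb4) = (fun x : S2 => (x : E3)) ∘ (Prod.fst : N4 → S2) := rfl
    rw [a3] at a1
    have a4 := congrArg (fun L : F4 →L[ℝ] E3 => L v) (a2.symm.trans a1)
    rw [mfderiv_fst] at a4
    refine Eq.trans a4 ?_
    show (mfderiv 𝓘(ℝ, V6) 𝓘(ℝ, E3) (fun q : V6 => q.1) (emb4 p))
      (mfderiv I4 𝓘(ℝ, V6) emb4 p v) = 0
    rw [hv]
    exact map_zero _
  have k2 : mfderiv (𝓡 2) 𝓘(ℝ, E3) (fun x : S2 => (x : E3)) p.2 (v.2 : E2) = 0 := by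
    have a1 := mfderiv_comp p (g := fun q : V6 => q.2) (I' := 𝓘(ℝ, V6)) (I'' := 𝓘(ℝ, E3))
      (ContinuousLinearMap.snd ℝ E3 E3).mdifferentiableAt hd
    have a2 := mfderiv_comp p (f := (Prod.snd : N4 → S2)) (g := fun x : S2 => (x : E3))
      (I := I4) (I' := 𝓡 2) (I'' := 𝓘(ℝ, E3)) h2 mdifferentiableAt_snd
    have a3 : ((fun q : V6 => q.2) ∘ emb4) = (fun x : S2 => (x : E3)) ∘ (Prod.snd : N4 → S2) := rfl
    rw [a3] at a1
    have a4 := congrArg (fun L : F4 →L[ℝ] E3 => L v) (a2.symm.trans a1)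
    rw [mfderiv_snd] at a4
    refine Eq.trans a4 ?_
    show (mfderiv 𝓘(ℝ, V6) 𝓘(ℝ, E3) (fun q : V6 => q.2) (emb4 p))
      (mfderiv I4 𝓘(ℝ, V6) emb4 p v) = 0
    rw [hv]
    exact map_zero _
  have l1 : (v.1 : E2) = 0 := by
    apply injective_mvfderiv_subtypeVal_sphere (E := E3) (n := 2) p.1
    exact k1.trans (map_zero (mfderiv (𝓡 2) 𝓘(ℝ, E3) (fun x : S2 => (x : E3)) p.1)).symm
  have l2 : (v.2 : E2) = 0 := by
    apply injective_mvfderiv_subtypeVal_sphere (E := E3) (n := 2) p.2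
    exact k2.trans (map_zero (mfderiv (𝓡 2) 𝓘(ℝ, E3) (fun x : S2 => (x : E3)) p.2)).symm
  exact Prod.ext l1 l2

/-- the Euclidean form of `ℝ³` -/
noncomputable def ef : E3 →L[ℝ] E3 →L[ℝ] ℝ :=
  (isBoundedBilinearMap_inner (𝕜 := ℝ) (E := E3)).toContinuousLinearMap

lemma ef_apply (v w : E3) : ef v w = ⟪v, w⟫ := rfl

/-- the form of the first factor -/
noncomputable def eX : V6 →L[ℝ] V6 →L[ℝ] ℝ :=
  ef.bilinearComp (ContinuousLinearMap.fst ℝ E3 E3) (ContinuousLinearMap.fst ℝ E3 E3)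

/-- the form of the second factor -/
noncomputable def eY : V6 →L[ℝ] V6 →L[ℝ] ℝ :=
  ef.bilinearComp (ContinuousLinearMap.snd ℝ E3 E3) (ContinuousLinearMap.snd ℝ E3 E3)

lemma eX_apply (v w : V6) : eX v w = ⟪v.1, w.1⟫ := rfl
lemma eY_apply (v w : V6) : eY v w = ⟪v.2, w.2⟫ := rfl

/-- the small constant -/
noncomputable def ep : ℝ := 1 / 100

/-- the axis -/
noncomputable def ax : E3 := EuclideanSpace.single 0 1

lemma norm_ax : ‖ax‖ = 1 := by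
  unfold ax
  rw [PiLp.norm_single, norm_one]

/-- the warping function -/
noncomputable def phi (u : E3) : ℝ := 1 + ep - ep * ⟪ax, u⟫

/-- the ambient forms -/
noncomputable def GW (p : V6) : V6 →L[ℝ] V6 →L[ℝ] ℝ := eX + phi p.1 ^ 2 • eY

lemma GW_apply (p v w : V6) : GW p v w = ⟪v.1, w.1⟫ + phi p.1 ^ 2 * ⟪v.2, w.2⟫ := rfl

lemma contDiff_phi : ContDiff ℝ ∞ phi := by
  unfold phi
  have h : ContDiff ℝ ∞ (fun u : E3 => (⟪ax, u⟫ : ℝ)) := (innerSL ℝ ax).contDiff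
  exact contDiff_const.sub (contDiff_const.mul h)

lemma contDiff_GW : ContDiff ℝ ∞ GW := by
  have h1 : ContDiff ℝ ∞ (fun p : V6 => phi p.1 ^ 2) := (contDiff_phi.comp contDiff_fst).pow 2
  exact Pool.Agent.H839R2.Geo.cd_add contDiff_const
    (Pool.Agent.H839R2.Geo.cd_smul h1 contDiff_const)

lemma inner_ax_le {u : E3} (hu : ‖u‖ = 1) : ⟪ax, u⟫ ≤ 1 := by
  have := real_inner_le_norm ax u
  rwa [norm_ax, hu, mul_one] at this

lemma neg_one_le_inner_ax {u : E3} (hu : ‖u‖ = 1) : -1 ≤ ⟪ax, u⟫ := by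
  have h := inner_ax_le (u := -u) (by rw [norm_neg, hu])
  rw [inner_neg_right] at h
  linarith

lemma phi_ge {u : E3} (hu : ‖u‖ = 1) : 1 ≤ phi u := by
  have := inner_ax_le hu
  unfold phi ep
  linarith

lemma phi_le {u : E3} (hu : ‖u‖ = 1) : phi u ≤ 102 / 100 := by
  have := neg_one_le_inner_ax hu
  unfold phi ep
  linarith

lemma GW_pos (p : V6) (hp : ‖p.1‖ = 1) (v : V6) (hv : v ≠ 0) : 0 < GW p v v := by
  rw [GW_apply]
  have h1 := phi_ge hp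
  have h2 : 0 ≤ ⟪v.1, v.1⟫ := real_inner_self_nonneg
  have h3 : 0 ≤ ⟪v.2, v.2⟫ := real_inner_self_nonneg
  have hne : v.1 ≠ 0 ∨ v.2 ≠ 0 := by
    by_contra h
    push Not at h
    exact hv (Prod.ext h.1 h.2)
  rcases hne with h | h
  · have h4 : 0 < ⟪v.1, v.1⟫ := real_inner_self_pos.mpr h
    have : 0 ≤ phi p.1 ^ 2 * ⟪v.2, v.2⟫ := by positivity
    linarith
  · have h4 : 0 < ⟪v.2, v.2⟫ := real_inner_self_pos.mpr h
    have : 0 < phi p.1 ^ 2 * ⟪v.2, v.2⟫ := by positivity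
    linarith

/-- the metric -/
noncomputable def gN : RMetric I4 N4 :=
  embMetric emb4 contMDiff_emb4 emb4_injective GW (fun _ => contDiff_GW.contDiffAt)
    (fun p v w => by rw [GW_apply, GW_apply, real_inner_comm, real_inner_comm w.2])
    (fun p v hv => GW_pos _ (by simp [emb4]) v hv)

/-- the differential of the embedding in the chart at `x` -/
lemma chart4 (x : N4) : (extChartAt I4 x).target = Set.univ ∧ extChartAt I4 x x = 0 ∧
    ∃ (J₁ : E2 →ₗᵢ[ℝ] E3) (J₂ : E2 →ₗᵢ[ℝ] E3), (∀ w, ⟪J₁ w, (x.1 : E3)⟫ = 0) ∧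
      (∀ w, ⟪J₂ w, (x.2 : E3)⟫ = 0) ∧
      ∀ y, emb4 ((extChartAt I4 x).symm y) = (sph (x.1 : E3) J₁ y.1, sph (x.2 : E3) J₂ y.2) := by
  obtain ⟨t1, z1, J₁, o1, e1⟩ := chart_sphere (V := E3) (n := 2) x.1
  obtain ⟨t2, z2, J₂, o2, e2⟩ := chart_sphere (V := E3) (n := 2) x.2
  have hc : extChartAt I4 x = (extChartAt (𝓡 2) x.1).prod (extChartAt (𝓡 2) x.2) :=
    extChartAt_prod x
  refine ⟨?_, ?_, J₁, J₂, o1, o2, fun y => ?_⟩
  · rw [hc, PartialEquiv.prod_target, t1, t2, Set.univ_prod_univ]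
  · rw [hc]
    exact Prod.ext z1 z2
  · rw [hc]
    exact Prod.ext (e1 y.1) (e2 y.2)

/-- the warping function in the chart -/
noncomputable def Psi (v : E3) (J : E2 →ₗᵢ[ℝ] E3) (w : E2) : ℝ := phi (sph v J w)

lemma fderiv_sphsph (v₁ : E3) (J₁ : E2 →ₗᵢ[ℝ] E3) (v₂ : E3) (J₂ : E2 →ₗᵢ[ℝ] E3) (y a : F4) :
    fderiv ℝ (fun y : F4 => (sph v₁ J₁ y.1, sph v₂ J₂ y.2)) y a =
      (fderiv ℝ (sph v₁ J₁) y.1 a.1, fderiv ℝ (sph v₂ J₂) y.2 a.2) := by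
  have h1 : HasFDerivAt (sph v₁ J₁) (fderiv ℝ (sph v₁ J₁) y.1) y.1 :=
    ((contDiff_sph (n := 1) v₁ J₁).differentiable (by simp)).differentiableAt.hasFDerivAt
  have h2 : HasFDerivAt (sph v₂ J₂) (fderiv ℝ (sph v₂ J₂) y.2) y.2 :=
    ((contDiff_sph (n := 1) v₂ J₂).differentiable (by simp)).differentiableAt.hasFDerivAt
  have h3 := (HasFDerivAt.prodMap y h1 h2).fderiv
  have h4 : fderiv ℝ (fun y : F4 => (sph v₁ J₁ y.1, sph v₂ J₂ y.2)) y = _ := h3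
  rw [h4]
  rfl

lemma exists_chartCoeff (x : N4) : extChartAt I4 x x = 0 ∧
    ∃ (J : E2 →ₗᵢ[ℝ] E3), (∀ w, ⟪J w, (x.1 : E3)⟫ = 0) ∧
      ∀ y a b, chartCoeff gN x y a b = gw (Psi (x.1 : E3) J) y a b := by
  obtain ⟨t, z, J₁, J₂, o₁, o₂, e⟩ := chart4 x
  refine ⟨z, J₁, o₁, fun y a b => ?_⟩
  have hy : y ∈ (extChartAt I4 x).target := by rw [t]; trivial
  have h1 : ∀ a : F4, ((fderiv ℝ (sph (x.1 : E3) J₁) y.1 a.1,
      fderiv ℝ (sph (x.2 : E3) J₂) y.2 a.2) : V6) =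
      mfderiv I4 𝓘(ℝ, V6) emb4 ((extChartAt I4 x).symm y)
        (mfderiv 𝓘(ℝ, F4) I4 (extChartAt I4 x).symm y a) := by
    intro a
    rw [← mfderiv_comp_chart contMDiff_emb4 x hy, ← fderiv_sphsph]
    have : emb4 ∘ (extChartAt I4 x).symm =
        fun y : F4 => (sph (x.1 : E3) J₁ y.1, sph (x.2 : E3) J₂ y.2) := by
      funext w; exact e w
    rw [this]
  have hx1 : ‖(x.1 : E3)‖ = 1 := by simp
  have hx2 : ‖(x.2 : E3)‖ = 1 := by simp
  have h3 : chartCoeff gN x y a b =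
      GW (emb4 ((extChartAt I4 x).symm y))
        (fderiv ℝ (sph (x.1 : E3) J₁) y.1 a.1, fderiv ℝ (sph (x.2 : E3) J₂) y.2 a.2)
        (fderiv ℝ (sph (x.1 : E3) J₁) y.1 b.1, fderiv ℝ (sph (x.2 : E3) J₂) y.2 b.2) := by
    rw [h1, h1]
    rfl
  rw [h3, e, GW_apply]
  change ⟪fderiv ℝ (sph (x.1 : E3) J₁) y.1 a.1, fderiv ℝ (sph (x.1 : E3) J₁) y.1 b.1⟫ +
    phi (sph (x.1 : E3) J₁ y.1) ^ 2 *
      ⟪fderiv ℝ (sph (x.2 : E3) J₂) y.2 a.2, fderiv ℝ (sph (x.2 : E3) J₂) y.2 b.2⟫ = _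
  rw [sph_conformal (x.1 : E3) hx1 J₁ o₁, sph_conformal (x.2 : E3) hx2 J₂ o₂]
  unfold gw lam Psi
  ring

/-- the projection of the axis -/
noncomputable def nv (J : E2 →ₗᵢ[ℝ] E3) : E2 :=
  ContinuousLinearMap.adjoint J.toContinuousLinearMap ax

lemma inner_nv (J : E2 →ₗᵢ[ℝ] E3) (w : E2) : ⟪nv J, w⟫ = ⟪ax, J w⟫ :=
  ContinuousLinearMap.adjoint_inner_left _ _ _

lemma inner_nv_self_le (J : E2 →ₗᵢ[ℝ] E3) : ⟪nv J, nv J⟫ ≤ 1 := by
  have h1 : ⟪nv J, nv J⟫ ≤ ‖nv J‖ := by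
    rw [inner_nv]
    have := real_inner_le_norm ax (J (nv J))
    rwa [norm_ax, one_mul, J.norm_map] at this
  rw [real_inner_self_eq_norm_sq] at h1 ⊢
  have h2 : 0 ≤ ‖nv J‖ := norm_nonneg _
  nlinarith

/-- the gradient of the warping function -/
noncomputable def grad (v : E3) (J : E2 →ₗᵢ[ℝ] E3) (w : E2) : E2 :=
  (-ep) • ((‖w‖ ^ 2 + 4)⁻¹ • ((4 : ℝ) • nv J - (2 * ⟪ax, v⟫) • w) -
    (2 * ((‖w‖ ^ 2 + 4)⁻¹) ^ 2 * (4 * ⟪nv J, w⟫ + (4 - ‖w‖ ^ 2) * ⟪ax, v⟫)) • w)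

lemma hasFDerivAt_Psi (v : E3) (J : E2 →ₗᵢ[ℝ] E3) (w : E2) :
    HasFDerivAt (Psi v J) (innerSL ℝ (grad v J w)) w := by
  have h1 : HasFDerivAt (sph v J) (fderiv ℝ (sph v J) w) w :=
    ((contDiff_sph (n := 1) v J).differentiable (by simp)).differentiableAt.hasFDerivAt
  have h2 := (innerSL ℝ ax).hasFDerivAt.comp w h1
  have h3 : HasFDerivAt (Psi v J) _ w := (h2.const_mul ep).const_sub (1 + ep)
  refine h3.congr_fderiv ?_
  ext a
  rw [neg_apply, smul_apply, ContinuousLinearMap.comp_apply, innerSL_apply_apply,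
    innerSL_apply_apply, fderiv_sph]
  unfold grad
  simp only [inner_sub_left, inner_sub_right, inner_smul_left, inner_smul_right, inner_add_right,
    inner_nv, RCLike.conj_to_real, smul_eq_mul]
  ring

lemma hasFDerivAt_grad (v : E3) (J : E2 →ₗᵢ[ℝ] E3) :
    HasFDerivAt (grad v J) ((ep * ⟪ax, v⟫) • ContinuousLinearMap.id ℝ E2) 0 := by
  have h1 : HasFDerivAt (fun w : E2 => ‖w‖ ^ 2) (2 • (innerSL ℝ (0 : E2))) 0 :=
    (hasStrictFDerivAt_norm_sq (0 : E2)).hasFDerivAt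
  have h1' : HasFDerivAt (fun w : E2 => ‖w‖ ^ 2) (0 : E2 →L[ℝ] ℝ) 0 := by
    refine h1.congr_fderiv ?_
    simp
  have hne : ‖(0 : E2)‖ ^ 2 + 4 ≠ 0 := by positivity
  have h2 : HasFDerivAt (fun w : E2 => (‖w‖ ^ 2 + 4)⁻¹) (0 : E2 →L[ℝ] ℝ) 0 := by
    have h4 := (hasDerivAt_inv hne).comp_hasFDerivAt (0 : E2) (h1'.add_const 4)
    refine HasFDerivAt.congr_fderiv (f := fun w : E2 => (‖w‖ ^ 2 + 4)⁻¹) h4 ?_
    simp
  have hid : HasFDerivAt (fun w : E2 => w) (ContinuousLinearMap.id ℝ E2) 0 := hasFDerivAt_id _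
  have h3 := h2.smul ((hid.const_smul (2 * ⟪ax, v⟫)).const_sub ((4 : ℝ) • nv J))
  have h5 : HasFDerivAt (fun w : E2 => (⟪nv J, w⟫ : ℝ)) (innerSL ℝ (nv J)) 0 :=
    (innerSL ℝ (nv J)).hasFDerivAt
  have h6 : HasFDerivAt (fun w : E2 => 4 * ⟪nv J, w⟫ + (4 - ‖w‖ ^ 2) * ⟪ax, v⟫) _ 0 :=
    (h5.const_mul 4).add ((h1'.const_sub 4).mul_const ⟪ax, v⟫)
  have h7 : HasFDerivAt (fun w : E2 => 2 * ((‖w‖ ^ 2 + 4)⁻¹) ^ 2) (0 : E2 →L[ℝ] ℝ) 0 := by
    have h8 := (h2.fun_mul h2).const_mul 2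
    refine (h8.congr_fderiv ?_).congr_of_eventuallyEq (Filter.Eventually.of_forall fun w => ?_)
    · simp
    · simp only [sq]
  have h9 := (h7.fun_mul h6).smul hid
  have h10 := (h3.sub h9).const_smul (-ep)
  refine HasFDerivAt.congr_fderiv (f := grad v J) h10 ?_
  ext1 a
  simp only [sub_apply, add_apply, smul_apply, neg_apply, ContinuousLinearMap.smulRight_apply,
    ContinuousLinearMap.id_apply, zero_apply, innerSL_apply_apply, norm_zero, inner_zero_right,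
    smul_eq_mul]
  norm_num
  module

end Q196.Lich
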