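import Pool.Agent.Q196.LichGeo

/-! `(L_3)` holds and `(L_2)` fails for the warped product of two spheres. -/

open scoped Manifold ContDiff Topology RealInnerProductSpace
open Module Metric Pool.Agent.H839R2.Stmt
open Pool.Agent.H839R2.Geo (E2 E3 S2 sph norm_sph_aux sph_zero)

namespace Q196.Lich

lemma inner2 (x y : E2) : ⟪x, y⟫ = x 0 * y 0 + x 1 * y 1 := by
  rw [PiLp.inner_apply, Fin.sum_univ_two]
  simp [mul_comm]

/-- the rotation of the plane -/
noncomputable def rt : E2 →ₗ[ℝ] E2 where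
  toFun x := !₂[-(x 1), x 0]
  map_add' x y := by
    ext i; fin_cases i <;> simp [add_comm]
  map_smul' c x := by
    ext i; fin_cases i <;> simp

lemma rt_zero (x : E2) : rt x 0 = -(x 1) := rfl
lemma rt_one (x : E2) : rt x 1 = x 0 := rfl

lemma rt_skew (x y : E2) : ⟪rt x, y⟫ = -⟪x, rt y⟫ := by
  rw [inner2, inner2, rt_zero, rt_one, rt_zero, rt_one]; ring

lemma rt_rt (x : E2) : rt (rt x) = -x := by
  ext i
  fin_cases i
  · change rt (rt x) 0 = -(x 0)
    rw [rt_zero, rt_one]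
  · change rt (rt x) 1 = -(x 1)
    rw [rt_one, rt_zero]

lemma rt_id (x y z : E2) : (⟪rt x, y⟫ : ℝ) • rt z = ⟪x, z⟫ • y - ⟪y, z⟫ • x := by
  ext i
  fin_cases i
  · change ⟪rt x, y⟫ * rt z 0 = ⟪x, z⟫ * y 0 - ⟪y, z⟫ * x 0
    rw [inner2, inner2, inner2, rt_zero, rt_one, rt_zero]; ring
  · change ⟪rt x, y⟫ * rt z 1 = ⟪x, z⟫ * y 1 - ⟪y, z⟫ * x 1
    rw [inner2, inner2, inner2, rt_zero, rt_one, rt_one]; ring

/-- rotation in the first factor -/
noncomputable def J1 : F4 →ₗ[ℝ] F4 := rt.prodMap 0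
/-- rotation in the second factor -/
noncomputable def J2 : F4 →ₗ[ℝ] F4 := LinearMap.prodMap 0 rt

lemma J1_apply (x : F4) : J1 x = (rt x.1, 0) := rfl
lemma J2_apply (x : F4) : J2 x = (0, rt x.2) := rfl

/-- forms on the model space -/
noncomputable def gl (r s : ℝ) : F4 →ₗ[ℝ] F4 →ₗ[ℝ] ℝ :=
  LinearMap.mk₂ ℝ (fun x y => r * ⟪x.1, y.1⟫ + s * ⟪x.2, y.2⟫)
    (fun x y z => by simp only [Prod.fst_add, Prod.snd_add, inner_add_left]; ring)
    (fun c x y => by
      simp only [Prod.smul_fst, Prod.smul_snd, inner_smul_left, RCLike.conj_to_real, smul_eq_mul]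
      ring)
    (fun x y z => by simp only [Prod.fst_add, Prod.snd_add, inner_add_right]; ring)
    (fun c x y => by
      simp only [Prod.smul_fst, Prod.smul_snd, inner_smul_right, smul_eq_mul]
      ring)

lemma gl_apply (r s : ℝ) (x y : F4) : gl r s x y = r * ⟪x.1, y.1⟫ + s * ⟪x.2, y.2⟫ := rfl

lemma gl_symm (r s : ℝ) (x y : F4) : gl r s x y = gl r s y x := by
  rw [gl_apply, gl_apply, real_inner_comm, real_inner_comm y.2]

lemma gl_J1 (r s : ℝ) (x y : F4) : gl r s (J1 x) y = - gl r s x (J1 y) := by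
  rw [gl_apply, gl_apply, J1_apply, J1_apply]
  simp only [inner_zero_left, inner_zero_right, rt_skew]
  ring

lemma gl_J2 (r s : ℝ) (x y : F4) : gl r s (J2 x) y = - gl r s x (J2 y) := by
  rw [gl_apply, gl_apply, J2_apply, J2_apply]
  simp only [inner_zero_left, inner_zero_right, rt_skew]
  ring

lemma JJ (x : F4) : (J1 + J2) ((J1 + J2) x) = -x := by
  refine Prod.ext ?_ ?_
  · simp [J1_apply, J2_apply, rt_rt]
  · simp [J1_apply, J2_apply, rt_rt]

/-- the curvature tensor in the form of the model -/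
lemma model_eq {s μ d : ℝ} (hs : s ≠ 0) (a b c : F4) :
    ((⟪b.1, c.1⟫ • a.1 - ⟪a.1, c.1⟫ • b.1 -
          (μ * s) • (⟪b.2, c.2⟫ • a.1 - ⟪a.2, c.2⟫ • b.1),
        (-(μ / s)) • (⟪b.1, c.1⟫ • a.2 - ⟪a.1, c.1⟫ • b.2) +
          (1 - d) • (⟪b.2, c.2⟫ • a.2 - ⟪a.2, c.2⟫ • b.2)) : F4) =
      (-(μ / s)) • (gl 1 (s ^ 2) b c • a - gl 1 (s ^ 2) a c • b) -
        ((1 - -(μ / s)) * gl 1 (s ^ 2) (J1 a) b) • J1 c -
        (((1 - d) / s ^ 2 - -(μ / s)) * gl 1 (s ^ 2) (J2 a) b) • J2 c := by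
  have e1 : ((1 - -(μ / s)) * gl 1 (s ^ 2) (J1 a) b) • J1 c =
      ((1 - -(μ / s)) • (⟪a.1, c.1⟫ • b.1 - ⟪b.1, c.1⟫ • a.1), (0 : E2)) := by
    rw [gl_apply, J1_apply, J1_apply]
    refine Prod.ext ?_ ?_
    · change ((1 - -(μ / s)) * (1 * ⟪rt a.1, b.1⟫ + s ^ 2 * ⟪(0 : E2), b.2⟫)) • rt c.1 =
        (1 - -(μ / s)) • (⟪a.1, c.1⟫ • b.1 - ⟪b.1, c.1⟫ • a.1)
      rw [← rt_id, inner_zero_left]
      module
    · exact smul_zero _
  have e2 : (((1 - d) / s ^ 2 - -(μ / s)) * gl 1 (s ^ 2) (J2 a) b) • J2 c =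
      ((0 : E2), (((1 - d) / s ^ 2 - -(μ / s)) * s ^ 2) • (⟪a.2, c.2⟫ • b.2 - ⟪b.2, c.2⟫ • a.2)) := by
    rw [gl_apply, J2_apply, J2_apply]
    refine Prod.ext ?_ ?_
    · exact smul_zero _
    · change (((1 - d) / s ^ 2 - -(μ / s)) * (1 * ⟪(0 : E2), b.1⟫ + s ^ 2 * ⟪rt a.2, b.2⟫)) • rt c.2 =
        (((1 - d) / s ^ 2 - -(μ / s)) * s ^ 2) • (⟪a.2, c.2⟫ • b.2 - ⟪b.2, c.2⟫ • a.2)
      rw [← rt_id, inner_zero_left]
      module
  rw [e1, e2, gl_apply, gl_apply]
  refine Prod.ext ?_ ?_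
  · simp only [Prod.fst_sub, Prod.smul_fst]
    match_scalars <;> field_simp <;> ring
  · simp only [Prod.snd_sub, Prod.smul_snd]
    match_scalars <;> field_simp <;> ring

lemma norm_sph' (v : E3) (hv : ‖v‖ = 1) (J : E2 →ₗᵢ[ℝ] E3) (o : ∀ w, ⟪J w, v⟫ = 0) (w : E2) :
    ‖sph v J w‖ = 1 := by
  have h := norm_sph_aux v hv J o w
  rw [real_inner_self_eq_norm_sq] at h
  have hp : (0 : ℝ) < ‖w‖ ^ 2 + 4 := by positivity
  have h2 : ‖(4 : ℝ) • J w + (4 - ‖w‖ ^ 2) • v‖ = ‖w‖ ^ 2 + 4 := by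
    have h3 : 0 ≤ ‖(4 : ℝ) • J w + (4 - ‖w‖ ^ 2) • v‖ := norm_nonneg _
    nlinarith
  unfold sph
  rw [norm_smul, h2, norm_inv, Real.norm_eq_abs, abs_of_pos hp]
  field_simp

lemma finrank_F4 : finrank ℝ F4 = 4 := by
  rw [Module.finrank_prod, finrank_euclideanSpace_fin]

/-- The condition holds on `(0, 3)`-tensors. -/
theorem lcond3 : LCond 3 gN := by
  intro x
  obtain ⟨hz, J, o, hc⟩ := exists_chartCoeff x
  have hfun : chartCoeff gN x = gw (Psi (x.1 : E3) J) := by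
    funext y a b; exact hc y a b
  rw [hz, hfun]
  have hx1 : ‖(x.1 : E3)‖ = 1 := by simp
  have hP : ∀ w, 1 ≤ Psi (x.1 : E3) J w := fun w => phi_ge (norm_sph' _ hx1 J o w)
  have hP0 : ∀ w, Psi (x.1 : E3) J w ≠ 0 := fun w => by have := hP w; linarith
  refine ⟨Gw (Psi (x.1 : E3) J) (grad (x.1 : E3) J), ?_, Filter.Eventually.of_forall ?_, ?_⟩
  · intro a b
    exact (fderiv_Gw (hasFDerivAt_Psi _ J 0) (hP0 0) (hasFDerivAt_grad _ J) a b 0).1
  · intro z a b c
    exact koszul_gw z (hasFDerivAt_Psi _ J z.1) (hP0 z.1) a b c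
  · intro e he T _
    set s := Psi (x.1 : E3) J 0 with hs
    set μ := ep * ⟪ax, (x.1 : E3)⟫ with hμ
    set d := ⟪grad (x.1 : E3) J 0, grad (x.1 : E3) J 0⟫ with hd
    have hg0 : ∀ a b : F4, gw (Psi (x.1 : E3) J) 0 a b = gl 1 (s ^ 2) a b := by
      intro a b
      unfold gw
      rw [gl_apply]
      simp only [Prod.fst_zero, Prod.snd_zero, lam_zero, mul_one, hs]
    have he' : ∀ i j, gl 1 (s ^ 2) (e i) (e j) = if i = j then 1 else 0 := by
      intro i j; rw [← hg0]; exact he i j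
    have hR : ∀ a b c, riem (Gw (B := E2) (Psi (x.1 : E3) J) (grad (x.1 : E3) J)) 0 a b c =
        (-(μ / s)) • (gl 1 (s ^ 2) b c • a - gl 1 (s ^ 2) a c • b) -
        ((1 - -(μ / s)) * gl 1 (s ^ 2) (J1 a) b) • J1 c -
        (((1 - d) / s ^ 2 - -(μ / s)) * gl 1 (s ^ 2) (J2 a) b) • J2 c := by
      intro a b c
      rw [riem_Gw (hasFDerivAt_Psi _ J 0) (hP0 0) (hasFDerivAt_grad _ J) a b c,
        ← model_eq (hP0 0)]
    have hx := inner_ax_le hx1
    have hx' := neg_one_le_inner_ax hx1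
    have hs1 : 1 ≤ s := hP 0
    have hs2 : s ≤ 102 / 100 := phi_le (norm_sph' _ hx1 J o 0)
    have hd1 : d ≤ 1 / 10000 := by
      have h1 := inner_nv_self_le J
      have h2 : grad (x.1 : E3) J 0 = (-ep) • nv J := by
        unfold grad
        rw [norm_zero]
        simp only [inner_zero_right]
        match_scalars <;> norm_num
      rw [hd, h2, inner_smul_left, inner_smul_right]
      simp only [RCLike.conj_to_real]
      unfold ep
      linarith
    have hμs : |μ / s| ≤ 1 / 100 := by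
      rw [abs_div, abs_of_pos (by linarith : (0 : ℝ) < s), div_le_iff₀ (by linarith)]
      have h1 : |μ| ≤ 1 / 100 := by
        rw [hμ]; unfold ep
        rw [abs_le]; constructor <;> linarith
      linarith
    have hμs1 := (abs_le.mp hμs).1
    have hμs2 := (abs_le.mp hμs).2
    refine model_nonneg (m := 9 / 10) (δ := 1 / 100) finrank_F4 (gl_symm 1 (s ^ 2))
      (onb_of_orth he') (gl_J1 1 (s ^ 2)) (gl_J2 1 (s ^ 2)) JJ hR ?_ ?_ ?_ ?_ ?_ T
    · linarith
    · have h1 : (95 : ℝ) / 100 ≤ (1 - d) / s ^ 2 := by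
        rw [le_div_iff₀ (by positivity)]
        nlinarith
      linarith
    · linarith
    · norm_num
    · norm_num

lemma gw_sub_left (Ψ : E2 → ℝ) (z u v c : F4) : gw Ψ z (u - v) c = gw Ψ z u c - gw Ψ z v c := by
  unfold gw
  simp only [Prod.fst_sub, Prod.snd_sub, inner_sub_left]
  ring

/-- the point where `(L_2)` fails -/
noncomputable def x0 : N4 :=
  (⟨ax, mem_sphere_zero_iff_norm.mpr norm_ax⟩, ⟨ax, mem_sphere_zero_iff_norm.mpr norm_ax⟩)

/-- the coordinate basis -/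
noncomputable def bas : Fin 4 → F4 :=
  ![(EuclideanSpace.single 0 1, 0), (EuclideanSpace.single 1 1, 0),
    (0, EuclideanSpace.single 0 1), (0, EuclideanSpace.single 1 1)]

lemma bas_orth (i j : Fin 4) : gl 1 1 (bas i) (bas j) = if i = j then 1 else 0 := by
  rw [gl_apply, inner2, inner2]
  fin_cases i <;> fin_cases j <;> simp [bas]

/-- The condition fails on `(0, 2)`-tensors. -/
theorem not_lcond2 : ¬ LCond 2 gN := by
  intro h
  have hx := h x0
  obtain ⟨hz, J, o, hc⟩ := exists_chartCoeff x0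
  have hv : ((x0.1 : S2) : E3) = ax := rfl
  rw [hv] at o hc
  have hfun : chartCoeff gN x0 = gw (Psi ax J) := by
    funext y a b; exact hc y a b
  rw [hz, hfun] at hx
  obtain ⟨Γ, hΓd, hΓ, hT⟩ := hx
  have hP : ∀ w, 1 ≤ Psi ax J w := fun w => phi_ge (norm_sph' _ norm_ax J o w)
  have hP0 : ∀ w, Psi ax J w ≠ 0 := fun w => by have := hP w; linarith
  have hEq : ∀ᶠ z in 𝓝 (0 : F4), ∀ a b, Γ z a b = Gw (Psi ax J) (grad ax J) z a b := by
    filter_upwards [hΓ] with z hz a b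
    set c := Γ z a b - Gw (Psi ax J) (grad ax J) z a b with hcdef
    have h1 := hz a b c
    have h2 := koszul_gw z (hasFDerivAt_Psi ax J z.1) (hP0 z.1) a b c
    have h3 : gw (Psi ax J) z c c = 0 := by
      have h4 : gw (Psi ax J) z c c = gw (Psi ax J) z (Γ z a b) c -
          gw (Psi ax J) z (Gw (Psi ax J) (grad ax J) z a b) c :=
        gw_sub_left _ z _ _ c
      rw [h4, h1, h2, sub_self]
    have h5 : c = 0 := by
      by_contra hne
      unfold gw at h3
      have k1 : 0 ≤ lam z.1 * ⟪c.1, c.1⟫ := mul_nonneg (lam_pos _).le real_inner_self_nonneg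
      have kp : 0 < Psi ax J z.1 ^ 2 * lam z.2 :=
        mul_pos (pow_pos (by linarith [hP z.1]) 2) (lam_pos _)
      have k2 : 0 ≤ Psi ax J z.1 ^ 2 * lam z.2 * ⟪c.2, c.2⟫ :=
        mul_nonneg kp.le real_inner_self_nonneg
      have hne' : c.1 ≠ 0 ∨ c.2 ≠ 0 := by
        by_contra h
        push Not at h
        exact hne (Prod.ext h.1 h.2)
      rcases hne' with h6 | h6
      · have := mul_pos (lam_pos z.1) (real_inner_self_pos.mpr h6)
        linarith
      · have := mul_pos kp (real_inner_self_pos.mpr h6)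
        linarith
    exact sub_eq_zero.mp h5
  have hR0 : ∀ a b c, riem Γ 0 a b c = riem (Gw (Psi ax J) (grad ax J)) 0 a b c := by
    intro a b c
    have h0 := hEq.self_of_nhds
    have hfd : ∀ u v w : F4, fderiv ℝ (fun z => Γ z u v) 0 w =
        fderiv ℝ (fun z => Gw (Psi ax J) (grad ax J) z u v) 0 w := by
      intro u v w
      have : (fun z => Γ z u v) =ᶠ[𝓝 0] fun z => Gw (Psi ax J) (grad ax J) z u v := by
        filter_upwards [hEq] with z hz using hz u v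
      rw [this.fderiv_eq]
    unfold riem
    rw [hfd, hfd, h0, h0, h0, h0]
  have hax : ⟪ax, ax⟫ = (1 : ℝ) := by rw [real_inner_self_eq_norm_sq, norm_ax]; norm_num
  have hs : Psi ax J 0 = 1 := by
    unfold Psi phi
    rw [sph_zero, hax]; ring
  have hnv : nv J = 0 := by
    have h1 : ⟪nv J, nv J⟫ = 0 := by
      rw [inner_nv, real_inner_comm]; exact o _
    exact inner_self_eq_zero.mp h1
  have hgr : grad ax J 0 = 0 := by
    unfold grad
    rw [hnv]; simp
  have hR : ∀ a b c, riem Γ 0 a b c =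
      (-(ep / 1)) • (gl 1 (1 ^ 2) b c • a - gl 1 (1 ^ 2) a c • b) -
        ((1 - -(ep / 1)) * gl 1 (1 ^ 2) (J1 a) b) • J1 c -
        (((1 - 0) / 1 ^ 2 - -(ep / 1)) * gl 1 (1 ^ 2) (J2 a) b) • J2 c := by
    intro a b c
    rw [hR0, riem_Gw (hasFDerivAt_Psi ax J 0) (hP0 0) (hasFDerivAt_grad ax J) a b c,
      ← model_eq one_ne_zero, hs, hgr, hax, inner_zero_left]
    simp only [mul_one]
  have hcast : finrank ℝ F4 = 4 := finrank_F4
  let e : Fin (finrank ℝ F4) → F4 := fun i => bas (Fin.cast hcast i)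
  have he : ∀ i j, gl 1 (1 ^ 2) (e i) (e j) = if i = j then 1 else 0 := by
    intro i j
    rw [one_pow, bas_orth]
    simp
  have he' : ∀ i j, gw (Psi ax J) 0 (e i) (e j) = if i = j then 1 else 0 := by
    intro i j
    rw [← he]
    unfold gw
    rw [gl_apply]
    simp only [Prod.fst_zero, Prod.snd_zero, lam_zero, mul_one, hs]
  have hfin := hT e he' (bil (gl 1 (-1))) (bil_symm (gl_symm 1 (-1)))
  have hneg := model_neg (gl_symm 1 (1 ^ 2)) (onb_of_orth he) (gl_J1 1 (1 ^ 2)) (gl_J2 1 (1 ^ 2))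
    hR (by unfold ep; norm_num) (h := gl 1 (-1))
    (fun x y => by rw [gl_J1]; ring) (fun x y => by rw [gl_J2]; ring)
    (a := Fin.cast hcast.symm 0) (b := Fin.cast hcast.symm 2)
    (by intro h; have := congrArg Fin.val h; simp at this)
    (by
      change gl 1 (-1) (bas 0) (bas 0) ≠ gl 1 (-1) (bas 2) (bas 2)
      rw [gl_apply, gl_apply, inner2, inner2, inner2, inner2]
      simp [bas]
      norm_num)
  linarith

instance : ConnectedSpace S2 := by
  rw [← isConnected_iff_connectedSpace]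
  apply isConnected_sphere _ _ zero_le_one
  rw [← finrank_eq_rank, finrank_euclideanSpace_fin]
  norm_num

end Q196.Lich
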