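import Pool.Agent.Q196.UnitQuat

/-! Orbit dimensions for actions on unit spheres given by ambient formulas. -/

open scoped Manifold ContDiff Topology RealInnerProductSpace Quaternion
open Module Metric

namespace Q196.SphAct

open Q196.Round Q196.GMan

section
variable {EG : Type*} [NormedAddCommGroup EG] [NormedSpace ℝ EG]
  {HG : Type*} [TopologicalSpace HG] {IG : ModelWithCorners ℝ EG HG}
  {G : Type*} [TopologicalSpace G] [ChartedSpace HG G]
  {V : Type*} [NormedAddCommGroup V] [InnerProductSpace ℝ V] {n : ℕ}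
  [Fact (finrank ℝ V = n + 1)]
  {K : Type*} [NormedAddCommGroup K] [NormedSpace ℝ K]
  {U : Type*} [NormedAddCommGroup U] [NormedSpace ℝ U]

lemma dInc_injective (x : sphere (0 : V) 1) : Function.Injective (dInc (n := n) x) :=
  injective_mvfderiv_subtypeVal_sphere x

lemma range_dInc (x : sphere (0 : V) 1) :
    LinearMap.range (dInc (n := n) x).toLinearMap = (ℝ ∙ (x : V))ᗮ :=
  range_mvfderiv_subtypeVal x

/-- chain rule for a map into the sphere given by an ambient formula -/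
lemma mfderiv_formula {f : G → sphere (0 : V) 1} {g : G}
    (hf : MDifferentiableAt IG (𝓡 n) f g) {j : G → K} (hj : MDifferentiableAt IG 𝓘(ℝ, K) j g)
    {A : K → U} (hA : DifferentiableAt ℝ A (j g)) (L : V →L[ℝ] U)
    (h : ∀ a, L (f a : V) = A (j a)) (ξ : EG) :
    L (dInc (n := n) (f g) (mfderiv IG (𝓡 n) f g ξ)) =
      fderiv ℝ A (j g) (mfderiv IG 𝓘(ℝ, K) j g ξ) := by
  have h1 : MDifferentiableAt (𝓡 n) 𝓘(ℝ, V) (fun x : sphere (0 : V) 1 => (x : V)) (f g) :=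
    (contMDiff_coe_sphere (m := ∞)).mdifferentiableAt (by simp)
  have e1 := mfderiv_comp g h1 hf
  have h2 : MDifferentiableAt IG 𝓘(ℝ, V) ((fun x : sphere (0 : V) 1 => (x : V)) ∘ f) g :=
    h1.comp g hf
  have hL : MDifferentiableAt 𝓘(ℝ, V) 𝓘(ℝ, U) L (((fun x : sphere (0 : V) 1 => (x : V)) ∘ f) g) :=
    L.mdifferentiableAt
  have e2 := mfderiv_comp g hL h2
  have hA' : MDifferentiableAt 𝓘(ℝ, K) 𝓘(ℝ, U) A (j g) := hA.mdifferentiableAt
  have e3 := mfderiv_comp g hA' hj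
  have e4 : (L ∘ ((fun x : sphere (0 : V) 1 => (x : V)) ∘ f)) = A ∘ j := by
    funext a; exact h a
  rw [e4] at e2
  rw [e3] at e2
  have e5 := congrArg (fun T : EG →L[ℝ] U => T ξ) e2
  rw [e1] at e5
  rw [mfderiv_eq_fderiv, mfderiv_eq_fderiv, L.fderiv] at e5
  exact e5.symm

variable [Group G] [MulAction G (sphere (0 : V) 1)]

lemma orbitDim_eq {x : sphere (0 : V) 1}
    (hf : MDifferentiableAt IG (𝓡 n) (fun a : G => a • x) 1) {j : G → K}
    (hj : MDifferentiableAt IG 𝓘(ℝ, K) j 1)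
    {A : K → U} (hA : DifferentiableAt ℝ A (j 1)) (L : V →L[ℝ] U)
    (h : ∀ a : G, L ((a • x : sphere (0 : V) 1) : V) = A (j a))
    (hinj : ∀ ξ : EG, fderiv ℝ A (j 1) (mfderiv IG 𝓘(ℝ, K) j 1 ξ) = 0 → ξ = 0) :
    orbitDim IG G (𝓡 n) x = finrank ℝ EG := by
  unfold orbitDim
  apply LinearMap.finrank_range_of_inj
  rw [injective_iff_map_eq_zero]
  intro ξ hξ
  apply hinj
  rw [← mfderiv_formula hf hj hA L h ξ]
  have : mfderiv IG (𝓡 n) (fun a : G => a • x) 1 ξ = 0 := hξ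
  rw [this]
  exact (congrArg L (map_zero (dInc (n := n) ((1 : G) • x)))).trans (map_zero L)

lemma orbitDim_lt [FiniteDimensional ℝ EG] {x : sphere (0 : V) 1}
    (hf : MDifferentiableAt IG (𝓡 n) (fun a : G => a • x) 1) {j : G → K}
    (hj : MDifferentiableAt IG 𝓘(ℝ, K) j 1)
    {A : K → U} (hA : DifferentiableAt ℝ A (j 1)) (L : V →L[ℝ] U) (hL : Function.Injective L)
    (h : ∀ a : G, L ((a • x : sphere (0 : V) 1) : V) = A (j a))
    (hker : ∃ ξ : EG, ξ ≠ 0 ∧ fderiv ℝ A (j 1) (mfderiv IG 𝓘(ℝ, K) j 1 ξ) = 0) :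
    orbitDim IG G (𝓡 n) x < finrank ℝ EG := by
  obtain ⟨ξ, hξ0, hξ⟩ := hker
  rw [← mfderiv_formula hf hj hA L h ξ] at hξ
  have h1 : dInc (n := n) ((1 : G) • x) (mfderiv IG (𝓡 n) (fun a : G => a • x) 1 ξ) = 0 :=
    hL (hξ.trans (map_zero L).symm)
  have h2 : mfderiv IG (𝓡 n) (fun a : G => a • x) 1 ξ = 0 :=
    dInc_injective _ (h1.trans (map_zero _).symm)
  unfold orbitDim
  let T : EG →ₗ[ℝ] EuclideanSpace ℝ (Fin n) :=
    (mfderiv IG (𝓡 n) (fun a : G => a • x) 1).toLinearMap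
  change finrank ℝ (LinearMap.range T) < _
  have h3 := LinearMap.finrank_range_add_finrank_ker T
  have h4 : 0 < finrank ℝ (LinearMap.ker T) := by
    rw [Module.finrank_pos_iff_exists_ne_zero]
    exact ⟨⟨ξ, h2⟩, fun h => hξ0 (congrArg Subtype.val h)⟩
  omega

end

end Q196.SphAct
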