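import Pool.Agent.Q196.GManDefs2
import Pool.Agent.Q196.SphAct

/-! The diameter of round spheres. -/

open scoped Manifold ContDiff Topology RealInnerProductSpace
open Module Metric

namespace Q196.Round

open Q196.GMan Q196.SphAct Pool.Agent.H839R2.Stmt

variable {V : Type*} [NormedAddCommGroup V] [InnerProductSpace ℝ V] {n : ℕ}
  [Fact (finrank ℝ V = n + 1)]

omit [Fact (finrank ℝ V = n + 1)] in
lemma exists_perp (h2 : 1 < finrank ℝ V) (x : V) : ∃ u : V, ‖u‖ = 1 ∧ ⟪x, u⟫ = 0 := by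
  have : FiniteDimensional ℝ V := Module.finite_of_finrank_pos (by omega)
  have h1 : (ℝ ∙ x)ᗮ ≠ ⊥ := by
    intro h
    have h3 := Submodule.finrank_add_finrank_orthogonal (ℝ ∙ x)
    rw [h, finrank_bot, add_zero] at h3
    have h4 := finrank_span_le_card (R := ℝ) ({x} : Set V)
    simp at h4
    omega
  obtain ⟨v, hv, hv0⟩ := (Submodule.ne_bot_iff _).mp h1
  rw [Submodule.mem_orthogonal_singleton_iff_inner_right] at hv
  refine ⟨‖v‖⁻¹ • v, ?_, ?_⟩
  · rw [norm_smul]; simp [hv0]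
  · rw [inner_smul_right, hv, mul_zero]

omit [Fact (finrank ℝ V = n + 1)] in
lemma exists_polar (h2 : 1 < finrank ℝ V) {x y : V} (hx : ‖x‖ = 1) (hy : ‖y‖ = 1) :
    ∃ (u : V) (θ : ℝ), ‖u‖ = 1 ∧ ⟪x, u⟫ = 0 ∧ 0 ≤ θ ∧ θ ≤ Real.pi ∧
      y = Real.cos θ • x + Real.sin θ • u := by
  set c : ℝ := ⟪x, y⟫ with hc
  have hc1 : |c| ≤ 1 := by
    have := abs_real_inner_le_norm x y
    rw [hx, hy, mul_one] at this
    exact this
  obtain ⟨hcl, hcu⟩ := abs_le.mp hc1
  have hcos : Real.cos (Real.arccos c) = c := Real.cos_arccos hcl hcu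
  have hsin : Real.sin (Real.arccos c) = √(1 - c ^ 2) := Real.sin_arccos c
  have hn : ‖y - c • x‖ ^ 2 = 1 - c ^ 2 := by
    rw [← real_inner_self_eq_norm_sq]
    simp only [inner_sub_left, inner_sub_right, inner_smul_left, inner_smul_right,
      real_inner_self_eq_norm_sq, hx, hy, real_inner_comm x y, ← hc, RCLike.conj_to_real]
    ring
  have hn' : ‖y - c • x‖ = √(1 - c ^ 2) := by
    rw [← hn, Real.sqrt_sq (norm_nonneg _)]
  by_cases h0 : √(1 - c ^ 2) = 0
  · obtain ⟨u, hu, hxu⟩ := exists_perp h2 x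
    refine ⟨u, Real.arccos c, hu, hxu, Real.arccos_nonneg c, Real.arccos_le_pi c, ?_⟩
    rw [hcos, hsin, h0, zero_smul, add_zero]
    rw [h0] at hn'
    exact (sub_eq_zero.mp (norm_eq_zero.mp hn'))
  · refine ⟨(√(1 - c ^ 2))⁻¹ • (y - c • x), Real.arccos c, ?_, ?_, Real.arccos_nonneg c,
      Real.arccos_le_pi c, ?_⟩
    · rw [norm_smul, hn', norm_inv, Real.norm_eq_abs, abs_of_nonneg (Real.sqrt_nonneg _)]
      exact inv_mul_cancel₀ h0
    · rw [inner_smul_right, inner_sub_right, inner_smul_right, real_inner_self_eq_norm_sq, hx,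
        ← hc]
      ring
    · rw [hcos, hsin, smul_smul, mul_inv_cancel₀ h0, one_smul]
      abel

/-- great circle arcs -/
noncomputable def arcV (x u : V) (θ t : ℝ) : V := Real.cos (θ * t) • x + Real.sin (θ * t) • u

omit [Fact (finrank ℝ V = n + 1)] in
lemma arcV_norm {x u : V} (hx : ‖x‖ = 1) (hu : ‖u‖ = 1) (hxu : ⟪x, u⟫ = 0) (a b : ℝ) :
    ‖a • x + b • u‖ ^ 2 = a ^ 2 + b ^ 2 := by
  rw [← real_inner_self_eq_norm_sq]
  simp only [inner_add_left, inner_add_right, inner_smul_left, inner_smul_right,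
    real_inner_comm x u, hxu, RCLike.conj_to_real]
  rw [real_inner_self_eq_norm_sq, real_inner_self_eq_norm_sq, hx, hu]
  ring

omit [Fact (finrank ℝ V = n + 1)] in
lemma contDiff_arcV (x u : V) (θ : ℝ) : ContDiff ℝ ∞ (arcV x u θ) := by
  unfold arcV
  have h1 : ContDiff ℝ ∞ (fun t : ℝ => θ * t) := contDiff_const.mul contDiff_id
  exact ((Real.contDiff_cos.comp h1).smul contDiff_const).add
    ((Real.contDiff_sin.comp h1).smul contDiff_const)

omit [Fact (finrank ℝ V = n + 1)] in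
lemma hasDerivAt_arcV (x u : V) (θ t : ℝ) :
    HasDerivAt (arcV x u θ) ((-Real.sin (θ * t) * θ) • x + (Real.cos (θ * t) * θ) • u) t := by
  have h1 : HasDerivAt (fun t : ℝ => θ * t) θ t := by
    simpa using (hasDerivAt_id t).const_mul θ
  exact (h1.cos.smul_const x).add (h1.sin.smul_const u)

theorem diamLE_round (hn : 1 ≤ n) (c : ℝ) (hc : 0 < c) :
    DiamLE (roundMetric (V := V) (n := n) c hc) (√c * Real.pi) := by
  have hfr : finrank ℝ V = n + 1 := Fact.out
  intro x y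
  have hx : ‖(x : V)‖ = 1 := by simp
  have hy : ‖(y : V)‖ = 1 := by simp
  obtain ⟨u, θ, hu, hxu, hθ0, hθ, hxy⟩ := exists_polar (by omega) hx hy
  have hmem : ∀ t, arcV (x : V) u θ t ∈ sphere (0 : V) 1 := by
    intro t
    have h1 : ‖arcV (x : V) u θ t‖ ^ 2 = 1 := by
      unfold arcV
      rw [arcV_norm hx hu hxu]
      exact Real.cos_sq_add_sin_sq _
    rw [mem_sphere_zero_iff_norm]
    nlinarith [norm_nonneg (arcV (x : V) u θ t)]
  let γ : ℝ → sphere (0 : V) 1 := Set.codRestrict (arcV (x : V) u θ) _ hmem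
  have hγ : ContMDiff 𝓘(ℝ, ℝ) (𝓡 n) ∞ γ :=
    ContMDiff.codRestrict_sphere (contDiff_arcV (x : V) u θ).contMDiff hmem
  have hvel : ∀ t, ⟪dInc (n := n) (γ t) (velocity (𝓡 n) γ t),
      dInc (n := n) (γ t) (velocity (𝓡 n) γ t)⟫ = θ ^ 2 := by
    intro t
    have h := mfderiv_formula (IG := 𝓘(ℝ, ℝ)) (G := ℝ) (f := γ) (g := t) (K := ℝ) (U := V)
      (hγ.mdifferentiableAt (by simp)) (j := fun t => t) mdifferentiableAt_id
      (A := arcV (x : V) u θ) (hasDerivAt_arcV (x : V) u θ t).differentiableAt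
      (ContinuousLinearMap.id ℝ V) (fun a => rfl) (1 : ℝ)
    have h1 : (mfderiv 𝓘(ℝ, ℝ) 𝓘(ℝ, ℝ) (fun t : ℝ => t) t) (1 : ℝ) = (1 : ℝ) := by
      rw [mfderiv_eq_fderiv]
      have h5 : fderiv ℝ (fun t : ℝ => t) t = ContinuousLinearMap.id ℝ ℝ := fderiv_fun_id
      rw [h5]
      rfl
    have h2 : dInc (n := n) (γ t) (velocity (𝓡 n) γ t) =
        fderiv ℝ (arcV (x : V) u θ) t
          ((mfderiv 𝓘(ℝ, ℝ) 𝓘(ℝ, ℝ) (fun t : ℝ => t) t) (1 : ℝ)) := h
    have h3 : fderiv ℝ (arcV (x : V) u θ) t (1 : ℝ) =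
        (-Real.sin (θ * t) * θ) • (x : V) + (Real.cos (θ * t) * θ) • u := by
      rw [fderiv_apply_one_eq_deriv, (hasDerivAt_arcV (x : V) u θ t).deriv]
    rw [h2]
    have h4 : fderiv ℝ (arcV (x : V) u θ) t
          ((mfderiv 𝓘(ℝ, ℝ) 𝓘(ℝ, ℝ) (fun t : ℝ => t) t) (1 : ℝ)) =
        (-Real.sin (θ * t) * θ) • (x : V) + (Real.cos (θ * t) * θ) • u := by
      rw [← h3]
      exact congrArg (fderiv ℝ (arcV (x : V) u θ) t) h1
    rw [h4, real_inner_self_eq_norm_sq, arcV_norm hx hu hxu]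
    have := Real.cos_sq_add_sin_sq (θ * t)
    linear_combination θ ^ 2 * this
  refine ⟨γ, hγ, ?_, ?_, ?_⟩
  · apply Subtype.ext
    change arcV (x : V) u θ 0 = x
    simp [arcV]
  · apply Subtype.ext
    change arcV (x : V) u θ 1 = y
    rw [hxy]; simp [arcV]
  · unfold curveLength
    have h1 : ∀ t : ℝ, √((roundMetric (V := V) (n := n) c hc).inner (γ t)
        (velocity (𝓡 n) γ t) (velocity (𝓡 n) γ t)) = √c * θ := by
      intro t
      rw [roundMetric_inner, hvel t, Real.sqrt_mul hc.le, Real.sqrt_sq hθ0]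
    simp only [h1]
    rw [intervalIntegral.integral_const]
    simp only [sub_zero, smul_eq_mul, one_mul]
    exact mul_le_mul_of_nonneg_left hθ (Real.sqrt_nonneg c)

theorem almostNonneg_round (hn : 1 ≤ n) :
    AlmostNonnegCurvature (𝓡 n) (sphere (0 : V) 1) := by
  intro ε hε
  have hpi := Real.pi_pos
  refine ⟨roundMetric ((1 / Real.pi) ^ 2) (by positivity), hasSecGE_round _ _ ?_, ?_⟩
  · have : (0 : ℝ) < 1 / (1 / Real.pi) ^ 2 := by positivity
    linarith
  · have h := diamLE_round (V := V) (n := n) hn ((1 / Real.pi) ^ 2) (by positivity)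
    have h2 : √((1 / Real.pi) ^ 2) * Real.pi = 1 := by
      rw [Real.sqrt_sq (by positivity), one_div, inv_mul_cancel₀ hpi.ne']
    rw [h2] at h
    exact h

end Q196.Round
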