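import Pool.Agent.Q196.GManDefs
import Pool.Agent.H839R2.Geo.Sph

/-! The round metrics (of any radius) on the unit sphere of a Euclidean space. -/

open scoped Manifold ContDiff Topology RealInnerProductSpace
open Module Metric Pool.Agent.H839R2.Stmt
open Pool.Agent.H839R2.Geo (sph embMetric embInner pull chart_sphere sph_conformal
  mfderiv_comp_chart embInner_apply pull_apply)

namespace Q196.Round

section Flat

variable {A : Type*} [NormedAddCommGroup A] [InnerProductSpace ℝ A]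

/-- the Christoffel symbols of the round metric in stereographic coordinates -/
noncomputable def Gam (y a b : A) : A :=
  (-(2 / (‖y‖ ^ 2 + 4))) • (⟪y, a⟫ • b + ⟪y, b⟫ • a - ⟪a, b⟫ • y)

lemma hasFDerivAt_lam (c : ℝ) (y : A) :
    HasFDerivAt (fun z : A => c * (16 / (‖z‖ ^ 2 + 4) ^ 2))
      ((-(64 * c) / (‖y‖ ^ 2 + 4) ^ 3) • innerSL ℝ y) y := by
  have h1 : HasFDerivAt (fun w : A => ‖w‖ ^ 2) (2 • (innerSL ℝ y)) y :=
    (hasStrictFDerivAt_norm_sq y).hasFDerivAt
  have hne : ‖y‖ ^ 2 + 4 ≠ 0 := by positivity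
  have h2 : HasDerivAt (fun t : ℝ => c * (16 / (t + 4) ^ 2)) (-(32 * c) / (‖y‖ ^ 2 + 4) ^ 3)
      (‖y‖ ^ 2) := by
    have h3 : HasDerivAt (fun t : ℝ => (t + 4) ^ 2) (2 * (‖y‖ ^ 2 + 4)) (‖y‖ ^ 2) := by
      have h := ((hasDerivAt_id (‖y‖ ^ 2)).add_const 4).fun_pow 2
      refine h.congr_deriv ?_
      simp
    have h4 := ((hasDerivAt_const (‖y‖ ^ 2) (16 : ℝ)).div h3 (by positivity)).const_mul c
    refine h4.congr_deriv ?_
    field_simp
    ring
  have h5 := h2.comp_hasFDerivAt y h1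
  refine h5.congr_fderiv ?_
  ext a
  simp only [ContinuousLinearMap.smul_apply, innerSL_apply_apply, nsmul_eq_mul, smul_eq_mul]
  push_cast
  ring

lemma koszul_round (c : ℝ) (y a b e : A) :
    c * (16 / (‖y‖ ^ 2 + 4) ^ 2) * ⟪Gam y a b, e⟫ =
      koszul (fun z u v => c * (16 / (‖z‖ ^ 2 + 4) ^ 2) * ⟪u, v⟫) y a b e := by
  have h : ∀ u v w : A, fderiv ℝ (fun z : A => c * (16 / (‖z‖ ^ 2 + 4) ^ 2) * ⟪u, v⟫) y w =
      -(64 * c) / (‖y‖ ^ 2 + 4) ^ 3 * ⟪y, w⟫ * ⟪u, v⟫ := by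
    intro u v w
    have := (hasFDerivAt_lam c y).mul_const (⟪u, v⟫ : ℝ)
    rw [this.fderiv]
    simp only [ContinuousLinearMap.smul_apply, innerSL_apply_apply, smul_eq_mul]
    ring
  have hne : ‖y‖ ^ 2 + 4 ≠ 0 := by positivity
  unfold koszul
  rw [h, h, h]
  unfold Gam
  rw [inner_smul_left, inner_sub_left, inner_add_left, inner_smul_left, inner_smul_left,
    inner_smul_left]
  simp only [RCLike.conj_to_real]
  field_simp
  ring

lemma hasFDerivAt_Gam (a b v : A) :
    DifferentiableAt ℝ (fun z : A => Gam z a b) 0 ∧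
    fderiv ℝ (fun z : A => Gam z a b) 0 v = (-(1 / 2 : ℝ)) • (⟪v, a⟫ • b + ⟪v, b⟫ • a - ⟪a, b⟫ • v) := by
  have h1 : HasFDerivAt (fun w : A => ‖w‖ ^ 2) (2 • (innerSL ℝ (0 : A))) 0 :=
    (hasStrictFDerivAt_norm_sq (0 : A)).hasFDerivAt
  have h2 : DifferentiableAt ℝ (fun z : A => -(2 / (‖z‖ ^ 2 + 4))) 0 := by
    have : DifferentiableAt ℝ (fun z : A => ‖z‖ ^ 2 + 4) 0 := h1.differentiableAt.add_const 4
    have hne : (fun z : A => ‖z‖ ^ 2 + 4) 0 ≠ 0 := by
      have : (0 : ℝ) < ‖(0 : A)‖ ^ 2 + 4 := by positivity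
      exact this.ne'
    simp only [div_eq_mul_inv]
    exact ((DifferentiableAt.fun_inv this hne).const_mul 2).neg
  have h3 : ∀ u : A, HasFDerivAt (fun z : A => (⟪z, u⟫ : ℝ)) ((innerSL ℝ u)) 0 := by
    intro u
    have := (innerSL ℝ u).hasFDerivAt (x := (0 : A))
    refine this.congr_of_eventuallyEq (Filter.Eventually.of_forall fun z => ?_)
    simp only [innerSL_apply_apply]
    exact real_inner_comm _ _
  have h4 : HasFDerivAt (fun z : A => ⟪z, a⟫ • b + ⟪z, b⟫ • a - ⟪a, b⟫ • z)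
      ((innerSL ℝ a).smulRight b + (innerSL ℝ b).smulRight a
        - (⟪a, b⟫ : ℝ) • ContinuousLinearMap.id ℝ A) 0 :=
    (((h3 a).smul_const b).add ((h3 b).smul_const a)).sub ((hasFDerivAt_id (0 : A)).const_smul _)
  have h5 := h2.hasFDerivAt.smul h4
  refine ⟨h5.differentiableAt, ?_⟩
  have h6 : fderiv ℝ (fun z : A => Gam z a b) 0 = _ := h5.fderiv
  rw [h6]
  simp only [ContinuousLinearMap.add_apply, ContinuousLinearMap.smul_apply,
    ContinuousLinearMap.smulRight_apply, ContinuousLinearMap.sub_apply,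
    ContinuousLinearMap.id_apply, innerSL_apply_apply, norm_zero, inner_zero_left, zero_smul,
    add_zero, smul_zero, sub_zero, real_inner_comm v a, real_inner_comm v b]
  norm_num

lemma riem_Gam (a b e : A) : riem Gam 0 a b e = ⟪b, e⟫ • a - ⟪a, e⟫ • b := by
  unfold riem
  rw [(hasFDerivAt_Gam b e a).2, (hasFDerivAt_Gam a e b).2]
  have h0 : ∀ u v : A, Gam (0 : A) u v = 0 := by
    intro u v; simp [Gam]
  simp only [h0]
  rw [real_inner_comm a b]
  module

end Flat

section Metric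

variable {V : Type*} [NormedAddCommGroup V] [InnerProductSpace ℝ V] {n : ℕ}
  [Fact (finrank ℝ V = n + 1)]

/-- the scaled Euclidean form -/
noncomputable def form (c : ℝ) (_p : V) : V →L[ℝ] V →L[ℝ] ℝ :=
  c • (isBoundedBilinearMap_inner (𝕜 := ℝ) (E := V)).toContinuousLinearMap

omit [Fact (finrank ℝ V = n + 1)] in
lemma form_apply (c : ℝ) (p v w : V) : form c p v w = c * ⟪v, w⟫ := rfl

/-- `c` times the round metric of the unit sphere. -/
noncomputable def roundMetric (c : ℝ) (hc : 0 < c) : RMetric (𝓡 n) (sphere (0 : V) 1) :=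
  embMetric (fun x : sphere (0 : V) 1 => (x : V)) contMDiff_coe_sphere
    (fun x => injective_mvfderiv_subtypeVal_sphere x) (form c)
    (fun _ => contDiffAt_const) (fun p v w => by
      rw [form_apply, form_apply, real_inner_comm])
    (fun p v hv => by
      rw [form_apply]
      exact mul_pos hc (real_inner_self_pos.mpr hv))

/-- the differential of the inclusion -/
noncomputable def dInc (x : sphere (0 : V) 1) : EuclideanSpace ℝ (Fin n) →L[ℝ] V :=
  mfderiv (𝓡 n) 𝓘(ℝ, V) (fun x : sphere (0 : V) 1 => (x : V)) x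

lemma roundMetric_inner (c : ℝ) (hc : 0 < c) (x : sphere (0 : V) 1)
    (v w : TangentSpace (𝓡 n) x) :
    (roundMetric (V := V) (n := n) c hc).inner x v w = c * ⟪dInc x v, dInc x w⟫ := rfl

lemma chartCoeff_round (c : ℝ) (hc : 0 < c) (x : sphere (0 : V) 1)
    (y a b : EuclideanSpace ℝ (Fin n)) :
    chartCoeff (roundMetric (V := V) (n := n) c hc) x y a b =
      c * (16 / (‖y‖ ^ 2 + 4) ^ 2) * ⟪a, b⟫ := by
  obtain ⟨t, z, J, o, e⟩ := chart_sphere (n := n) x
  have hy : y ∈ (extChartAt (𝓡 n) x).target := by rw [t]; trivial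
  have h1 : ∀ a, fderiv ℝ (sph (x : V) J) y a =
      mfderiv (𝓡 n) 𝓘(ℝ, V) (fun x : sphere (0 : V) 1 => (x : V)) ((extChartAt (𝓡 n) x).symm y)
        (mfderiv 𝓘(ℝ, EuclideanSpace ℝ (Fin n)) (𝓡 n) (extChartAt (𝓡 n) x).symm y a) := by
    intro a
    rw [← mfderiv_comp_chart contMDiff_coe_sphere x hy]
    have : (fun x : sphere (0 : V) 1 => (x : V)) ∘ (extChartAt (𝓡 n) x).symm
        = sph (x : V) J := by
      funext w; exact e w
    rw [this]
  have hx : ‖(x : V)‖ = 1 := by simp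
  have h2 := sph_conformal (x : V) hx J o y a b
  have h3 : chartCoeff (roundMetric (V := V) (n := n) c hc) x y a b =
      c * ⟪fderiv ℝ (sph (x : V) J) y a, fderiv ℝ (sph (x : V) J) y b⟫ := by
    rw [h1, h1]
    rfl
  rw [h3, h2]; ring

lemma extChartAt_self (x : sphere (0 : V) 1) : extChartAt (𝓡 n) x x = 0 :=
  (chart_sphere (n := n) x).2.1

/-- Ricci curvature of the round metric. -/
lemma ricci_Gam (b e : EuclideanSpace ℝ (Fin n)) : ricci Gam 0 b e = (n - 1) * ⟪b, e⟫ := by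
  unfold ricci
  simp only [riem_Gam, map_sub, map_smul, smul_eq_mul]
  rw [Finset.sum_sub_distrib]
  have h1 : ∑ i, ⟪b, e⟫ * (finBasis ℝ (EuclideanSpace ℝ (Fin n))).coord i
      (finBasis ℝ (EuclideanSpace ℝ (Fin n)) i) = n * ⟪b, e⟫ := by
    have : ∀ i, (finBasis ℝ (EuclideanSpace ℝ (Fin n))).coord i
      (finBasis ℝ (EuclideanSpace ℝ (Fin n)) i) = 1 := by
      intro i; simp
    simp only [this, mul_one, Finset.sum_const, Finset.card_univ, Fintype.card_fin,
      finrank_euclideanSpace, nsmul_eq_mul]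
  have h2 : ∑ i, ⟪finBasis ℝ (EuclideanSpace ℝ (Fin n)) i, e⟫ *
      (finBasis ℝ (EuclideanSpace ℝ (Fin n))).coord i b = ⟪b, e⟫ := by
    conv_rhs => rw [← (finBasis ℝ (EuclideanSpace ℝ (Fin n))).sum_repr b]
    rw [sum_inner]
    refine Finset.sum_congr rfl fun i _ => ?_
    rw [inner_smul_left]
    simp only [RCLike.conj_to_real, Basis.coord_apply]
    ring
  rw [h1, h2]; ring

theorem hasPosRicci_round (c : ℝ) (hc : 0 < c) (hn : 2 ≤ n) :
    Q196.GMan.HasPosRicci (roundMetric (V := V) (n := n) c hc) := by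
  intro x
  rw [extChartAt_self]
  refine ⟨Gam, fun a b => (hasFDerivAt_Gam a b 0).1, Filter.Eventually.of_forall ?_, ?_⟩
  · intro z a b e
    rw [chartCoeff_round, koszul_round]
    congr 1
    funext z u v
    rw [chartCoeff_round]
  · intro b hb
    rw [ricci_Gam]
    have h1 : (0 : ℝ) < ⟪b, b⟫ := real_inner_self_pos.mpr hb
    have h2 : (2 : ℝ) ≤ n := by exact_mod_cast hn
    nlinarith

theorem hasSecGE_round (c : ℝ) (hc : 0 < c) {κ : ℝ} (hκ : κ ≤ 1 / c) :
    Q196.GMan.HasSecGE (roundMetric (V := V) (n := n) c hc) κ := by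
  intro x
  rw [extChartAt_self]
  refine ⟨Gam, fun a b => (hasFDerivAt_Gam a b 0).1, Filter.Eventually.of_forall ?_, ?_⟩
  · intro z a b e
    rw [chartCoeff_round, koszul_round]
    congr 1
    funext z u v
    rw [chartCoeff_round]
  · intro a b
    simp only [chartCoeff_round, riem_Gam, norm_zero, inner_sub_left, inner_smul_left,
      RCLike.conj_to_real]
    have h1 : ⟪a, b⟫ ^ 2 ≤ ⟪a, a⟫ * ⟪b, b⟫ := by
      have := real_inner_mul_inner_self_le a b
      nlinarith
    have h2 : κ * c ≤ 1 := by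
      rw [le_div_iff₀ hc] at hκ
      exact hκ
    rw [real_inner_comm a b]
    have h3 : 0 ≤ (⟪a, a⟫ * ⟪b, b⟫ - ⟪a, b⟫ ^ 2) * c := by
      apply mul_nonneg _ hc.le
      linarith
    nlinarith [mul_le_mul_of_nonneg_right h2 h3]

end Metric

end Q196.Round
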