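import Pool.Agent.Q196.SphAct

/-! The linear action of the unit quaternions on the unit sphere of `ℝ³ ⊕ ℍ^m`. -/

open scoped Manifold ContDiff Topology RealInnerProductSpace Quaternion
open Module Metric

namespace Q196.SS

open Q196.Round Q196.GMan Q196.SphAct Q196.UQ Pool.Agent.H839R2.Stmt

/-- `ℍ^{m+1}`. -/
abbrev U (m : ℕ) : Type := PiLp 2 (fun _ : Fin (m + 1) => ℍ[ℝ])

/-- real part of the zeroth coordinate -/
def re0 (m : ℕ) : U m →ₗ[ℝ] ℝ where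
  toFun v := (v 0).re
  map_add' v w := by simp
  map_smul' c v := by simp

/-- `ℝ³ ⊕ ℍ^m`, as the subspace of `ℍ^{m+1}` where the zeroth coordinate is imaginary. -/
def W (m : ℕ) : Submodule ℝ (U m) := LinearMap.ker (re0 m)

lemma mem_W {m : ℕ} {v : U m} : v ∈ W m ↔ (v 0).re = 0 := Iff.rfl

lemma finrank_U (m : ℕ) : finrank ℝ (U m) = 4 * (m + 1) := by
  rw [(WithLp.linearEquiv 2 ℝ (Fin (m + 1) → ℍ[ℝ])).finrank_eq, Module.finrank_pi_fintype]
  simp [Quaternion.finrank_eq_four, mul_comm]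

lemma finrank_W (m : ℕ) : finrank ℝ (W m) = 4 * m + 2 + 1 := by
  have h : re0 m ≠ 0 := by
    intro h
    have h1 : re0 m (WithLp.toLp 2 (fun _ => (1 : ℍ[ℝ]))) = 0 := by rw [h]; rfl
    have h2 : (1 : ℍ[ℝ]).re = 0 := h1
    simp at h2
  have h2 := Module.Dual.finrank_ker_add_one_of_ne_zero (f := re0 m) h
  rw [finrank_U] at h2
  unfold W
  omega

instance factW (m : ℕ) : Fact (finrank ℝ (W m) = (4 * m + 2) + 1) := ⟨finrank_W m⟩

/-- `(v_0, v_i) ↦ (q v_0 q̄, q v_i)`. -/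
noncomputable def actU {m : ℕ} (q : ℍ[ℝ]) (v : U m) : U m :=
  WithLp.toLp 2 (fun i => if i = 0 then q * v 0 * star q else q * v i)

lemma actU_zero {m : ℕ} (q : ℍ[ℝ]) (v : U m) : actU q v 0 = q * v 0 * star q := by
  simp [actU]

lemma actU_ne {m : ℕ} (q : ℍ[ℝ]) (v : U m) {i : Fin (m + 1)} (hi : i ≠ 0) :
    actU q v i = q * v i := by
  simp [actU, hi]

lemma actU_one {m : ℕ} (v : U m) : actU 1 v = v := by
  ext1 i
  by_cases hi : i = 0
  · subst hi; rw [actU_zero]; simp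
  · rw [actU_ne _ _ hi]; simp

lemma actU_mul {m : ℕ} (p q : ℍ[ℝ]) (v : U m) : actU (p * q) v = actU p (actU q v) := by
  ext1 i
  by_cases hi : i = 0
  · subst hi; rw [actU_zero, actU_zero, actU_zero, star_mul]; simp only [mul_assoc]
  · rw [actU_ne _ _ hi, actU_ne _ _ hi, actU_ne _ _ hi, mul_assoc]

lemma actU_add {m : ℕ} (q : ℍ[ℝ]) (v w : U m) : actU q (v + w) = actU q v + actU q w := by
  ext1 i
  by_cases hi : i = 0
  · subst hi
    simp only [actU_zero, PiLp.add_apply, mul_add, add_mul]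
  · simp only [actU_ne _ _ hi, PiLp.add_apply, mul_add]

lemma actU_smul {m : ℕ} (q : ℍ[ℝ]) (c : ℝ) (v : U m) : actU q (c • v) = c • actU q v := by
  ext1 i
  by_cases hi : i = 0
  · subst hi
    simp only [actU_zero, PiLp.smul_apply, mul_smul_comm, smul_mul_assoc]
  · simp only [actU_ne _ _ hi, PiLp.smul_apply, mul_smul_comm]

lemma norm_actU {m : ℕ} {q : ℍ[ℝ]} (hq : ‖q‖ = 1) (v : U m) : ‖actU q v‖ = ‖v‖ := by
  rw [PiLp.norm_eq_of_L2, PiLp.norm_eq_of_L2]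
  congr 1
  refine Finset.sum_congr rfl fun i _ => ?_
  by_cases hi : i = 0
  · subst hi; rw [actU_zero]; simp [hq]
  · rw [actU_ne _ _ hi]; simp [hq]

lemma actU_mem {m : ℕ} (q : ℍ[ℝ]) {v : U m} (hv : v ∈ W m) : actU q v ∈ W m := by
  rw [mem_W] at *
  rw [actU_zero]
  rw [← Quaternion.star_eq_neg] at *
  rw [star_mul, star_mul, star_star, hv]
  simp [mul_assoc]

lemma contDiff_actU {m : ℕ} {n : WithTop ℕ∞} :
    ContDiff ℝ n (fun p : ℍ[ℝ] × U m => actU p.1 p.2) := by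
  rw [contDiff_piLp]
  intro i
  have hc : ∀ k, ContDiff ℝ n (fun p : ℍ[ℝ] × U m => p.2 k) := fun k =>
    (contDiff_piLp_apply (p := 2) (i := k)).comp contDiff_snd
  by_cases hi : i = 0
  · subst hi
    simp only [actU_zero]
    exact (contDiff_fst.mul (hc 0)).mul (contDiff_starQ.comp contDiff_fst)
  · simp only [actU_ne _ _ hi]
    exact contDiff_fst.mul (hc i)

/-- The unit sphere `S^{4m+2}` of `ℝ³ ⊕ ℍ^m`. -/
abbrev Sph (m : ℕ) : Type := sphere (0 : W m) 1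

noncomputable def actW {m : ℕ} (q : ℍ[ℝ]) (v : W m) : W m := ⟨actU q v, actU_mem q v.2⟩

/-- The action. -/
noncomputable instance action (m : ℕ) : MulAction SQ (Sph m) where
  smul q x := ⟨actW (q : ℍ[ℝ]) x, by
    have h1 : ‖actU (q : ℍ[ℝ]) ((x : W m) : U m)‖ = 1 := by
      rw [norm_actU (norm_coe q)]
      have : ‖(x : W m)‖ = 1 := by simp
      exact this
    rw [mem_sphere_zero_iff_norm]
    exact h1⟩
  one_smul x := by
    apply Subtype.ext; apply Subtype.ext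
    exact actU_one _
  mul_smul p q x := by
    apply Subtype.ext; apply Subtype.ext
    exact actU_mul _ _ _

lemma smul_coe {m : ℕ} (q : SQ) (x : Sph m) :
    (((q • x : Sph m) : W m) : U m) = actU (q : ℍ[ℝ]) ((x : W m) : U m) := rfl

lemma cd1 (m : ℕ) : ContDiff ℝ ∞ (fun p : ℍ[ℝ] × W m => ((p.2 : W m) : U m)) :=
  (W m).subtypeL.contDiff.comp (contDiff_snd (𝕜 := ℝ) (E := ℍ[ℝ]) (F := W m) (n := ∞))

lemma cd2 (m : ℕ) : ContDiff ℝ ∞ (fun p : ℍ[ℝ] × W m => (p.1, ((p.2 : W m) : U m))) :=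
  (contDiff_fst (𝕜 := ℝ) (E := ℍ[ℝ]) (F := W m) (n := ∞)).prodMk (cd1 m)

lemma cd3 (m : ℕ) : ContDiff ℝ ∞ (fun p : ℍ[ℝ] × W m => actU p.1 ((p.2 : W m) : U m)) := by
  have h := (contDiff_actU (m := m) (n := ∞)).comp (cd2 m)
  have h2 : ((fun p : ℍ[ℝ] × U m => actU p.1 p.2) ∘
      fun p : ℍ[ℝ] × W m => (p.1, ((p.2 : W m) : U m))) =
      fun p : ℍ[ℝ] × W m => actU p.1 ((p.2 : W m) : U m) := rfl
  rw [h2] at h
  exact h

lemma cd4 (m : ℕ) : ContDiff ℝ ∞ (fun p : ℍ[ℝ] × W m =>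
    (W m).orthogonalProjectionOnto (actU p.1 ((p.2 : W m) : U m))) := by
  have h := ((W m).orthogonalProjectionOnto.contDiff (n := ∞)).comp (cd3 m)
  exact h

lemma cd5 (m : ℕ) : ContMDiff ((𝓡 3).prod (𝓡 (4 * m + 2))) 𝓘(ℝ, ℍ[ℝ] × W m) ∞
    (fun p : SQ × Sph m => ((p.1 : ℍ[ℝ]), (p.2 : W m))) := by
  have h6 : ContMDiff ((𝓡 3).prod (𝓡 (4 * m + 2))) 𝓘(ℝ, ℍ[ℝ]) ∞
      (fun p : SQ × Sph m => (p.1 : ℍ[ℝ])) :=
    (contMDiff_coe_sphere (m := ∞) (E := ℍ[ℝ]) (n := 3)).comp contMDiff_fst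
  have h7 : ContMDiff ((𝓡 3).prod (𝓡 (4 * m + 2))) 𝓘(ℝ, W m) ∞
      (fun p : SQ × Sph m => (p.2 : W m)) :=
    (contMDiff_coe_sphere (m := ∞) (E := W m) (n := 4 * m + 2)).comp contMDiff_snd
  exact h6.prodMk_space h7

lemma contMDiff_act (m : ℕ) :
    ContMDiff ((𝓡 3).prod (𝓡 (4 * m + 2))) (𝓡 (4 * m + 2)) ∞
      (fun p : SQ × Sph m => p.1 • p.2) := by
  have h1 : ContMDiff ((𝓡 3).prod (𝓡 (4 * m + 2))) 𝓘(ℝ, W m) ∞
      (fun p : SQ × Sph m => actW (p.1 : ℍ[ℝ]) (p.2 : W m)) := by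
    have h2 : (fun p : SQ × Sph m => actW (p.1 : ℍ[ℝ]) (p.2 : W m)) =
        fun p : SQ × Sph m => (W m).orthogonalProjectionOnto
          (actU (p.1 : ℍ[ℝ]) ((p.2 : W m) : U m)) := by
      funext p
      exact ((W m).orthogonalProjectionOnto_mem_subspace_eq_self
        (actW (p.1 : ℍ[ℝ]) (p.2 : W m))).symm
    rw [h2]
    have h := (cd4 m).contMDiff.comp (cd5 m)
    exact h
  exact ContMDiff.codRestrict_sphere h1 _

end Q196.SS
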