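import Pool.Agent.Q196.SingleSing

/-! Orbit structure of the action of the unit quaternions on the sphere of `ℝ³ ⊕ ℍ^m`. -/

open scoped Manifold ContDiff Topology RealInnerProductSpace Quaternion
open Module Metric

namespace Q196.SS

open Q196.Round Q196.GMan Q196.SphAct Q196.UQ Pool.Agent.H839R2.Stmt

variable {m : ℕ}

/-- coordinates of a point of the sphere -/
noncomputable def co (x : Sph m) (i : Fin (m + 1)) : ℍ[ℝ] := ((x : W m) : U m) i

lemma co_smul_zero (q : SQ) (x : Sph m) : co (q • x) 0 = q * co x 0 * star (q : ℍ[ℝ]) :=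
  actU_zero _ _

lemma co_smul_ne (q : SQ) (x : Sph m) {i : Fin (m + 1)} (hi : i ≠ 0) :
    co (q • x) i = q * co x i := actU_ne _ _ hi

lemma ext_co {x y : Sph m} (h : ∀ i, co x i = co y i) : x = y := by
  apply Subtype.ext; apply Subtype.ext; ext1 i; exact h i

lemma co_re (x : Sph m) : (co x 0).re = 0 := (x : W m).2

/-- free points -/
def Free (x : Sph m) : Prop := ∃ i, i ≠ 0 ∧ co x i ≠ 0

lemma stab_of_free {x : Sph m} (hx : Free x) {q : SQ} (hq : q • x = x) : q = 1 := by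
  obtain ⟨i, hi, hne⟩ := hx
  have h := co_smul_ne q x hi
  rw [hq] at h
  apply Subtype.ext
  have h2 : (1 : ℍ[ℝ]) * co x i = (q : ℍ[ℝ]) * co x i := by rw [one_mul]; exact h
  exact (mul_right_cancel₀ hne h2).symm

lemma co_zero_of_not_free {x : Sph m} (hx : ¬ Free x) {i : Fin (m + 1)} (hi : i ≠ 0) :
    co x i = 0 := by
  by_contra h; exact hx ⟨i, hi, h⟩

lemma norm_co_of_not_free {x : Sph m} (hx : ¬ Free x) : ‖co x 0‖ = 1 := by
  have h1 : ‖((x : W m) : U m)‖ = 1 := by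
    have : ‖(x : W m)‖ = 1 := by simp
    exact this
  have h2 := PiLp.norm_sq_eq_of_L2 (fun _ : Fin (m + 1) => ℍ[ℝ]) ((x : W m) : U m)
  rw [h1, Fin.sum_univ_succ] at h2
  have h3 : ∀ i : Fin m, ((x : W m) : U m) i.succ = 0 := fun i =>
    co_zero_of_not_free hx (Fin.succ_ne_zero i)
  simp only [h3] at h2
  have h4 : ‖co x 0‖ ^ 2 = 1 := by
    change ‖((x : W m) : U m) 0‖ ^ 2 = 1
    simp at h2
    exact h2.symm
  have := norm_nonneg (co x 0)
  nlinarith

/-- a fixed element of the isotropy group of a non-free point -/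
lemma exists_stab {x : Sph m} (hx : ¬ Free x) : ∃ q : SQ, q ≠ 1 ∧ q • x = x := by
  have hn := norm_co_of_not_free hx
  refine ⟨⟨co x 0, by simpa using hn⟩, ?_, ?_⟩
  · intro h
    have h1 : co x 0 = 1 := congrArg Subtype.val h
    have h2 := co_re x
    rw [h1] at h2
    simp at h2
  · apply ext_co
    intro i
    by_cases hi : i = 0
    · subst hi
      rw [co_smul_zero]
      change co x 0 * co x 0 * star (co x 0) = co x 0
      rw [mul_assoc, Quaternion.self_mul_star, Quaternion.normSq_eq_norm_mul_self, hn]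
      simp
    · rw [co_smul_ne _ _ hi, co_zero_of_not_free hx hi, mul_zero]

/-- a free point -/
lemma exists_free (hm : 1 ≤ m) : ∃ x : Sph m, Free x := by
  let i0 : Fin (m + 1) := ⟨1, by omega⟩
  have hi0 : i0 ≠ 0 := by simp [i0, Fin.ext_iff]
  let u : U m := PiLp.single 2 i0 (1 : ℍ[ℝ])
  have hu0 : u 0 = 0 := by simp [u, hi0.symm]
  have hu1 : u i0 = 1 := by simp [u]
  have hmem : u ∈ W m := by rw [mem_W, hu0]; simp
  have hn : ‖u‖ = 1 := by simp [u]
  refine ⟨⟨⟨u, hmem⟩, by rw [mem_sphere_zero_iff_norm]; exact hn⟩, i0, hi0, ?_⟩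
  change u i0 ≠ 0
  rw [hu1]; exact one_ne_zero

lemma isPrincipal_of_free {x : Sph m} (hx : Free x) : IsPrincipal SQ x := by
  intro y
  refine ⟨1, fun h hh => ?_⟩
  have : h = 1 := stab_of_free hx hh
  rw [this]; simp

lemma free_of_isPrincipal (hm : 1 ≤ m) {x : Sph m} (hx : IsPrincipal SQ x) : Free x := by
  by_contra hf
  obtain ⟨q, hq1, hq⟩ := exists_stab hf
  obtain ⟨y, hy⟩ := exists_free hm
  obtain ⟨a, ha⟩ := hx y
  have h1 : a * q * a⁻¹ = 1 := stab_of_free hy (ha q hq)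
  apply hq1
  have h2 : a * q = a := by
    have := congrArg (· * a) h1
    simpa using this
  simpa using h2

lemma isPrincipal_iff (hm : 1 ≤ m) (x : Sph m) : IsPrincipal SQ x ↔ Free x :=
  ⟨free_of_isPrincipal hm, isPrincipal_of_free⟩

/-! ### Transitivity on the non-free points -/

/-- the quaternion `i` -/
def qI : ℍ[ℝ] := ⟨0, 1, 0, 0⟩
/-- the quaternion `j` -/
def qJ : ℍ[ℝ] := ⟨0, 0, 1, 0⟩

@[simp] lemma qI_re : qI.re = 0 := rfl
@[simp] lemma qI_imI : qI.imI = 1 := rfl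
@[simp] lemma qI_imJ : qI.imJ = 0 := rfl
@[simp] lemma qI_imK : qI.imK = 0 := rfl
@[simp] lemma qJ_re : qJ.re = 0 := rfl
@[simp] lemma qJ_imI : qJ.imI = 0 := rfl
@[simp] lemma qJ_imJ : qJ.imJ = 1 := rfl
@[simp] lemma qJ_imK : qJ.imK = 0 := rfl

lemma norm_qI : ‖qI‖ = 1 := by
  have : Quaternion.normSq qI = 1 := by simp [Quaternion.normSq_def']
  rw [Quaternion.normSq_eq_norm_mul_self] at this
  nlinarith [norm_nonneg qI]

lemma norm_qJ : ‖qJ‖ = 1 := by
  have : Quaternion.normSq qJ = 1 := by simp [Quaternion.normSq_def']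
  rw [Quaternion.normSq_eq_norm_mul_self] at this
  nlinarith [norm_nonneg qJ]

lemma conj_to_i {p : ℍ[ℝ]} (hp : p.re = 0) (hn : ‖p‖ = 1) :
    ∃ q : SQ, (q : ℍ[ℝ]) * p * star (q : ℍ[ℝ]) = qI := by
  set e : ℍ[ℝ] := qI with he
  have hee : e * e = -1 := by ext <;> simp [he]
  have hpp : p * p = -1 := by
    have h1 : star p = -p := Quaternion.star_eq_neg.mpr hp
    have h2 := Quaternion.self_mul_star p
    rw [h1, Quaternion.normSq_eq_norm_mul_self, hn] at h2
    have h3 : p * p = -(p * -p) := by rw [mul_neg, neg_neg]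
    rw [h3, h2]; simp
  by_cases hpe : p = -e
  · refine ⟨⟨qJ, by simpa using norm_qJ⟩, ?_⟩
    change qJ * p * star qJ = e
    rw [hpe]
    ext <;> simp [he]
  · have h1 : (1 : ℍ[ℝ]) - e * p ≠ 0 := by
      intro h
      apply hpe
      have h2 : e * (1 - e * p) = 0 := by rw [h, mul_zero]
      rw [mul_sub, mul_one, ← mul_assoc, hee, neg_mul, one_mul, sub_neg_eq_add] at h2
      exact (neg_eq_of_add_eq_zero_right h2).symm
    set r : ℍ[ℝ] := 1 - e * p with hr
    have hrp : r * p = e * r := by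
      rw [hr, sub_mul, one_mul, mul_assoc, hpp, mul_sub, ← mul_assoc, hee]
      simp [add_comm]
    have hN : ‖r‖ ≠ 0 := by simpa using h1
    set q : ℍ[ℝ] := (‖r‖⁻¹ : ℝ) • r with hq
    have hqn : ‖q‖ = 1 := by
      rw [hq, norm_smul]; simp [hN]
    refine ⟨⟨q, by simpa using hqn⟩, ?_⟩
    change q * p * star q = e
    have h3 : q * p = e * q := by
      rw [hq, smul_mul_assoc, hrp, mul_smul_comm]
    rw [h3, mul_assoc, Quaternion.self_mul_star, Quaternion.normSq_eq_norm_mul_self, hqn]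
    simp

lemma star_mul_self_coe (q : SQ) : star (q : ℍ[ℝ]) * (q : ℍ[ℝ]) = 1 := by
  rw [Quaternion.star_mul_self, Quaternion.normSq_eq_norm_mul_self, norm_coe]
  simp

lemma transitive {x y : Sph m} (hx : ¬ Free x) (hy : ¬ Free y) : ∃ q : SQ, q • x = y := by
  obtain ⟨a, ha⟩ := conj_to_i (co_re x) (norm_co_of_not_free hx)
  obtain ⟨b, hb⟩ := conj_to_i (co_re y) (norm_co_of_not_free hy)
  have h1 : a • x = b • y := by
    apply ext_co
    intro i
    by_cases hi : i = 0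
    · subst hi
      rw [co_smul_zero, co_smul_zero, ha, hb]
    · rw [co_smul_ne _ _ hi, co_smul_ne _ _ hi, co_zero_of_not_free hx hi,
        co_zero_of_not_free hy hi, mul_zero, mul_zero]
  refine ⟨b⁻¹ * a, ?_⟩
  have h2 : (b⁻¹ * a) • x = b⁻¹ • (a • x) := mul_smul _ _ _
  have h3 : b⁻¹ • (b • y) = y := inv_smul_smul b y
  rw [h2, h1, h3]

/-- a non-free point -/
lemma exists_not_free (m : ℕ) : ∃ x : Sph m, ¬ Free x := by
  let u : U m := PiLp.single 2 0 qI
  have hu0 : u 0 = qI := by simp [u]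
  have hmem : u ∈ W m := by rw [mem_W, hu0]; rfl
  have hn : ‖u‖ = 1 := by simp [u, norm_qI]
  refine ⟨⟨⟨u, hmem⟩, by rw [mem_sphere_zero_iff_norm]; exact hn⟩, ?_⟩
  rintro ⟨i, hi, h⟩
  apply h
  change u i = 0
  simp [u, hi]

end Q196.SS
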