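import Pool.Agent.Q196.SingleSing2

/-! Orbit dimensions and invariance of the round metric. -/

open scoped Manifold ContDiff Topology RealInnerProductSpace Quaternion
open Module Metric

namespace Q196.SS

open Q196.Round Q196.GMan Q196.SphAct Q196.UQ Pool.Agent.H839R2.Stmt

variable {m : ℕ}

lemma contDiff_orb (v : U m) : ContDiff ℝ ∞ (fun q : ℍ[ℝ] => actU q v) := by
  have h := (contDiff_actU (m := m) (n := ∞)).comp (contDiff_prodMk_left v)
  exact h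

lemma diff_orb (v : U m) (q : ℍ[ℝ]) : DifferentiableAt ℝ (fun q : ℍ[ℝ] => actU q v) q :=
  ((contDiff_orb v).differentiable (by simp)).differentiableAt

lemma fderiv_orb_ne (v : U m) {i : Fin (m + 1)} (hi : i ≠ 0) (z : ℍ[ℝ]) :
    (fderiv ℝ (fun q : ℍ[ℝ] => actU q v) 1 z) i = z * v i := by
  have h1 := (PiLp.proj 2 (𝕜 := ℝ) (fun _ : Fin (m + 1) => ℍ[ℝ]) i).hasFDerivAt.comp 1
    (diff_orb v 1).hasFDerivAt
  have h2 : ((PiLp.proj 2 (𝕜 := ℝ) (fun _ : Fin (m + 1) => ℍ[ℝ]) i) ∘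
      fun q : ℍ[ℝ] => actU q v) = fun q => q * v i := by
    funext q; exact actU_ne q v hi
  rw [h2] at h1
  have h3 : HasFDerivAt (fun q : ℍ[ℝ] => q * v i)
      ((ContinuousLinearMap.mul ℝ ℍ[ℝ]).flip (v i)) 1 :=
    ((ContinuousLinearMap.mul ℝ ℍ[ℝ]).flip (v i)).hasFDerivAt
  have h4 := congrArg (fun T : ℍ[ℝ] →L[ℝ] ℍ[ℝ] => T z) (h1.unique h3)
  exact h4

lemma fderiv_orb_zero (v : U m) (z : ℍ[ℝ]) :
    (fderiv ℝ (fun q : ℍ[ℝ] => actU q v) 1 z) 0 = z * v 0 + v 0 * star z := by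
  have h1 := (PiLp.proj 2 (𝕜 := ℝ) (fun _ : Fin (m + 1) => ℍ[ℝ]) 0).hasFDerivAt.comp 1
    (diff_orb v 1).hasFDerivAt
  have h2 : ((PiLp.proj 2 (𝕜 := ℝ) (fun _ : Fin (m + 1) => ℍ[ℝ]) 0) ∘
      fun q : ℍ[ℝ] => actU q v) = fun q => (q * v 0) * star q := by
    funext q; exact actU_zero q v
  rw [h2] at h1
  have h3 : HasFDerivAt (fun q : ℍ[ℝ] => q * v 0)
      ((ContinuousLinearMap.mul ℝ ℍ[ℝ]).flip (v 0)) 1 :=
    ((ContinuousLinearMap.mul ℝ ℍ[ℝ]).flip (v 0)).hasFDerivAt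
  have h5 : HasFDerivAt (fun q : ℍ[ℝ] => star q) starQ 1 := starQ.hasFDerivAt
  have h6 := h3.mul' h5
  have h4 := congrArg (fun T : ℍ[ℝ] →L[ℝ] ℍ[ℝ] => T z) (h1.unique h6)
  refine Eq.trans h4 ?_
  simp [add_comm]

lemma one_coe : ((1 : SQ) : ℍ[ℝ]) = 1 := rfl

lemma range_dInc_one (z : ℍ[ℝ]) (hz : z.re = 0) :
    ∃ ξ : EuclideanSpace ℝ (Fin 3), dInc (n := 3) (1 : SQ) ξ = z := by
  have h := range_dInc (n := 3) (1 : SQ)
  have h1 : z ∈ (ℝ ∙ ((1 : SQ) : ℍ[ℝ]))ᗮ := by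
    rw [Submodule.mem_orthogonal_singleton_iff_inner_left, Quaternion.inner_def, one_coe]
    simp [hz]
  rw [← h] at h1
  obtain ⟨ξ, hξ⟩ := h1
  exact ⟨ξ, hξ⟩

lemma dInc_one_re (ξ : EuclideanSpace ℝ (Fin 3)) : (dInc (n := 3) (1 : SQ) ξ).re = 0 := by
  have h := range_dInc (n := 3) (1 : SQ)
  have h1 : dInc (n := 3) (1 : SQ) ξ ∈ (ℝ ∙ ((1 : SQ) : ℍ[ℝ]))ᗮ := by
    rw [← h]; exact ⟨ξ, rfl⟩
  rw [Submodule.mem_orthogonal_singleton_iff_inner_left, Quaternion.inner_def, one_coe] at h1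
  simpa using h1

lemma mdiff_orb (x : Sph m) : MDifferentiableAt (𝓡 3) (𝓡 (4 * m + 2)) (fun a : SQ => a • x) 1 := by
  have h1 : ContMDiff (𝓡 3) ((𝓡 3).prod (𝓡 (4 * m + 2))) ∞ (fun a : SQ => (a, x)) :=
    contMDiff_id.prodMk contMDiff_const
  have h2 := (contMDiff_act m).comp h1
  exact h2.mdifferentiableAt (by simp)

lemma mdiff_coe (q : SQ) : MDifferentiableAt (𝓡 3) 𝓘(ℝ, ℍ[ℝ]) (fun q : SQ => (q : ℍ[ℝ])) q :=
  (contMDiff_coe_sphere (m := ∞) (E := ℍ[ℝ]) (n := 3)).mdifferentiableAt (by simp)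

lemma orbitDim_free {x : Sph m} (hx : Free x) :
    orbitDim (𝓡 3) SQ (𝓡 (4 * m + 2)) x = 3 := by
  have h := orbitDim_eq (G := SQ) (IG := 𝓡 3) (x := x) (mdiff_orb x) (mdiff_coe 1)
    (A := fun q : ℍ[ℝ] => actU q ((x : W m) : U m)) (diff_orb _ _) (W m).subtypeL
    (fun a => smul_coe a x) ?_
  · rw [h]; simp
  · intro ξ hξ
    obtain ⟨i, hi, hne⟩ := hx
    have h1 : fderiv ℝ (fun q : ℍ[ℝ] => actU q ((x : W m) : U m)) 1
        (dInc (n := 3) (1 : SQ) ξ) = 0 := hξ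
    have h2 := fderiv_orb_ne ((x : W m) : U m) hi (dInc (n := 3) (1 : SQ) ξ)
    rw [h1] at h2
    have h3 : dInc (n := 3) (1 : SQ) ξ * co x i = 0 := h2.symm
    have h4 : dInc (n := 3) (1 : SQ) ξ = 0 := by
      rcases mul_eq_zero.mp h3 with h | h
      · exact h
      · exact absurd h hne
    exact dInc_injective _ (h4.trans (map_zero _).symm)

lemma orbitDim_not_free {x : Sph m} (hx : ¬ Free x) :
    orbitDim (𝓡 3) SQ (𝓡 (4 * m + 2)) x < 3 := by
  have h := orbitDim_lt (G := SQ) (IG := 𝓡 3) (x := x) (mdiff_orb x) (mdiff_coe 1)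
    (A := fun q : ℍ[ℝ] => actU q ((x : W m) : U m)) (diff_orb _ _) (W m).subtypeL
    Subtype.val_injective (fun a => smul_coe a x) ?_
  · simpa using h
  · obtain ⟨ξ, hξ⟩ := range_dInc_one (co x 0) (co_re x)
    refine ⟨ξ, ?_, ?_⟩
    · intro h0
      rw [h0, map_zero] at hξ
      have := norm_co_of_not_free hx
      rw [← hξ] at this
      simp at this
    · change fderiv ℝ (fun q : ℍ[ℝ] => actU q ((x : W m) : U m)) 1
        (dInc (n := 3) (1 : SQ) ξ) = 0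
      rw [hξ]
      ext1 i
      by_cases hi : i = 0
      · subst hi
        rw [fderiv_orb_zero]
        have h1 : star (co x 0) = - co x 0 := Quaternion.star_eq_neg.mpr (co_re x)
        rw [h1]
        change co x 0 * co x 0 + co x 0 * -co x 0 = 0
        simp
      · rw [fderiv_orb_ne _ hi]
        change co x 0 * co x i = 0
        rw [co_zero_of_not_free hx hi, mul_zero]

/-- the linear isometry -/
noncomputable def actLI (q : ℍ[ℝ]) (hq : ‖q‖ = 1) : U m →ₗᵢ[ℝ] U m where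
  toFun := actU q
  map_add' := actU_add q
  map_smul' c v := actU_smul q c v
  norm_map' v := norm_actU hq v

lemma mdiff_act (a : SQ) (x : Sph m) :
    MDifferentiableAt (𝓡 (4 * m + 2)) (𝓡 (4 * m + 2)) (fun y : Sph m => a • y) x := by
  have h1 : ContMDiff (𝓡 (4 * m + 2)) ((𝓡 3).prod (𝓡 (4 * m + 2))) ∞
      (fun y : Sph m => (a, y)) := contMDiff_const.prodMk contMDiff_id
  have h2 := (contMDiff_act m).comp h1
  exact h2.mdifferentiableAt (by simp)

lemma dInc_act (a : SQ) (x : Sph m) (v : EuclideanSpace ℝ (Fin (4 * m + 2))) :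
    ((dInc (n := 4 * m + 2) (a • x)
      (mfderiv (𝓡 (4 * m + 2)) (𝓡 (4 * m + 2)) (fun y : Sph m => a • y) x v) : W m) : U m) =
      actU (a : ℍ[ℝ]) ((dInc (n := 4 * m + 2) x v : W m) : U m) := by
  have hj : MDifferentiableAt (𝓡 (4 * m + 2)) 𝓘(ℝ, W m) (fun y : Sph m => (y : W m)) x :=
    (contMDiff_coe_sphere (m := ∞) (E := W m) (n := 4 * m + 2)).mdifferentiableAt (by simp)
  let A : W m →L[ℝ] U m := (actLI (m := m) (a : ℍ[ℝ]) (norm_coe a)).toContinuousLinearMap.comp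
    (W m).subtypeL
  have h := mfderiv_formula (mdiff_act a x) hj (A := A) A.differentiableAt (W m).subtypeL
    (fun y => smul_coe a y) v
  rw [A.fderiv] at h
  exact h

theorem invariant_round (m : ℕ) (c : ℝ) (hc : 0 < c) :
    IsInvariant SQ (roundMetric (V := W m) (n := 4 * m + 2) c hc) := by
  intro a x v w
  rw [roundMetric_inner, roundMetric_inner]
  congr 1
  have h1 : ∀ p q : W m, (⟪p, q⟫ : ℝ) = ⟪(p : U m), (q : U m)⟫ := fun p q => rfl
  rw [h1, h1]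
  have h2 := dInc_act a x v
  have h3 := dInc_act a x w
  rw [h2, h3]
  exact (actLI (m := m) (a : ℍ[ℝ]) (norm_coe a)).inner_map_map _ _

theorem hasCohomogeneity (m : ℕ) (hm : 1 ≤ m) :
    HasCohomogeneity (𝓡 3) SQ (𝓡 (4 * m + 2)) (Sph m) (4 * m - 1) := by
  obtain ⟨x, hx⟩ := exists_free hm
  refine ⟨⟨x, isPrincipal_of_free hx⟩, fun y hy => ?_⟩
  rw [orbitDim_free (free_of_isPrincipal hm hy), finrank_euclideanSpace_fin]
  omega

lemma isSingular_iff (hm : 1 ≤ m) (x : Sph m) :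
    IsSingular (𝓡 3) SQ (𝓡 (4 * m + 2)) x ↔ ¬ Free x := by
  constructor
  · intro h hf
    have := h x (isPrincipal_of_free hf)
    exact lt_irrefl _ this
  · intro h y hy
    rw [orbitDim_free (free_of_isPrincipal hm hy)]
    exact orbitDim_not_free h

lemma orbit_eq {x y : Sph m} (hx : ¬ Free x) (hy : ¬ Free y) :
    MulAction.orbit SQ x = MulAction.orbit SQ y := by
  rw [MulAction.orbit_eq_iff]
  obtain ⟨q, hq⟩ := transitive hy hx
  exact ⟨q, hq⟩

theorem finite_nonPrincipal (m : ℕ) : (nonPrincipalOrbits SQ (Sph m)).Finite := by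
  obtain ⟨x, hx⟩ := exists_not_free m
  refine (Set.finite_singleton (MulAction.orbit SQ x)).subset ?_
  rintro o ⟨y, hy, rfl⟩
  exact orbit_eq (fun h => hy (isPrincipal_of_free h)) hx

theorem unique_singular (m : ℕ) (hm : 1 ≤ m) :
    ∃! o, o ∈ singularOrbits (𝓡 3) SQ (𝓡 (4 * m + 2)) (Sph m) := by
  obtain ⟨x, hx⟩ := exists_not_free m
  refine ⟨MulAction.orbit SQ x, ⟨x, (isSingular_iff hm x).mpr hx, rfl⟩, ?_⟩
  rintro o ⟨y, hy, rfl⟩
  exact orbit_eq ((isSingular_iff hm y).mp hy) hx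

instance connected (m : ℕ) : ConnectedSpace (Sph m) := by
  rw [← isConnected_iff_connectedSpace]
  apply isConnected_sphere _ _ zero_le_one
  rw [← finrank_eq_rank, finrank_W]
  have : 1 < 4 * m + 2 + 1 := by omega
  exact_mod_cast this

end Q196.SS
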