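import Pool.Agent.Q196.RoundDiam
import Pool.Agent.Q196.SingleSing2

/-! The action `(g, t) · (v, w) = (g v, g w t⁻¹)` of `SU(2) × U(1)` on `S⁷ ⊂ ℍ²`. -/

open scoped Manifold ContDiff Topology RealInnerProductSpace Quaternion
open Module Metric

namespace Q196.TS

open Q196.Round Q196.GMan Q196.SphAct Q196.UQ Q196.SS Pool.Agent.H839R2.Stmt

attribute [local instance] finrank_real_complex_fact'

/-- `ℍ²`. -/
abbrev X : Type := PiLp 2 (fun _ : Fin 2 => ℍ[ℝ])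

lemma finrank_X : finrank ℝ X = 7 + 1 := by
  rw [(WithLp.linearEquiv 2 ℝ (Fin 2 → ℍ[ℝ])).finrank_eq, Module.finrank_pi_fintype]
  simp [Quaternion.finrank_eq_four]

instance factX : Fact (finrank ℝ X = 7 + 1) := ⟨finrank_X⟩

/-- The group `SU(2) × U(1)`. -/
abbrev GG : Type := SQ × Circle

noncomputable instance grpGG : Group GG := Prod.instGroup

noncomputable instance (priority := 2000) monGG : Monoid GG := grpGG.toDivInvMonoid.toMonoid

/-- the complex numbers as quaternions, as a continuous linear map -/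
noncomputable def cq : ℂ →L[ℝ] ℍ[ℝ] :=
  LinearMap.toContinuousLinearMap
    { toFun := fun z => (z : ℍ[ℝ])
      map_add' := fun z w => by ext <;> simp
      map_smul' := fun c z => by ext <;> simp }

lemma cq_apply (z : ℂ) : cq z = (z : ℍ[ℝ]) := rfl

lemma cq_mul (z w : ℂ) : cq (z * w) = cq z * cq w := by
  simp only [cq_apply, Quaternion.coeComplex_mul]

lemma cq_one : cq 1 = 1 := by rw [cq_apply, Quaternion.coeComplex_one]

lemma cq_injective : Function.Injective cq := by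
  intro z w h
  have h1 := congrArg QuaternionAlgebra.re h
  have h2 := congrArg QuaternionAlgebra.imI h
  apply Complex.ext
  · simpa [cq_apply] using h1
  · simpa [cq_apply] using h2

lemma norm_cq (t : Circle) : ‖cq (t : ℂ)‖ = 1 := by
  have h : Quaternion.normSq (cq (t : ℂ)) = 1 := by
    have h1 : Complex.normSq (t : ℂ) = 1 := by simp
    rw [Complex.normSq_apply] at h1
    rw [Quaternion.normSq_def']
    simp only [cq_apply, Quaternion.re_coeComplex, Quaternion.imI_coeComplex,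
      Quaternion.imJ_coeComplex, Quaternion.imK_coeComplex]
    nlinarith
  rw [Quaternion.normSq_eq_norm_mul_self] at h
  nlinarith [norm_nonneg (cq (t : ℂ))]

/-- ambient formula: `(q, z) ↦ (q v, q w z̄)` -/
noncomputable def actX (q : ℍ[ℝ]) (z : ℍ[ℝ]) (v : X) : X :=
  WithLp.toLp 2 (fun i => if i = 0 then q * v 0 else q * v 1 * star z)

lemma actX_zero (q z : ℍ[ℝ]) (v : X) : actX q z v 0 = q * v 0 := by simp [actX]
lemma actX_one (q z : ℍ[ℝ]) (v : X) : actX q z v 1 = q * v 1 * star z := by simp [actX]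

lemma ext2 {v w : X} (h0 : v 0 = w 0) (h1 : v 1 = w 1) : v = w := by
  ext1 i; fin_cases i
  · exact h0
  · exact h1

lemma actX_id (v : X) : actX 1 1 v = v := by
  apply ext2
  · rw [actX_zero, one_mul]
  · rw [actX_one, one_mul, star_one, mul_one]

lemma actX_comp (p q y z : ℍ[ℝ]) (v : X) : actX (p * q) (y * z) v = actX p y (actX q z v) := by
  apply ext2
  · rw [actX_zero, actX_zero, actX_zero, mul_assoc]
  · rw [actX_one, actX_one, actX_one, star_mul]; simp only [mul_assoc]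

lemma actX_add (q z : ℍ[ℝ]) (v w : X) : actX q z (v + w) = actX q z v + actX q z w := by
  apply ext2
  · simp only [actX_zero, PiLp.add_apply, mul_add]
  · simp only [actX_one, PiLp.add_apply, mul_add, add_mul]

lemma actX_smul (q z : ℍ[ℝ]) (c : ℝ) (v : X) : actX q z (c • v) = c • actX q z v := by
  apply ext2
  · simp only [actX_zero, PiLp.smul_apply, mul_smul_comm]
  · simp only [actX_one, PiLp.smul_apply, mul_smul_comm, smul_mul_assoc]

lemma norm_actX {q z : ℍ[ℝ]} (hq : ‖q‖ = 1) (hz : ‖z‖ = 1) (v : X) : ‖actX q z v‖ = ‖v‖ := by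
  rw [PiLp.norm_eq_of_L2, PiLp.norm_eq_of_L2]
  congr 1
  rw [Fin.sum_univ_two, Fin.sum_univ_two]
  have h0 : ‖actX q z v 0‖ = ‖v 0‖ := by rw [actX_zero]; simp [hq]
  have h1 : ‖actX q z v 1‖ = ‖v 1‖ := by rw [actX_one]; simp [hq, hz]
  rw [h0, h1]

lemma contDiff_actX {n : WithTop ℕ∞} :
    ContDiff ℝ n (fun p : (ℍ[ℝ] × ℍ[ℝ]) × X => actX p.1.1 p.1.2 p.2) := by
  rw [contDiff_piLp]
  intro i
  have hc : ∀ k, ContDiff ℝ n (fun p : (ℍ[ℝ] × ℍ[ℝ]) × X => p.2 k) := fun k =>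
    (contDiff_piLp_apply (p := 2) (i := k)).comp contDiff_snd
  have h1 : ContDiff ℝ n (fun p : (ℍ[ℝ] × ℍ[ℝ]) × X => p.1.1) := contDiff_fst.comp contDiff_fst
  have h2 : ContDiff ℝ n (fun p : (ℍ[ℝ] × ℍ[ℝ]) × X => p.1.2) := contDiff_snd.comp contDiff_fst
  fin_cases i
  · have h3 : (fun p : (ℍ[ℝ] × ℍ[ℝ]) × X => actX p.1.1 p.1.2 p.2 0) =
        fun p => p.1.1 * p.2 0 := by
      funext p; exact actX_zero _ _ _
    have h4 := h1.mul (hc 0)
    rw [← h3] at h4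
    exact h4
  · have h3 : (fun p : (ℍ[ℝ] × ℍ[ℝ]) × X => actX p.1.1 p.1.2 p.2 1) =
        fun p => p.1.1 * p.2 1 * star p.1.2 := by
      funext p; exact actX_one _ _ _
    have h4 := (h1.mul (hc 1)).mul (contDiff_starQ.comp h2)
    have h5 : (fun p : (ℍ[ℝ] × ℍ[ℝ]) × X => actX p.1.1 p.1.2 p.2 1) =
      (fun p : (ℍ[ℝ] × ℍ[ℝ]) × X => p.1.1 * p.2 1 * (star ∘ fun p : (ℍ[ℝ] × ℍ[ℝ]) × X => p.1.2) p) := h3
    rw [← h5] at h4
    exact h4

/-- The unit sphere `S⁷`. -/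
abbrev S7 : Type := sphere (0 : X) 1

/-- The action. -/
noncomputable instance action7 : MulAction GG S7 where
  smul a x := ⟨actX (a.1 : ℍ[ℝ]) (cq a.2) x, by
    rw [mem_sphere_zero_iff_norm, norm_actX (UQ.norm_coe a.1) (norm_cq a.2)]
    simp⟩
  one_smul x := by
    apply Subtype.ext
    change actX ((1 : SQ) : ℍ[ℝ]) (cq ((1 : Circle) : ℂ)) x = x
    rw [Circle.coe_one, cq_one]
    exact actX_id _
  mul_smul a b x := by
    apply Subtype.ext
    change actX ((a.1 * b.1 : SQ) : ℍ[ℝ]) (cq ((a.2 * b.2 : Circle) : ℂ)) x = _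
    rw [Circle.coe_mul, cq_mul]
    exact actX_comp _ _ _ _ _

lemma smul_coe7 (a : GG) (x : S7) :
    ((a • x : S7) : X) = actX (a.1 : ℍ[ℝ]) (cq a.2) (x : X) := rfl

lemma cdA : ContMDiff ((𝓡 3).prod (𝓡 1)) 𝓘(ℝ, ℍ[ℝ] × ℍ[ℝ]) ∞
    (fun a : GG => ((a.1 : ℍ[ℝ]), cq a.2)) := by
  have h1 : ContMDiff ((𝓡 3).prod (𝓡 1)) 𝓘(ℝ, ℍ[ℝ]) ∞ (fun a : GG => (a.1 : ℍ[ℝ])) :=
    (contMDiff_coe_sphere (m := ∞) (E := ℍ[ℝ]) (n := 3)).comp contMDiff_fst
  have h2 : ContMDiff ((𝓡 3).prod (𝓡 1)) 𝓘(ℝ, ℂ) ∞ (fun a : GG => (a.2 : ℂ)) :=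
    (contMDiff_coe_sphere (m := ∞) (E := ℂ) (n := 1)).comp contMDiff_snd
  have h3 : ContMDiff ((𝓡 3).prod (𝓡 1)) 𝓘(ℝ, ℍ[ℝ]) ∞ (fun a : GG => cq (a.2 : ℂ)) := by
    have h := (cq.contDiff (n := ∞)).contMDiff.comp h2
    exact h
  exact h1.prodMk_space h3

lemma contMDiff_act7 :
    ContMDiff (((𝓡 3).prod (𝓡 1)).prod (𝓡 7)) (𝓡 7) ∞ (fun p : GG × S7 => p.1 • p.2) := by
  have h1 : ContMDiff (((𝓡 3).prod (𝓡 1)).prod (𝓡 7)) 𝓘(ℝ, (ℍ[ℝ] × ℍ[ℝ]) × X) ∞
      (fun p : GG × S7 => (((p.1.1 : ℍ[ℝ]), cq p.1.2), (p.2 : X))) := by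
    have h2 := cdA.comp (contMDiff_fst (I := (𝓡 3).prod (𝓡 1)) (J := 𝓡 7) (M := GG) (N := S7)
      (n := ∞))
    have h3 := (contMDiff_coe_sphere (m := ∞) (E := X) (n := 7)).comp
      (contMDiff_snd (I := (𝓡 3).prod (𝓡 1)) (J := 𝓡 7) (M := GG) (N := S7) (n := ∞))
    exact h2.prodMk_space h3
  have h2 : ContMDiff (((𝓡 3).prod (𝓡 1)).prod (𝓡 7)) 𝓘(ℝ, X) ∞
      (fun p : GG × S7 => actX (p.1.1 : ℍ[ℝ]) (cq p.1.2) (p.2 : X)) := by
    have h := (contDiff_actX (n := ∞)).contMDiff.comp h1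
    exact h
  exact ContMDiff.codRestrict_sphere h2 _

end Q196.TS
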