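import Pool.Agent.Q196.TwoSing

/-! Orbit structure of the action of `SU(2) × U(1)` on `S⁷`. -/

open scoped Manifold ContDiff Topology RealInnerProductSpace Quaternion
open Module Metric

namespace Q196.TS

open Q196.Round Q196.GMan Q196.SphAct Q196.UQ Q196.SS Pool.Agent.H839R2.Stmt

attribute [local instance] finrank_real_complex_fact'

/-- coordinates -/
noncomputable def cx (x : S7) (i : Fin 2) : ℍ[ℝ] := (x : X) i

lemma cx_smul_zero (a : GG) (x : S7) : cx (a • x) 0 = (a.1 : ℍ[ℝ]) * cx x 0 := actX_zero _ _ _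
lemma cx_smul_one (a : GG) (x : S7) :
    cx (a • x) 1 = (a.1 : ℍ[ℝ]) * cx x 1 * star (cq a.2) := actX_one _ _ _

lemma ext_cx {x y : S7} (h0 : cx x 0 = cx y 0) (h1 : cx x 1 = cx y 1) : x = y :=
  Subtype.ext (ext2 h0 h1)

lemma norm_cx (x : S7) : ‖cx x 0‖ ^ 2 + ‖cx x 1‖ ^ 2 = 1 := by
  have h2 := PiLp.norm_sq_eq_of_L2 (fun _ : Fin 2 => ℍ[ℝ]) (x : X)
  have h1 : ‖(x : X)‖ = 1 := by simp
  rw [h1, Fin.sum_univ_two] at h2
  change ‖(x : X) 0‖ ^ 2 + ‖(x : X) 1‖ ^ 2 = 1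
  linarith

/-- a point of `S⁷` from its coordinates -/
noncomputable def mk (v w : ℍ[ℝ]) (h : ‖v‖ ^ 2 + ‖w‖ ^ 2 = 1) : S7 :=
  ⟨WithLp.toLp 2 ![v, w], by
    rw [mem_sphere_zero_iff_norm]
    have h2 := PiLp.norm_sq_eq_of_L2 (fun _ : Fin 2 => ℍ[ℝ]) (WithLp.toLp 2 ![v, w] : X)
    rw [Fin.sum_univ_two] at h2
    have h3 : ‖(WithLp.toLp 2 ![v, w] : X)‖ ^ 2 = 1 := by
      rw [h2, ← h]; rfl
    nlinarith [norm_nonneg (WithLp.toLp 2 ![v, w] : X)]⟩

lemma cx_mk_zero (v w : ℍ[ℝ]) (h : ‖v‖ ^ 2 + ‖w‖ ^ 2 = 1) : cx (mk v w h) 0 = v := rfl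
lemma cx_mk_one (v w : ℍ[ℝ]) (h : ‖v‖ ^ 2 + ‖w‖ ^ 2 = 1) : cx (mk v w h) 1 = w := rfl

/-- free points -/
def Free7 (x : S7) : Prop := cx x 0 ≠ 0 ∧ cx x 1 ≠ 0

lemma mul_star_cq (t : Circle) : star (cq t) * cq t = 1 := by
  rw [Quaternion.star_mul_self, Quaternion.normSq_eq_norm_mul_self, norm_cq]; simp

lemma circle_eq_one_of {t : Circle} {w : ℍ[ℝ]} (hw : w ≠ 0) (h : w * star (cq t) = w) :
    t = 1 := by
  have h1 : star (cq t) = 1 := by
    have h2 : w * star (cq t) = w * 1 := by rw [h, mul_one]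
    exact mul_left_cancel₀ hw h2
  have h3 : cq t = cq 1 := by
    rw [cq_one, ← star_star (cq t), h1, star_one]
  exact Circle.ext (cq_injective h3)

lemma fst_eq_one_of {q : SQ} {v : ℍ[ℝ]} (hv : v ≠ 0) (h : (q : ℍ[ℝ]) * v = v) : q = 1 := by
  apply Subtype.ext
  have h2 : (q : ℍ[ℝ]) * v = 1 * v := by rw [h, one_mul]
  exact mul_right_cancel₀ hv h2

lemma stab_of_free7 {x : S7} (hx : Free7 x) {a : GG} (ha : a • x = x) : a = 1 := by
  have h0 := cx_smul_zero a x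
  have h1 := cx_smul_one a x
  rw [ha] at h0 h1
  have e1 : a.1 = 1 := fst_eq_one_of hx.1 h0.symm
  rw [e1] at h1
  have h2 : cx x 1 * star (cq a.2) = cx x 1 := by
    have : ((1 : SQ) : ℍ[ℝ]) = 1 := rfl
    rw [this, one_mul] at h1
    exact h1.symm
  have e2 : a.2 = 1 := circle_eq_one_of hx.2 h2
  exact Prod.ext e1 e2

lemma free_iff_not (x : S7) : ¬ Free7 x ↔ cx x 0 = 0 ∨ cx x 1 = 0 := by
  unfold Free7; tauto

lemma exists_free7 : ∃ x : S7, Free7 x := by
  have hv : ‖((√2)⁻¹ : ℝ) • (1 : ℍ[ℝ])‖ ^ 2 = 1 / 2 := by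
    rw [norm_smul, norm_one, mul_one, Real.norm_eq_abs, sq_abs, inv_pow,
      Real.sq_sqrt (by norm_num)]
    norm_num
  have h2 : ((√2)⁻¹ : ℝ) • (1 : ℍ[ℝ]) ≠ 0 := by
    intro h
    rw [h] at hv
    norm_num at hv
  refine ⟨mk (((√2)⁻¹ : ℝ) • 1) (((√2)⁻¹ : ℝ) • 1) (by rw [hv]; norm_num), ?_, ?_⟩
  · rw [cx_mk_zero]; exact h2
  · rw [cx_mk_one]; exact h2

/-- the point `(1, 0)` -/
noncomputable def pA : S7 := mk 1 0 (by norm_num)
/-- the point `(0, 1)` -/
noncomputable def pB : S7 := mk 0 1 (by norm_num)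

lemma orbit_A {x : S7} (hx : cx x 1 = 0) : ∃ a : GG, a • pA = x := by
  have h := norm_cx x
  rw [hx] at h
  have h1 : ‖cx x 0‖ = 1 := by
    have : ‖cx x 0‖ ^ 2 = 1 := by simpa using h
    nlinarith [norm_nonneg (cx x 0)]
  refine ⟨(⟨cx x 0, by simpa using h1⟩, 1), ?_⟩
  apply ext_cx
  · rw [cx_smul_zero]
    change cx x 0 * 1 = cx x 0
    rw [mul_one]
  · rw [cx_smul_one, hx]
    change cx x 0 * 0 * _ = 0
    rw [mul_zero, zero_mul]

lemma orbit_B {x : S7} (hx : cx x 0 = 0) : ∃ a : GG, a • pB = x := by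
  have h := norm_cx x
  rw [hx] at h
  have h1 : ‖cx x 1‖ = 1 := by
    have : ‖cx x 1‖ ^ 2 = 1 := by simpa using h
    nlinarith [norm_nonneg (cx x 1)]
  refine ⟨(⟨cx x 1, by simpa using h1⟩, 1), ?_⟩
  apply ext_cx
  · rw [cx_smul_zero, hx]
    change cx x 1 * 0 = 0
    rw [mul_zero]
  · rw [cx_smul_one]
    change cx x 1 * 1 * star (cq ((1 : Circle) : ℂ)) = cx x 1
    rw [Circle.coe_one, cq_one, star_one, mul_one, mul_one]

/-- the isotropy group of `(1, 0)` -/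
lemma stab_A (a : GG) : a • pA = pA ↔ a.1 = 1 := by
  constructor
  · intro h
    have h0 := cx_smul_zero a pA
    rw [h] at h0
    exact fst_eq_one_of (v := 1) one_ne_zero h0.symm
  · intro h
    apply ext_cx
    · rw [cx_smul_zero, h]
      exact one_mul _
    · rw [cx_smul_one]
      change (a.1 : ℍ[ℝ]) * 0 * _ = 0
      rw [mul_zero, zero_mul]

/-- the isotropy group of `(0, 1)` -/
lemma stab_B (a : GG) : a • pB = pB ↔ (a.1 : ℍ[ℝ]) = cq a.2 := by
  constructor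
  · intro h
    have h0 := cx_smul_one a pB
    rw [h] at h0
    have h1 : (1 : ℍ[ℝ]) = (a.1 : ℍ[ℝ]) * 1 * star (cq a.2) := h0
    rw [mul_one] at h1
    have h2 := congrArg (· * cq a.2) h1
    simp only [one_mul, mul_assoc, mul_star_cq, mul_one] at h2
    exact h2.symm
  · intro h
    apply ext_cx
    · rw [cx_smul_zero]
      change (a.1 : ℍ[ℝ]) * 0 = 0
      rw [mul_zero]
    · rw [cx_smul_one, h]
      change cq a.2 * 1 * star (cq a.2) = 1
      rw [mul_one, Quaternion.self_mul_star, Quaternion.normSq_eq_norm_mul_self, norm_cq]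
      simp

lemma isPrincipal_of_free7 {x : S7} (hx : Free7 x) : IsPrincipal GG x := by
  intro y
  refine ⟨1, fun h hh => ?_⟩
  have : h = 1 := stab_of_free7 hx hh
  rw [this]
  simp

lemma stab_nontrivial {x : S7} (hx : ¬ Free7 x) : ∃ a : GG, a ≠ 1 ∧ a • x = x := by
  have hne : (Circle.exp 1 : Circle) ≠ 1 := by
    intro h
    rw [Circle.exp_eq_one] at h
    obtain ⟨n, hn⟩ := h
    have h1 := Real.pi_gt_three
    rcases lt_trichotomy n 0 with h0 | h0 | h0
    · have : (n : ℝ) ≤ -1 := by exact_mod_cast Int.le_sub_one_of_lt h0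
      nlinarith
    · rw [h0] at hn; simp at hn
    · have : (1 : ℝ) ≤ n := by exact_mod_cast h0
      nlinarith
  have key : ∀ p : S7, (∃ a : GG, a ≠ 1 ∧ a • p = p) → (∃ b : GG, b • p = x) →
      ∃ a : GG, a ≠ 1 ∧ a • x = x := by
    rintro p ⟨a, ha1, ha⟩ ⟨b, rfl⟩
    refine ⟨b * a * b⁻¹, ?_, ?_⟩
    · intro h
      apply ha1
      have h2 : b * a = b := by
        have := congrArg (· * b) h
        simpa using this
      simpa using h2
    · have h2 : (b * a * b⁻¹) • (b • p) = b • (a • (b⁻¹ • (b • p))) := by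
        rw [mul_smul, mul_smul]
      rw [h2, inv_smul_smul, ha]
  rcases (free_iff_not x).mp hx with h | h
  · refine key pB ⟨(⟨cq (Circle.exp 1), mem_sphere_zero_iff_norm.mpr (norm_cq _)⟩, Circle.exp 1), ?_, ?_⟩
      (orbit_B h)
    · intro h1
      exact hne (congrArg Prod.snd h1)
    · rw [stab_B]
  · refine key pA ⟨(1, Circle.exp 1), ?_, ?_⟩ (orbit_A h)
    · intro h1
      exact hne (congrArg Prod.snd h1)
    · rw [stab_A]

lemma free_of_isPrincipal7 {x : S7} (hx : IsPrincipal GG x) : Free7 x := by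
  by_contra hf
  obtain ⟨q, hq1, hq⟩ := stab_nontrivial hf
  obtain ⟨y, hy⟩ := exists_free7
  obtain ⟨a, ha⟩ := hx y
  have h1 : a * q * a⁻¹ = 1 := stab_of_free7 hy (ha q hq)
  apply hq1
  have h2 : a * q = a := by
    have := congrArg (· * a) h1
    simpa using this
  simpa using h2

/-- effectiveness -/
instance faithful : FaithfulSMul GG S7 where
  eq_of_smul_eq_smul {a b} h := by
    obtain ⟨y, hy⟩ := exists_free7
    have h1 : (b⁻¹ * a) • y = y := by
      rw [mul_smul, h y, inv_smul_smul]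
    have h2 := stab_of_free7 hy h1
    have h3 := congrArg (b * ·) h2
    simpa using h3

/-- no automorphism of the group takes one isotropy group to the other -/
lemma not_auto (φ : GG ≃* GG) :
    (MulAction.stabilizer GG pA).map φ.toMonoidHom ≠ MulAction.stabilizer GG pB := by
  intro h
  have hA : (MulAction.stabilizer GG pA).Normal := by
    constructor
    intro n hn g
    rw [MulAction.mem_stabilizer_iff, stab_A] at *
    have : (g * n * g⁻¹).1 = g.1 * n.1 * g.1⁻¹ := rfl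
    rw [this, hn]; simp
  have hB : (MulAction.stabilizer GG pB).Normal := by
    rw [← h]
    exact hA.map φ.toMonoidHom φ.surjective
  -- the element (i, i) is in the stabilizer of pB; its conjugate by (j, 1) is not
  have hI : ‖Complex.I‖ = 1 := by simp
  let tI : Circle := ⟨Complex.I, by simp [Submonoid.unitSphere]⟩
  let qi : SQ := ⟨qI, by simpa using norm_qI⟩
  let qj : SQ := ⟨qJ, by simpa using norm_qJ⟩
  have h1 : ((qi, tI) : GG) ∈ MulAction.stabilizer GG pB := by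
    rw [MulAction.mem_stabilizer_iff, stab_B]
    change qI = cq Complex.I
    ext <;> simp [cq_apply]
  have h2 := hB.conj_mem _ h1 ((qj, 1) : GG)
  rw [MulAction.mem_stabilizer_iff, stab_B] at h2
  have h3 : ((((qj, 1) : GG) * ((qi, tI) : GG) * ((qj, 1) : GG)⁻¹).1 : ℍ[ℝ]) =
      qJ * qI * star qJ := by
    change ((qj * qi * qj⁻¹ : SQ) : ℍ[ℝ]) = _
    have : ((qj⁻¹ : SQ) : ℍ[ℝ]) = star qJ := UQ.coe_inv qj
    change (qj : ℍ[ℝ]) * (qi : ℍ[ℝ]) * ((qj⁻¹ : SQ) : ℍ[ℝ]) = _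
    rw [this]
  have h4 : (((qj, 1) : GG) * ((qi, tI) : GG) * ((qj, 1) : GG)⁻¹).2 = tI := by
    change (1 : Circle) * tI * 1⁻¹ = tI
    simp
  rw [h3, h4] at h2
  have h5 := congrArg QuaternionAlgebra.imI h2
  have h6 : (qJ * qI * star qJ).imI = -1 := by simp
  have h7 : (cq (tI : ℂ)).imI = 1 := by
    change (cq Complex.I).imI = 1
    simp [cq_apply]
  have h8 : (-1 : ℝ) = 1 := h6.symm.trans (h5.trans h7)
  norm_num at h8

lemma orbit_ne : MulAction.orbit GG pA ≠ MulAction.orbit GG pB := by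
  intro h
  have h1 : pB ∈ MulAction.orbit GG pA := by rw [h]; exact MulAction.mem_orbit_self _
  obtain ⟨a, ha⟩ := h1
  have h2 := cx_smul_one a pA
  have ha' : a • pA = pB := ha
  rw [ha'] at h2
  have h3 : (1 : ℍ[ℝ]) = (a.1 : ℍ[ℝ]) * 0 * star (cq a.2) := h2
  simp at h3

end Q196.TS
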