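import Pool.Agent.Q196.TwoSing2
import Pool.Agent.Q196.SingleSing3

/-! Orbit dimensions for the action of `SU(2) × U(1)` on `S⁷`. -/

open scoped Manifold ContDiff Topology RealInnerProductSpace Quaternion
open Module Metric

namespace Q196.TS

open Q196.Round Q196.GMan Q196.SphAct Q196.UQ Q196.SS Pool.Agent.H839R2.Stmt

attribute [local instance] finrank_real_complex_fact'

/-- the model space of the group -/
abbrev EGG : Type := EuclideanSpace ℝ (Fin 3) × EuclideanSpace ℝ (Fin 1)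

/-- differential of the inclusion of the circle -/
noncomputable def dC : EuclideanSpace ℝ (Fin 1) →L[ℝ] ℂ :=
  dInc (V := ℂ) (n := 1) (1 : Circle)

/-- the ambient coordinates of the group -/
noncomputable def jj (a : GG) : ℍ[ℝ] × ℍ[ℝ] := ((a.1 : ℍ[ℝ]), cq a.2)

lemma jj_one : jj 1 = (1, 1) := by
  change (((1 : SQ) : ℍ[ℝ]), cq ((1 : Circle) : ℂ)) = _
  rw [Circle.coe_one, cq_one]; rfl

lemma mdiff_jj (a : GG) : MDifferentiableAt ((𝓡 3).prod (𝓡 1)) 𝓘(ℝ, ℍ[ℝ] × ℍ[ℝ]) jj a :=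
  cdA.mdifferentiableAt (by simp)

lemma mfderiv_jj (ξ : EGG) :
    (mfderiv ((𝓡 3).prod (𝓡 1)) 𝓘(ℝ, ℍ[ℝ] × ℍ[ℝ]) jj 1 ξ : ℍ[ℝ] × ℍ[ℝ]) =
      (dInc (n := 3) (1 : SQ) ξ.1, cq (dC ξ.2)) := by
  have hf : HasMFDerivAt (𝓡 3) 𝓘(ℝ, ℍ[ℝ]) (fun q : SQ => (q : ℍ[ℝ])) ((1 : GG).1)
      (dInc (n := 3) (1 : SQ)) :=
    ((contMDiff_coe_sphere (m := ∞) (E := ℍ[ℝ]) (n := 3)).mdifferentiableAt
      (by simp)).hasMFDerivAt
  have hg : HasMFDerivAt (𝓡 1) 𝓘(ℝ, ℂ) (fun t : Circle => (t : ℂ)) ((1 : GG).2) dC :=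
    ((contMDiff_coe_sphere (m := ∞) (E := ℂ) (n := 1)).mdifferentiableAt
      (by simp)).hasMFDerivAt
  have hc : HasMFDerivAt 𝓘(ℝ, ℂ) 𝓘(ℝ, ℍ[ℝ]) cq ((fun t : Circle => (t : ℂ)) ((1 : GG).2)) cq :=
    cq.hasMFDerivAt
  have h1 := hf.comp (1 : GG) (hasMFDerivAt_fst (I := 𝓡 3) (I' := 𝓡 1) (1 : GG))
  have h2 := (hc.comp _ hg).comp (1 : GG) (hasMFDerivAt_snd (I := 𝓡 3) (I' := 𝓡 1) (1 : GG))
  have k1 := ((ContinuousLinearMap.fst ℝ ℍ[ℝ] ℍ[ℝ]).hasMFDerivAt (x := jj 1)).comp (1 : GG)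
    (mdiff_jj 1).hasMFDerivAt
  have k2 := ((ContinuousLinearMap.snd ℝ ℍ[ℝ] ℍ[ℝ]).hasMFDerivAt (x := jj 1)).comp (1 : GG)
    (mdiff_jj 1).hasMFDerivAt
  have e1 := hasMFDerivAt_unique k1 h1
  have e2 := hasMFDerivAt_unique k2 h2
  have f1 := congrArg (fun T : EGG →L[ℝ] ℍ[ℝ] => T ξ) e1
  have f2 := congrArg (fun T : EGG →L[ℝ] ℍ[ℝ] => T ξ) e2
  exact Prod.ext f1 f2

lemma dC_re (ξ : EuclideanSpace ℝ (Fin 1)) : (dC ξ).re = 0 := by
  have h := range_dInc (V := ℂ) (n := 1) (1 : Circle)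
  have h1 : dC ξ ∈ (ℝ ∙ ((1 : Circle) : ℂ))ᗮ := by
    have h2 : dC ξ ∈ LinearMap.range (dInc (V := ℂ) (n := 1) (1 : Circle)).toLinearMap :=
      ⟨ξ, rfl⟩
    rw [h] at h2
    exact h2
  rw [Submodule.mem_orthogonal_singleton_iff_inner_left, Circle.coe_one, Complex.inner] at h1
  simpa using h1

lemma exists_dC : ∃ ξ : EuclideanSpace ℝ (Fin 1), dC ξ = Complex.I := by
  have h := range_dInc (V := ℂ) (n := 1) (1 : Circle)
  have h1 : Complex.I ∈ (ℝ ∙ ((1 : Circle) : ℂ))ᗮ := by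
    rw [Submodule.mem_orthogonal_singleton_iff_inner_left, Circle.coe_one, Complex.inner]
    simp
  have h2 : Complex.I ∈ LinearMap.range (dInc (V := ℂ) (n := 1) (1 : Circle)).toLinearMap := by
    rw [h]; exact h1
  obtain ⟨ξ, hξ⟩ := h2
  exact ⟨ξ, hξ⟩

lemma contDiff_orb7 (v : X) :
    ContDiff ℝ ∞ (fun p : ℍ[ℝ] × ℍ[ℝ] => actX p.1 p.2 v) := by
  have h := (contDiff_actX (n := ∞)).comp (contDiff_prodMk_left v)
  exact h

lemma diff_orb7 (v : X) (p : ℍ[ℝ] × ℍ[ℝ]) :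
    DifferentiableAt ℝ (fun p : ℍ[ℝ] × ℍ[ℝ] => actX p.1 p.2 v) p :=
  ((contDiff_orb7 v).differentiable (by simp)).differentiableAt

lemma fderiv_orb7_zero (v : X) (z : ℍ[ℝ] × ℍ[ℝ]) :
    (fderiv ℝ (fun p : ℍ[ℝ] × ℍ[ℝ] => actX p.1 p.2 v) (1, 1) z) 0 = z.1 * v 0 := by
  have h1 := (PiLp.proj 2 (𝕜 := ℝ) (fun _ : Fin 2 => ℍ[ℝ]) 0).hasFDerivAt.comp (1, 1)
    (diff_orb7 v (1, 1)).hasFDerivAt
  have h2 : ((PiLp.proj 2 (𝕜 := ℝ) (fun _ : Fin 2 => ℍ[ℝ]) 0) ∘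
      fun p : ℍ[ℝ] × ℍ[ℝ] => actX p.1 p.2 v) = fun p => p.1 * v 0 := by
    funext p; exact actX_zero p.1 p.2 v
  rw [h2] at h1
  have h3 : HasFDerivAt (fun p : ℍ[ℝ] × ℍ[ℝ] => p.1 * v 0)
      (((ContinuousLinearMap.mul ℝ ℍ[ℝ]).flip (v 0)).comp (ContinuousLinearMap.fst ℝ _ _))
      (1, 1) := by
    have h := (((ContinuousLinearMap.mul ℝ ℍ[ℝ]).flip (v 0)).comp
      (ContinuousLinearMap.fst ℝ ℍ[ℝ] ℍ[ℝ])).hasFDerivAt (x := ((1, 1) : ℍ[ℝ] × ℍ[ℝ]))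
    exact h
  have h4 := congrArg (fun T : ℍ[ℝ] × ℍ[ℝ] →L[ℝ] ℍ[ℝ] => T z) (h1.unique h3)
  exact h4

lemma fderiv_orb7_one (v : X) (z : ℍ[ℝ] × ℍ[ℝ]) :
    (fderiv ℝ (fun p : ℍ[ℝ] × ℍ[ℝ] => actX p.1 p.2 v) (1, 1) z) 1 =
      z.1 * v 1 + v 1 * star z.2 := by
  have h1 := (PiLp.proj 2 (𝕜 := ℝ) (fun _ : Fin 2 => ℍ[ℝ]) 1).hasFDerivAt.comp (1, 1)
    (diff_orb7 v (1, 1)).hasFDerivAt
  have h2 : ((PiLp.proj 2 (𝕜 := ℝ) (fun _ : Fin 2 => ℍ[ℝ]) 1) ∘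
      fun p : ℍ[ℝ] × ℍ[ℝ] => actX p.1 p.2 v) = fun p => (p.1 * v 1) * star p.2 := by
    funext p; exact actX_one _ _ _
  rw [h2] at h1
  have h3 : HasFDerivAt (fun p : ℍ[ℝ] × ℍ[ℝ] => p.1 * v 1)
      (((ContinuousLinearMap.mul ℝ ℍ[ℝ]).flip (v 1)).comp (ContinuousLinearMap.fst ℝ _ _))
      (1, 1) := by
    have h := (((ContinuousLinearMap.mul ℝ ℍ[ℝ]).flip (v 1)).comp
      (ContinuousLinearMap.fst ℝ ℍ[ℝ] ℍ[ℝ])).hasFDerivAt (x := ((1, 1) : ℍ[ℝ] × ℍ[ℝ]))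
    exact h
  have h5 : HasFDerivAt (fun p : ℍ[ℝ] × ℍ[ℝ] => star p.2)
      (starQ.comp (ContinuousLinearMap.snd ℝ _ _)) (1, 1) := by
    have h := (starQ.comp (ContinuousLinearMap.snd ℝ ℍ[ℝ] ℍ[ℝ])).hasFDerivAt
      (x := ((1, 1) : ℍ[ℝ] × ℍ[ℝ]))
    exact h
  have h6 := h3.mul' h5
  have h4 := congrArg (fun T : ℍ[ℝ] × ℍ[ℝ] →L[ℝ] ℍ[ℝ] => T z) (h1.unique h6)
  refine Eq.trans h4 ?_
  simp [add_comm]

lemma mdiff_orb7 (x : S7) :
    MDifferentiableAt ((𝓡 3).prod (𝓡 1)) (𝓡 7) (fun a : GG => a • x) 1 := by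
  have h1 : ContMDiff ((𝓡 3).prod (𝓡 1)) (((𝓡 3).prod (𝓡 1)).prod (𝓡 7)) ∞
      (fun a : GG => (a, x)) := contMDiff_id.prodMk contMDiff_const
  have h2 := contMDiff_act7.comp h1
  exact h2.mdifferentiableAt (by simp)

lemma fderiv_jj (v : X) (ξ : EGG) :
    fderiv ℝ (fun p : ℍ[ℝ] × ℍ[ℝ] => actX p.1 p.2 v) (jj 1)
      (mfderiv ((𝓡 3).prod (𝓡 1)) 𝓘(ℝ, ℍ[ℝ] × ℍ[ℝ]) jj 1 ξ) =
    fderiv ℝ (fun p : ℍ[ℝ] × ℍ[ℝ] => actX p.1 p.2 v) (1, 1)
      (dInc (n := 3) (1 : SQ) ξ.1, cq (dC ξ.2)) := by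
  rw [← mfderiv_jj ξ, jj_one]

lemma star_cq_dC (ξ : EuclideanSpace ℝ (Fin 1)) : star (cq (dC ξ)) = - cq (dC ξ) := by
  rw [Quaternion.star_eq_neg, cq_apply, Quaternion.re_coeComplex, dC_re]

lemma orbitDim_free7 {x : S7} (hx : Free7 x) :
    orbitDim ((𝓡 3).prod (𝓡 1)) GG (𝓡 7) x = 4 := by
  have h := orbitDim_eq (G := GG) (IG := (𝓡 3).prod (𝓡 1)) (x := x) (mdiff_orb7 x) (mdiff_jj 1)
    (A := fun p : ℍ[ℝ] × ℍ[ℝ] => actX p.1 p.2 (x : X)) (diff_orb7 _ _)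
    (ContinuousLinearMap.id ℝ X) (fun a => smul_coe7 a x) ?_
  · rw [h]; simp
  · intro ξ hξ
    rw [fderiv_jj] at hξ
    have h0 := fderiv_orb7_zero (x : X) (dInc (n := 3) (1 : SQ) ξ.1, cq (dC ξ.2))
    have h1 := fderiv_orb7_one (x : X) (dInc (n := 3) (1 : SQ) ξ.1, cq (dC ξ.2))
    rw [hξ] at h0 h1
    have h2 : dInc (n := 3) (1 : SQ) ξ.1 * cx x 0 = 0 := h0.symm
    have h3 : dInc (n := 3) (1 : SQ) ξ.1 = 0 := by
      rcases mul_eq_zero.mp h2 with h | h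
      · exact h
      · exact absurd h hx.1
    have h4 : (0 : ℍ[ℝ]) = dInc (n := 3) (1 : SQ) ξ.1 * cx x 1 +
        cx x 1 * star (cq (dC ξ.2)) := h1
    rw [h3, zero_mul, zero_add] at h4
    have h5 : star (cq (dC ξ.2)) = 0 := by
      rcases mul_eq_zero.mp h4.symm with h | h
      · exact absurd h hx.2
      · exact h
    have h6 : dC ξ.2 = 0 := by
      apply cq_injective
      rw [map_zero, ← star_star (cq (dC ξ.2)), h5, star_zero]
    have e1 : ξ.1 = 0 := dInc_injective (1 : SQ) (h3.trans (map_zero _).symm)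
    have e2 : ξ.2 = 0 := dInc_injective (V := ℂ) (n := 1) (1 : Circle)
      (h6.trans (map_zero _).symm)
    exact Prod.ext e1 e2

lemma orbitDim_not_free7 {x : S7} (hx : ¬ Free7 x) :
    orbitDim ((𝓡 3).prod (𝓡 1)) GG (𝓡 7) x < 4 := by
  have h := orbitDim_lt (G := GG) (IG := (𝓡 3).prod (𝓡 1)) (x := x) (mdiff_orb7 x) (mdiff_jj 1)
    (A := fun p : ℍ[ℝ] × ℍ[ℝ] => actX p.1 p.2 (x : X)) (diff_orb7 _ _)
    (ContinuousLinearMap.id ℝ X) Function.injective_id (fun a => smul_coe7 a x) ?_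
  · simpa using h
  · obtain ⟨ζ, hζ⟩ := exists_dC
    have hζ0 : ζ ≠ 0 := by
      intro h0
      rw [h0, map_zero] at hζ
      exact Complex.I_ne_zero hζ.symm
    have hs : star (cq (dC ζ)) = - cq (dC ζ) := star_cq_dC ζ
    rcases (free_iff_not x).mp hx with h0 | h0
    · -- `v = 0`
      have hw : ‖cx x 1‖ = 1 := by
        have h := norm_cx x
        rw [h0] at h
        have : ‖cx x 1‖ ^ 2 = 1 := by simpa using h
        nlinarith [norm_nonneg (cx x 1)]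
      set z : ℍ[ℝ] := cx x 1 * cq (dC ζ) * star (cx x 1) with hz
      have hzre : z.re = 0 := by
        rw [← Quaternion.star_eq_neg, hz, star_mul, star_mul, star_star, hs]
        simp [mul_assoc]
      obtain ⟨ξ, hξ⟩ := range_dInc_one z hzre
      refine ⟨(ξ, ζ), ?_, ?_⟩
      · intro h; exact hζ0 (congrArg Prod.snd h)
      · rw [fderiv_jj]
        apply ext2
        · rw [fderiv_orb7_zero]
          change dInc (n := 3) (1 : SQ) ξ * cx x 0 = 0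
          rw [h0, mul_zero]
        · rw [fderiv_orb7_one]
          change dInc (n := 3) (1 : SQ) ξ * cx x 1 + cx x 1 * star (cq (dC ζ)) = 0
          rw [hξ, hs, hz, mul_assoc, Quaternion.star_mul_self, Quaternion.normSq_eq_norm_mul_self,
            hw]
          simp
    · -- `w = 0`
      refine ⟨(0, ζ), ?_, ?_⟩
      · intro h; exact hζ0 (congrArg Prod.snd h)
      · rw [fderiv_jj]
        apply ext2
        · rw [fderiv_orb7_zero]
          change dInc (n := 3) (1 : SQ) 0 * cx x 0 = 0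
          rw [map_zero, zero_mul]
        · rw [fderiv_orb7_one]
          change dInc (n := 3) (1 : SQ) 0 * cx x 1 + cx x 1 * star (cq (dC ζ)) = 0
          rw [map_zero, zero_mul, h0, zero_mul, add_zero]

theorem hasCohomogeneity7 : HasCohomogeneity ((𝓡 3).prod (𝓡 1)) GG (𝓡 7) S7 3 := by
  obtain ⟨x, hx⟩ := exists_free7
  refine ⟨⟨x, isPrincipal_of_free7 hx⟩, fun y hy => ?_⟩
  rw [orbitDim_free7 (free_of_isPrincipal7 hy), finrank_euclideanSpace_fin]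

lemma isSingular_iff7 (x : S7) :
    IsSingular ((𝓡 3).prod (𝓡 1)) GG (𝓡 7) x ↔ ¬ Free7 x := by
  constructor
  · intro h hf
    have := h x (isPrincipal_of_free7 hf)
    exact lt_irrefl _ this
  · intro h y hy
    rw [orbitDim_free7 (free_of_isPrincipal7 hy)]
    exact orbitDim_not_free7 h

lemma orbit_cases {x : S7} (hx : ¬ Free7 x) :
    MulAction.orbit GG x = MulAction.orbit GG pA ∨
      MulAction.orbit GG x = MulAction.orbit GG pB := by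
  rcases (free_iff_not x).mp hx with h | h
  · right
    rw [MulAction.orbit_eq_iff]
    exact orbit_B h
  · left
    rw [MulAction.orbit_eq_iff]
    exact orbit_A h

lemma pA_not_free : ¬ Free7 pA := fun h => h.2 rfl
lemma pB_not_free : ¬ Free7 pB := fun h => h.1 rfl

theorem finite_nonPrincipal7 : (nonPrincipalOrbits GG S7).Finite := by
  refine ((Set.finite_singleton (MulAction.orbit GG pB)).insert
    (MulAction.orbit GG pA)).subset ?_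
  rintro o ⟨y, hy, rfl⟩
  exact orbit_cases (fun h => hy (isPrincipal_of_free7 h))

theorem twoDifferent : HasTwoDifferentSingularOrbits ((𝓡 3).prod (𝓡 1)) GG (𝓡 7) S7 :=
  ⟨pA, pB, (isSingular_iff7 _).mpr pA_not_free, (isSingular_iff7 _).mpr pB_not_free, orbit_ne,
    fun _ hx => orbit_cases ((isSingular_iff7 _).mp hx), not_auto⟩

instance connected7 : ConnectedSpace S7 := by
  rw [← isConnected_iff_connectedSpace]
  apply isConnected_sphere _ _ zero_le_one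
  rw [← finrank_eq_rank, finrank_X]
  norm_num

instance connectedSQ : ConnectedSpace SQ := by
  rw [← isConnected_iff_connectedSpace]
  apply isConnected_sphere _ _ zero_le_one
  rw [← finrank_eq_rank, Quaternion.finrank_eq_four]
  norm_num

instance connectedCircle : ConnectedSpace Circle := by
  have h : IsConnected (sphere (0 : ℂ) 1) := by
    apply isConnected_sphere _ _ zero_le_one
    rw [← finrank_eq_rank, Complex.finrank_real_complex]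
    norm_num
  exact isConnected_iff_connectedSpace.mp h

end Q196.TS
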