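import Pool.Agent.Q196.RoundSphere

/-! The Lie group of unit quaternions, and smooth maps into spheres. -/

open scoped Manifold ContDiff Topology RealInnerProductSpace Quaternion
open Module Metric

namespace Q196.UQ

instance factH : Fact (finrank ℝ ℍ[ℝ] = 3 + 1) := ⟨Quaternion.finrank_eq_four⟩

/-- The unit quaternions. -/
abbrev SQ : Type := sphere (0 : ℍ[ℝ]) 1

noncomputable instance grpSQ : Group SQ := Metric.unitSphere.instGroup

noncomputable instance (priority := 2000) monSQ : Monoid SQ := grpSQ.toDivInvMonoid.toMonoid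

/-- conjugation as a continuous linear map -/
noncomputable def starQ : ℍ[ℝ] →L[ℝ] ℍ[ℝ] :=
  LinearMap.toContinuousLinearMap
    { toFun := star, map_add' := star_add, map_smul' := fun c x => by simp }

@[simp] lemma starQ_apply (q : ℍ[ℝ]) : starQ q = star q := rfl

lemma contDiff_starQ {n : WithTop ℕ∞} : ContDiff ℝ n (star : ℍ[ℝ] → ℍ[ℝ]) :=
  starQ.contDiff

lemma norm_coe (q : SQ) : ‖(q : ℍ[ℝ])‖ = 1 := by simp

lemma inv_coe (q : SQ) : (q : ℍ[ℝ])⁻¹ = star (q : ℍ[ℝ]) := by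
  rw [Quaternion.inv_def, Quaternion.normSq_eq_norm_mul_self, norm_coe]
  simp

lemma coe_inv (q : SQ) : ((q⁻¹ : SQ) : ℍ[ℝ]) = star (q : ℍ[ℝ]) := by
  rw [Metric.unitSphere.coe_inv, inv_coe]

instance : LieGroup (𝓡 3) ∞ SQ where
  contMDiff_mul := by
    apply ContMDiff.codRestrict_sphere
    let c : SQ → ℍ[ℝ] := (↑)
    have h₂ : ContMDiff (𝓘(ℝ, ℍ[ℝ]).prod 𝓘(ℝ, ℍ[ℝ])) 𝓘(ℝ, ℍ[ℝ]) ∞
        fun z : ℍ[ℝ] × ℍ[ℝ] => z.fst * z.snd := by
      rw [contMDiff_iff]
      exact ⟨continuous_mul, fun x y => contDiff_mul.contDiffOn⟩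
    suffices h₁ : ContMDiff _ _ _ (Prod.map c c) from
      h₂.comp h₁
    apply ContMDiff.prodMap <;> exact contMDiff_coe_sphere
  contMDiff_inv := by
    have h : ContMDiff (𝓡 3) 𝓘(ℝ, ℍ[ℝ]) ∞ (fun q : SQ => (q : ℍ[ℝ])⁻¹) := by
      simp only [inv_coe]
      exact contDiff_starQ.contMDiff.comp contMDiff_coe_sphere
    exact ContMDiff.codRestrict_sphere h _

end Q196.UQ
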